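import Pool.Agent.Q198.WM.Stmts

namespace Pool.Agent.Q198.WM

open MeasureTheory ProbabilityTheory Finset Filter Topology

theorem strict_of_bad {X Y : Type} [NormedAddCommGroup X] [NormedSpace ℝ X] [NormedAddCommGroup Y]
    [NormedSpace ℝ Y] (T : X →L[ℝ] Y) (h : ∀ x : X, ‖x‖ = 1 → ‖T x‖ ≠ ‖T‖) (u : X) (hu : u ≠ 0) :
    ‖T u‖ < ‖T‖ * ‖u‖ := by
  have hu' : 0 < ‖u‖ := norm_pos_iff.mpr hu
  refine lt_of_le_of_ne (T.le_opNorm u) ?_
  intro heq
  apply h ((‖u‖⁻¹ : ℝ) • u)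
  · rw [norm_smul, norm_inv, norm_norm, inv_mul_cancel₀ hu'.ne']
  · rw [map_smul, norm_smul, heq, norm_inv, norm_norm]
    field_simp

theorem cpx_bad (c1 : TaskC1) (c2 : TaskC2) (c3 : TaskC3) (c4 : TaskC4) (c5 : TaskC5)
    (c6 : TaskC6) (c7 : TaskC7) (p q : ℝ) [Fact (1 ≤ ENNReal.ofReal p)]
    [Fact (1 ≤ ENNReal.ofReal q)] (hp : 1 < p) (hpq : p ≤ q)
    (T : Lp ℝ (ENNReal.ofReal p) (volume : Measure unitInterval) →L[ℝ]
      Lp ℝ (ENNReal.ofReal q) (volume : Measure unitInterval)) (hT : Bad T) :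
    ∃ S : Lp ℂ (ENNReal.ofReal p) (volume : Measure unitInterval) →L[ℂ]
      Lp ℂ (ENNReal.ofReal q) (volume : Measure unitInterval), Bad S := by
  obtain ⟨hna, x, hx1, hx2, hx3⟩ := hT
  have hst := strict_of_bad T hna
  obtain ⟨S, hS⟩ := c4 p q T
  have hlt := c7 c1 c2 c3 p q hp hpq T S hS hst
  have hle : ‖S‖ ≤ ‖T‖ := by
    refine S.opNorm_le_bound (norm_nonneg _) fun f => ?_
    rcases eq_or_ne f 0 with rfl | hf
    · simp
    · exact (hlt f hf).le
  choose f hf1 hf2 using fun n => c5 p (x n)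
  have hTS : ∀ n, ‖T (x n)‖ ≤ ‖S (f n)‖ := by
    intro n
    have hre : (fun t => (f n t).re) =ᵐ[volume] x n := by
      filter_upwards [hf2 n] with t ht
      rw [ht]
      simp
    have h1 := hS (f n) (x n) hre
    refine Lp.norm_le_norm_of_ae_le ?_
    filter_upwards [h1] with t ht
    rw [← ht]
    exact Complex.abs_re_le_norm _
  have hfn : ∀ n, ‖f n‖ = 1 := fun n => (hf1 n).trans (hx1 n)
  have hSf : ∀ n, ‖S (f n)‖ ≤ ‖S‖ := fun n => by
    have := S.le_opNorm (f n)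
    rwa [hfn n, mul_one] at this
  have heq : ‖S‖ = ‖T‖ := by
    refine le_antisymm hle ?_
    exact le_of_tendsto' hx2 fun n => (hTS n).trans (hSf n)
  refine ⟨S, ?_, f, hfn, ?_, ?_⟩
  · intro g hg
    have hg0 : g ≠ 0 := by
      intro h
      rw [h, norm_zero] at hg
      exact zero_ne_one hg
    have := hlt g hg0
    rw [hg, mul_one, ← heq] at this
    exact this.ne
  · rw [heq]
    refine tendsto_of_tendsto_of_tendsto_of_le_of_le hx2 tendsto_const_nhds hTS ?_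
    intro n
    exact (hSf n).trans hle
  · intro hall
    apply hx3
    intro φ
    obtain ⟨ψ, hψ⟩ := c6 p φ
    have h1 := hall ψ
    have h2 : ∀ n, ψ (f n) = (φ (x n) : ℂ) := fun n => hψ (x n) (f n) (hf2 n)
    have h3 : Tendsto (fun n => ((φ (x n) : ℝ) : ℂ)) atTop (𝓝 0) := by
      simpa [h2] using h1
    have h4 := (Complex.continuous_re.tendsto 0).comp h3
    have h5 : (Complex.re ∘ fun n => ((φ (x n) : ℝ) : ℂ)) = fun n => φ (x n) := by
      funext n
      exact Complex.ofReal_re _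
    rw [h5] at h4
    simpa using h4

end Pool.Agent.Q198.WM
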