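import Pool.Agent.Q198.WM.Stmts

namespace Pool.Agent.Q198.WM

open MeasureTheory ProbabilityTheory Finset Filter Topology

/-- the set of pairs -/
def HH (p : ℝ) : Set (ℝ × ℝ) := {z | ∃ h ∈ Ball p, z = (∫ x, h x ∂gam, ∫ x, h x * x ∂gam)}

theorem nf_nrm (hI : TaskInt) (hL : TaskLip) (hM : TaskMono) (hV : TaskVal) (r : ℝ) (hr : 1 < r) :
    NF (nrm r) (nrm r 0 1) :=
  ⟨hL hI r hr, hM hI r hr, (hV hI r hr).1, (hV hI r hr).2.1, (hV hI r hr).2.2.1,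
    (hV hI r hr).2.2.2⟩

theorem abs_bad (a1 : TaskA1) (a2 : TaskA2) (a3 : TaskA3) (a4 : TaskA4) (a5 : TaskA5)
    (a6 : TaskA6) (X Y : Type) [NormedAddCommGroup X] [NormedSpace ℝ X]
    [NormedAddCommGroup Y] [NormedSpace ℝ Y] [CompleteSpace Y] (P Q : ℝ → ℝ → ℝ)
    (H : Set (ℝ × ℝ)) (cP cQ : ℝ) (hP : NF P cP) (hQ : NF Q cQ) (D : Data X Y P Q H)
    (m : ℝ) (hm : 0 < m) (hm1 : m * cQ * cP ≤ 1)
    (hpol : ∀ α β : ℝ, (∀ a b : ℝ, a * α + b * β ≤ P a b) →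
      ∃ z ∈ H, Q α (m * β) ≤ Q z.1 (m * z.2))
    (hbig : ∃ z ∈ H, 1 < Q z.1 (m * z.2)) : ∃ T : X →L[ℝ] Y, Bad T := by
  -- bounds for the members of `H`
  have hz : ∀ z ∈ H, |z.1| ≤ 1 ∧ |z.2| ≤ cP := by
    intro z hzH
    obtain ⟨x, hx, h1, h2, -⟩ := D.real z hzH 0
    constructor
    · have := D.dual x 1 ∅ 0
      simp only [one_mul, sum_empty, add_zero, Real.sqrt_zero, hP.one, abs_one, mul_one] at this
      rw [← h1]
      exact this.trans hx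
    · have := D.dual x 0 {0} 1
      simp only [zero_mul, sum_singleton, Pi.one_apply, one_mul, zero_add, one_pow,
        Real.sqrt_one] at this
      rw [h2, hP.zero, abs_one, one_mul] at this
      refine this.trans ?_
      calc ‖x‖ * cP ≤ 1 * cP := mul_le_mul_of_nonneg_right hx hP.cpos.le
        _ = cP := one_mul _
  have hbd : BddAbove {y : ℝ | ∃ z ∈ H, y = Q z.1 (m * z.2)} := by
    refine ⟨1 + m * cP * cQ, ?_⟩
    rintro y ⟨z, hzH, rfl⟩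
    obtain ⟨h1, h2⟩ := hz z hzH
    have h3 := hQ.lip z.1 (m * z.2) 0 0
    rw [hQ.one, abs_zero, zero_add, sub_zero, sub_zero, abs_mul, abs_of_pos hm] at h3
    have h4 : m * |z.2| * cQ ≤ m * cP * cQ :=
      mul_le_mul_of_nonneg_right (mul_le_mul_of_nonneg_left h2 hm.le) hQ.cpos.le
    linarith
  obtain ⟨z0, hz0, hz01⟩ := hbig
  set M := sSup {y : ℝ | ∃ z ∈ H, y = Q z.1 (m * z.2)} with hM
  have hlub : IsLUB {y : ℝ | ∃ z ∈ H, y = Q z.1 (m * z.2)} M :=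
    isLUB_csSup ⟨_, z0, hz0, rfl⟩ hbd
  have hM1 : 1 < M := hz01.trans_le (hlub.1 ⟨z0, hz0, rfl⟩)
  -- the multipliers
  let μ : ℕ → ℝ := fun n => m * (1 - 1 / ((n : ℝ) + 2))
  have hμ : ∀ n, 0 < μ n ∧ μ n < m := by
    intro n
    have h2 : (0 : ℝ) < (n : ℝ) + 2 := by positivity
    have h3 : 1 / ((n : ℝ) + 2) < 1 := by
      rw [div_lt_one h2]
      have : (0 : ℝ) ≤ n := Nat.cast_nonneg n
      linarith
    have h4 : 0 < 1 / ((n : ℝ) + 2) := by positivity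
    constructor
    · exact mul_pos hm (by linarith)
    · have : m * (1 - 1 / ((n : ℝ) + 2)) < m * 1 := mul_lt_mul_of_pos_left (by linarith) hm
      simpa [μ] using this
  have hμt : Tendsto μ atTop (𝓝 m) := by
    have h1 : Tendsto (fun n : ℕ => 1 / ((n : ℝ) + 2)) atTop (𝓝 0) := by
      have := (tendsto_const_div_atTop_nhds_zero_nat (1 : ℝ)).comp (tendsto_add_atTop_nat 2)
      refine this.congr fun n => ?_
      simp
    have h2 := (h1.const_sub 1).const_mul m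
    rw [sub_zero, mul_one] at h2
    exact h2
  obtain ⟨T, hT⟩ := a3 a1 X Y P Q H cP cQ hP hQ D μ m hμ
  obtain ⟨x, hx1, hx2, hx3⟩ := a5 X Y P Q H cP cQ hP hQ D μ m M hm hμ hμt hm1 hM1 hlub
  refine ⟨T, a6 X Y T M D.α hM1 ?_ x hx1 ?_ hx3⟩
  · intro x hx
    rw [hT]
    exact a4 a1 a2 X Y P Q H cP cQ hP hQ D μ m M hm hμ hpol
      (fun z hz => hlub.1 ⟨z, hz, rfl⟩) hM1 x hx
  · simpa only [hT] using hx2

theorem real_bad (tExist : TaskExist) (tLaw : TaskLaw) (tInt : TaskInt) (tSumNorm : TaskSumNorm)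
    (tComp : TaskComp) (tExt : TaskExt) (tHold : TaskHold) (tPolar : TaskPolar)
    (tIBP : TaskIBP) (tMom : TaskMom) (tMomStrict : TaskMomStrict) (tPtLow : TaskPtLow)
    (tPtUp : TaskPtUp) (tExpLow : TaskExpLow) (tExpUp : TaskExpUp) (tCalc : TaskCalc)
    (tTest : TaskTest) (tBig : TaskBig) (tLip : TaskLip) (tMono : TaskMono) (tVal : TaskVal)
    (a1 : TaskA1) (a2 : TaskA2) (a3 : TaskA3) (a4 : TaskA4) (a5 : TaskA5)
    (a6 : TaskA6) (tFunc : TaskFunc) (tFuncBd : TaskFuncBd) (tNormLp : TaskNormLp)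
    (tD1 : TaskD1) (tD2 : TaskD2) (tD3 : TaskD3) (tM : TaskM)
    (p q : ℝ) (hp : 1 < p) (hp2 : p ≤ 2) (hq : 2 ≤ q) (hne : ¬ (p = 2 ∧ q = 2))
    [Fact (1 ≤ ENNReal.ofReal p)] [Fact (1 ≤ ENNReal.ofReal q)] :
    ∃ T : Lp ℝ (ENNReal.ofReal p) (volume : Measure unitInterval) →L[ℝ]
      Lp ℝ (ENNReal.ofReal q) (volume : Measure unitInterval), Bad T := by
  obtain ⟨g, hg⟩ := tExist
  have hc : p.HolderConjugate p.conjExponent := Real.HolderConjugate.conjExponent hp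
  have hq1 : 1 < q := by linarith
  have hcq : q.HolderConjugate q.conjExponent := Real.HolderConjugate.conjExponent hq1
  obtain ⟨m, hm, hm1, hm2⟩ := tM tMom tMomStrict tIBP tInt tVal p p.conjExponent q hc hp2 hq hne
  obtain ⟨e, G, hG⟩ := tD1 tLaw tInt tSumNorm tNormLp g hg q hq1
  obtain ⟨α, v, hα, hv, hdual⟩ := tD2 tLaw tInt tSumNorm tFunc tFuncBd g hg p p.conjExponent hc
  have hreal : ∀ z ∈ HH p, ∀ n, ∃ x : Lp ℝ (ENNReal.ofReal p) (volume : Measure unitInterval),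
      ‖x‖ ≤ 1 ∧ α x = z.1 ∧ v n x = z.2 ∧ ∀ k, k ≠ n → v k x = 0 := by
    rintro z ⟨h, hh, rfl⟩ n
    obtain ⟨f, h1, h2, h3, h4⟩ := tD3 tComp tNormLp g hg p hp h hh n
    refine ⟨f, h1, (hα f).trans h2, (hv n f).trans h3, fun k hk => (hv k f).trans (h4 k hk)⟩
  let D : Data (Lp ℝ (ENNReal.ofReal p) (volume : Measure unitInterval))
      (Lp ℝ (ENNReal.ofReal q) (volume : Measure unitInterval)) (nrm p.conjExponent) (nrm q)
      (HH p) := ⟨α, v, e, G, hG, hdual, hreal⟩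
  refine abs_bad a1 a2 a3 a4 a5 a6 _ _ _ _ _ _ _ (nf_nrm tInt tLip tMono tVal _ hc.symm.lt)
    (nf_nrm tInt tLip tMono tVal _ hq1) D m hm hm2 ?_ ?_
  · intro a b hab
    obtain ⟨h, hh, hle⟩ := tPolar tExt tHold tInt p p.conjExponent q q.conjExponent hc hcq m a b hab
    exact ⟨_, ⟨h, hh, rfl⟩, hle⟩
  · obtain ⟨h, hh, hlt⟩ := tBig tTest tExpLow tExpUp tCalc tInt tPtLow tPtUp p q m hp hp2 hq hm hm1
    exact ⟨_, ⟨h, hh, rfl⟩, hlt⟩

end Pool.Agent.Q198.WM
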