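import Mathlib

/-! MP_30e1ee_an (weak maximizing property of `(L_p, L_q)`, `p ≤ 2 ≤ q`): blueprint.
Prove `theorem main (deps as hypotheses) : Pool.Agent.Q198.WM.TaskX` in
`Pool/Agent/Q198/WM/TaskX.lean`, namespace `Pool.Agent.Q198.WM.TaskX`. -/

namespace Pool.Agent.Q198.WM

open MeasureTheory ProbabilityTheory Finset Filter Topology

noncomputable section

/-- standard Gaussian measure -/
def gam : Measure ℝ := gaussianReal 0 1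

/-- the norm of `a + b x` in `L_r` of the standard Gaussian measure -/
def nrm (r a b : ℝ) : ℝ := (∫ x, |a + b * x| ^ r ∂gam) ^ (1 / r)

/-- iid standard Gaussians on `[0,1]` -/
structure IsG (g : ℕ → unitInterval → ℝ) : Prop where
  meas : ∀ n, Measurable (g n)
  indep : iIndepFun g (volume : Measure unitInterval)
  law : ∀ n, (volume : Measure unitInterval).map (g n) = gam

/-! ### Gaussians -/

/-- hint: `MeasureTheory.Measure.exists_measurable_map_eq` for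
`Measure.infinitePi (fun _ : ℕ => gaussianReal 0 1)` on `ℕ → ℝ` -/
def TaskExist : Prop := ∃ g : ℕ → unitInterval → ℝ, IsG g

/-- hint: induction on `F`, `gaussianReal_add_gaussianReal_of_indepFun`, `gaussianReal_map_const_mul` -/
def TaskLaw : Prop := ∀ g : ℕ → unitInterval → ℝ, IsG g → ∀ (F : Finset ℕ) (c : ℕ → ℝ),
  (volume : Measure unitInterval).map (fun t => ∑ n ∈ F, c n * g n t) =
    gam.map (fun x => √(∑ n ∈ F, c n ^ 2) * x)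

/-- hint: `memLp_id_gaussianReal` -/
def TaskInt : Prop := ∀ r a b : ℝ, 0 ≤ r → Integrable (fun x : ℝ => |a + b * x| ^ r) gam

/-- hint: change of variables (`integral_map`, `memLp_map_measure_iff`) with the law. -/
def TaskSumNorm : Prop := TaskLaw → TaskInt → ∀ g : ℕ → unitInterval → ℝ, IsG g →
  ∀ (r : ℝ), 1 ≤ r → ∀ (a : ℝ) (F : Finset ℕ) (c : ℕ → ℝ),
    MemLp (fun t => a + ∑ n ∈ F, c n * g n t) (ENNReal.ofReal r)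
      (volume : Measure unitInterval) ∧
    (∫ t : unitInterval, |a + ∑ n ∈ F, c n * g n t| ^ r) ^ (1 / r) = nrm r a (√(∑ n ∈ F, c n ^ 2))

/-- the functions in the unit ball of `L_p(γ)` -/
def Ball (p : ℝ) : Set (ℝ → ℝ) :=
  {h | Measurable h ∧ Integrable (fun x => |h x| ^ p) gam ∧ ∫ x, |h x| ^ p ∂gam ≤ 1}

/-- hint: `integral_map`, independence of `g n`, `g k` -/
def TaskComp : Prop := ∀ g : ℕ → unitInterval → ℝ, IsG g → ∀ p : ℝ, 1 < p →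
  ∀ h ∈ Ball p, ∀ n : ℕ,
    MemLp (fun t => h (g n t)) (ENNReal.ofReal p) (volume : Measure unitInterval) ∧
    ∫ t : unitInterval, |h (g n t)| ^ p ≤ 1 ∧
    ∫ t : unitInterval, h (g n t) = ∫ x, h x ∂gam ∧
    ∫ t : unitInterval, h (g n t) * g n t = ∫ x, h x * x ∂gam ∧
    ∀ k, k ≠ n → ∫ t : unitInterval, h (g n t) * g k t = 0

/-! ### duality in `L_p(γ)` -/

/-- hint: `h = sign w |w|^(p'-1) / ‖w‖^(p'-1)`, `w = a + b x`; `h = 0` if `nrm p' a b = 0` -/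
def TaskExt : Prop := TaskInt → ∀ p p' : ℝ, p.HolderConjugate p' → ∀ a b : ℝ,
  ∃ h ∈ Ball p, ∫ x, h x * (a + b * x) ∂gam = nrm p' a b

/-- hint: Hölder -/
def TaskHold : Prop := TaskInt → ∀ p p' : ℝ, p.HolderConjugate p' → ∀ h ∈ Ball p,
  Integrable h gam ∧ Integrable (fun x => h x * x) gam ∧
    ∀ a b : ℝ, |∫ x, h x * (a + b * x) ∂gam| ≤ nrm p' a b

/-- hint: let `k ∈ Ball q'` be extremal for `w = α + m β x`, `a = ∫ k`, `b = m ∫ k x`; then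
`nrm q α (mβ) = ∫ k w = a α + b β ≤ nrm p' a b = ∫ h (a + b x) = ∫ k (∫ h + m (∫ h x) x) ≤ ...` -/
def TaskPolar : Prop := TaskExt → TaskHold → TaskInt → ∀ p p' q q' : ℝ, p.HolderConjugate p' →
  q.HolderConjugate q' → ∀ m α β : ℝ, (∀ a b : ℝ, a * α + b * β ≤ nrm p' a b) →
  ∃ h ∈ Ball p, nrm q α (m * β) ≤ nrm q (∫ x, h x ∂gam) (m * ∫ x, h x * x ∂gam)

/-! ### the two inequalities -/

/-- hint: integration by parts, or the formula with `Real.Gamma` -/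
def TaskIBP : Prop := ∀ r : ℝ, 2 ≤ r → ∫ x, |x| ^ r ∂gam = (r - 1) * ∫ x, |x| ^ (r - 2) ∂gam

/-- hint: `E|x|^r = (r-1) E|x|^(r-2) ≤ (r-1) (E|x|^r)^((r-2)/r)` (Jensen or Hölder) -/
def TaskMom : Prop := TaskIBP → TaskInt → ∀ r : ℝ, 2 ≤ r → nrm r 0 1 ^ 2 ≤ r - 1

/-- hint: strict Jensen (`|x|` is not constant a.e.) -/
def TaskMomStrict : Prop := TaskIBP → TaskInt → ∀ r : ℝ, 2 < r → nrm r 0 1 ^ 2 < r - 1

/-- hint: Taylor for `|x| ≤ δ`, everything bounded by `C x ^ 4` otherwise -/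
def TaskPtLow : Prop := ∀ q η : ℝ, 2 ≤ q → 0 < η → ∃ C : ℝ, 0 ≤ C ∧ ∀ x : ℝ,
  1 + q * x + (q * (q - 1) / 2 - η) * x ^ 2 - C * x ^ 4 ≤ |1 + x| ^ q

/-- hint: as before -/
def TaskPtUp : Prop := ∀ p η : ℝ, 1 < p → p ≤ 2 → 0 < η → ∃ C : ℝ, 0 ≤ C ∧ ∀ x : ℝ,
  |1 + x| ^ p ≤ 1 + p * x + (p * (p - 1) / 2 + η) * x ^ 2 + C * x ^ 4

/-- hint: integrate the pointwise bounds -/
def TaskExpLow : Prop := TaskPtLow → TaskInt → ∀ q η : ℝ, 2 ≤ q → 0 < η → ∃ C : ℝ, 0 ≤ C ∧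
  ∀ s : ℝ, 1 + (q * (q - 1) / 2 - η) * s ^ 2 - C * s ^ 4 ≤ ∫ x, |1 + s * x| ^ q ∂gam

/-- hint: integrate the pointwise bounds -/
def TaskExpUp : Prop := TaskPtUp → TaskInt → ∀ p η : ℝ, 1 < p → p ≤ 2 → 0 < η → ∃ C : ℝ, 0 ≤ C ∧
  ∀ s : ℝ, ∫ x, |1 + s * x| ^ p ∂gam ≤ 1 + (p * (p - 1) / 2 + η) * s ^ 2 + C * s ^ 4

/-- hint: pure calculus: `L s = 1 + A s² - C s⁴`, `U s = 1 + B s² + D s⁴` with `A / q > B / p`:
`U^(1/p) < L^(1/q)` for small `s > 0` -/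
def TaskCalc : Prop := ∀ p q A B C D : ℝ, 1 < p → 1 < q → 0 < B → B / p < A / q → 0 ≤ C → 0 ≤ D →
  ∃ s : ℝ, 0 < s ∧ 0 < 1 + A * s ^ 2 - C * s ^ 4 ∧
    (1 + B * s ^ 2 + D * s ^ 4) ^ (1 / p) < (1 + A * s ^ 2 - C * s ^ 4) ^ (1 / q)

/-- hint: combine -/
def TaskTest : Prop := TaskExpLow → TaskExpUp → TaskCalc → TaskInt → TaskPtLow → TaskPtUp →
  ∀ p q m : ℝ, 1 < p → p ≤ 2 → 2 ≤ q → 0 < m → p - 1 < (q - 1) * m ^ 2 →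
  ∃ s : ℝ, 0 < s ∧ nrm p 1 s < nrm q 1 (m * s)

/-- hint: `(1 + s x) / nrm p 1 s` -/
def TaskBig : Prop := TaskTest → TaskExpLow → TaskExpUp → TaskCalc → TaskInt → TaskPtLow →
  TaskPtUp → ∀ p q m : ℝ, 1 < p → p ≤ 2 → 2 ≤ q → 0 < m → p - 1 < (q - 1) * m ^ 2 →
  ∃ h ∈ Ball p, 1 < nrm q (∫ x, h x ∂gam) (m * ∫ x, h x * x ∂gam)

/-! ### norm functions -/

/-- the properties of `nrm` that are used; `c = nrm r 0 1` -/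
structure NF (Q : ℝ → ℝ → ℝ) (c : ℝ) : Prop where
  lip : ∀ a b a' b', Q a b ≤ Q a' b' + |a - a'| + |b - b'| * c
  mono : ∀ a b b', 0 ≤ b → b < b' → Q a b < Q a b'
  one : ∀ a, Q a 0 = |a|
  zero : ∀ b, Q 0 b = |b| * c
  cpos : 0 < c
  even : ∀ a b, Q a (-b) = Q a b

/-- hint: Minkowski in `L_r(gam)` -/
def TaskLip : Prop := TaskInt → ∀ r : ℝ, 1 < r → ∀ a b a' b',
  nrm r a b ≤ nrm r a' b' + |a - a'| + |b - b'| * nrm r 0 1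

/-- hint: `b = λ b' + (1-λ)(-b')`, strict convexity of `|.|^r`, symmetry of the Gaussian -/
def TaskMono : Prop := TaskInt → ∀ r : ℝ, 1 < r → ∀ a b b', 0 ≤ b → b < b' →
  nrm r a b < nrm r a b'

/-- hint: easy computations; symmetry of the Gaussian for the last -/
def TaskVal : Prop := TaskInt → ∀ r : ℝ, 1 < r → (∀ a, nrm r a 0 = |a|) ∧
  (∀ b, nrm r 0 b = |b| * nrm r 0 1) ∧ 0 < nrm r 0 1 ∧ ∀ a b, nrm r a (-b) = nrm r a b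

/-! ### the abstract operator -/

/-- The abstract situation. `H`: the pairs `(∫ h, ∫ h x)`, `h` in the unit ball. -/
structure Data (X Y : Type) [NormedAddCommGroup X] [NormedSpace ℝ X] [NormedAddCommGroup Y]
    [NormedSpace ℝ Y] (P Q : ℝ → ℝ → ℝ) (H : Set (ℝ × ℝ)) where
  α : X →L[ℝ] ℝ
  v : ℕ → X →L[ℝ] ℝ
  e : Y
  G : ℕ → Y
  normY : ∀ (a : ℝ) (F : Finset ℕ) (c : ℕ → ℝ),
    ‖a • e + ∑ n ∈ F, c n • G n‖ = Q a (√(∑ n ∈ F, c n ^ 2))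
  dual : ∀ (x : X) (a : ℝ) (F : Finset ℕ) (c : ℕ → ℝ),
    |a * α x + ∑ n ∈ F, c n * v n x| ≤ ‖x‖ * P a (√(∑ n ∈ F, c n ^ 2))
  real : ∀ z ∈ H, ∀ n, ∃ x : X, ‖x‖ ≤ 1 ∧ α x = z.1 ∧ v n x = z.2 ∧ ∀ k, k ≠ n → v k x = 0

/-- hint: `dual` with `a = 0`, `c n = v n x` -/
def TaskA1 : Prop := ∀ (X Y : Type) [NormedAddCommGroup X] [NormedSpace ℝ X]
    [NormedAddCommGroup Y] [NormedSpace ℝ Y] (P Q : ℝ → ℝ → ℝ) (H : Set (ℝ × ℝ)) (cP cQ : ℝ),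
  NF P cP → NF Q cQ → ∀ D : Data X Y P Q H, ∀ x : X,
    Summable (fun n => D.v n x ^ 2) ∧ ∑' n, D.v n x ^ 2 ≤ (cP * ‖x‖) ^ 2

/-- hint: `dual` with `c n = b v_n / √S_F` and `F → ∞` -/
def TaskA2 : Prop := TaskA1 → ∀ (X Y : Type) [NormedAddCommGroup X] [NormedSpace ℝ X]
    [NormedAddCommGroup Y] [NormedSpace ℝ Y] (P Q : ℝ → ℝ → ℝ) (H : Set (ℝ × ℝ)) (cP cQ : ℝ),
  NF P cP → NF Q cQ → ∀ D : Data X Y P Q H, ∀ x : X, ‖x‖ ≤ 1 → ∀ a b : ℝ,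
    a * D.α x + b * √(∑' n, D.v n x ^ 2) ≤ P a b

/-- hint: Cauchy criterion with `normY`; `T x = α x • e + ∑' n, (μ n * v n x) • G n` -/
def TaskA3 : Prop := TaskA1 → ∀ (X Y : Type) [NormedAddCommGroup X] [NormedSpace ℝ X]
    [NormedAddCommGroup Y] [NormedSpace ℝ Y] [CompleteSpace Y] (P Q : ℝ → ℝ → ℝ)
    (H : Set (ℝ × ℝ)) (cP cQ : ℝ),
  NF P cP → NF Q cQ → ∀ D : Data X Y P Q H, ∀ (μ : ℕ → ℝ) (m : ℝ), (∀ n, 0 < μ n ∧ μ n < m) →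
    ∃ T : X →L[ℝ] Y, ∀ x, ‖T x‖ = Q (D.α x) (√(∑' n, (μ n * D.v n x) ^ 2))

/-- hint: `(α x, √∑v²)` is in the polar; if `v = 0` then `‖T x‖ = |α x| ≤ 1 < M`, else
`√∑(μ v)² < m √∑v²` and `mono` -/
def TaskA4 : Prop := TaskA1 → TaskA2 → ∀ (X Y : Type) [NormedAddCommGroup X] [NormedSpace ℝ X]
    [NormedAddCommGroup Y] [NormedSpace ℝ Y] (P Q : ℝ → ℝ → ℝ) (H : Set (ℝ × ℝ)) (cP cQ : ℝ),
  NF P cP → NF Q cQ → ∀ D : Data X Y P Q H, ∀ (μ : ℕ → ℝ) (m M : ℝ), 0 < m →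
    (∀ n, 0 < μ n ∧ μ n < m) →
    (∀ α β : ℝ, (∀ a b : ℝ, a * α + b * β ≤ P a b) → ∃ z ∈ H, Q α (m * β) ≤ Q z.1 (m * z.2)) →
    (∀ z ∈ H, Q z.1 (m * z.2) ≤ M) → 1 < M → ∀ x : X, ‖x‖ ≤ 1 →
    Q (D.α x) (√(∑' n, (μ n * D.v n x) ^ 2)) < M

/-- hint: `real` for `z_j ∈ H` with `Q z.1 (m z.2) → M` and `n_j → ∞`; `z.1` does not tend to zero as
`Q z.1 (m z.2) ≤ |z.1| + m cQ |z.2|` and `|z.2| ≤ cP`, `m cQ cP ≤ 1 < M` -/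
def TaskA5 : Prop := ∀ (X Y : Type) [NormedAddCommGroup X] [NormedSpace ℝ X]
    [NormedAddCommGroup Y] [NormedSpace ℝ Y] (P Q : ℝ → ℝ → ℝ) (H : Set (ℝ × ℝ)) (cP cQ : ℝ),
  NF P cP → NF Q cQ → ∀ D : Data X Y P Q H, ∀ (μ : ℕ → ℝ) (m M : ℝ), 0 < m →
    (∀ n, 0 < μ n ∧ μ n < m) → Tendsto μ atTop (𝓝 m) → m * cQ * cP ≤ 1 → 1 < M →
    IsLUB {y : ℝ | ∃ z ∈ H, y = Q z.1 (m * z.2)} M →
    ∃ x : ℕ → X, (∀ j, ‖x j‖ ≤ 1) ∧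
      Tendsto (fun j => Q (D.α (x j)) (√(∑' n, (μ n * D.v n (x j)) ^ 2))) atTop (𝓝 M) ∧
      ∃ δ : ℝ, 0 < δ ∧ ∀ᶠ j in atTop, δ ≤ |D.α (x j)|

/-- The operator `T` does not attain its norm and has a maximizing sequence that is not weakly null. -/
def Bad {𝕜 X Y : Type} [RCLike 𝕜] [NormedAddCommGroup X] [NormedSpace 𝕜 X] [NormedAddCommGroup Y]
    [NormedSpace 𝕜 Y] (T : X →L[𝕜] Y) : Prop :=
  (∀ x : X, ‖x‖ = 1 → ‖T x‖ ≠ ‖T‖) ∧ ∃ x : ℕ → X, (∀ n, ‖x n‖ = 1) ∧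
    Tendsto (fun n => ‖T (x n)‖) atTop (𝓝 ‖T‖) ∧
    ¬ ∀ φ : X →L[𝕜] 𝕜, Tendsto (fun n => φ (x n)) atTop (𝓝 0)

/-- hint: normalise the sequence; `‖T‖ = M` by `opNorm_le_bound` -/
def TaskA6 : Prop := ∀ (X Y : Type) [NormedAddCommGroup X] [NormedSpace ℝ X]
    [NormedAddCommGroup Y] [NormedSpace ℝ Y] (T : X →L[ℝ] Y) (M : ℝ) (α : X →L[ℝ] ℝ), 1 < M →
    (∀ x : X, ‖x‖ ≤ 1 → ‖T x‖ < M) → ∀ x : ℕ → X, (∀ j, ‖x j‖ ≤ 1) →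
    Tendsto (fun j => ‖T (x j)‖) atTop (𝓝 M) →
    (∃ δ : ℝ, 0 < δ ∧ ∀ᶠ j in atTop, δ ≤ |α (x j)|) → Bad T

/-! ### the data for `L_p` -/

/-- hint: Hölder, `LinearMap.mkContinuous`, or `ContinuousLinearMap` from `Lp` pairing -/
def TaskFunc : Prop := ∀ p p' : ℝ, p.HolderConjugate p' → ∀ k : unitInterval → ℝ,
  MemLp k (ENNReal.ofReal p') (volume : Measure unitInterval) → ∀ [Fact (1 ≤ ENNReal.ofReal p)],
  ∃ φ : Lp ℝ (ENNReal.ofReal p) (volume : Measure unitInterval) →L[ℝ] ℝ, ∀ f, φ f = ∫ t, f t * k t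

/-- hint: Hölder: `|∫ f k| ≤ ‖f‖ (∫ |k|^p')^(1/p')` -/
def TaskFuncBd : Prop := ∀ p p' : ℝ, p.HolderConjugate p' → ∀ k : unitInterval → ℝ,
  MemLp k (ENNReal.ofReal p') (volume : Measure unitInterval) → ∀ [Fact (1 ≤ ENNReal.ofReal p)],
  ∀ f : Lp ℝ (ENNReal.ofReal p) (volume : Measure unitInterval),
    Integrable (fun t => f t * k t) (volume : Measure unitInterval) ∧
    |∫ t, f t * k t| ≤ ‖f‖ * (∫ t, |k t| ^ p') ^ (1 / p')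

/-- norms in `Lp` are given by integrals -/
def TaskNormLp : Prop := ∀ r : ℝ, 1 ≤ r → ∀ [Fact (1 ≤ ENNReal.ofReal r)],
  ∀ (k : unitInterval → ℝ) (hk : MemLp k (ENNReal.ofReal r) (volume : Measure unitInterval)),
    ‖hk.toLp k‖ = (∫ t, |k t| ^ r) ^ (1 / r)

/-! ### complexification -/

/-- the constant `∫ |cos θ|^p` over `[0, 2π]` -/
def cc (p : ℝ) : ℝ := ∫ θ in (0 : ℝ)..(2 * Real.pi), |Real.cos θ| ^ p

/-- hint: `w = |w| e^{iτ}`, periodicity -/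
def TaskC1 : Prop := ∀ p : ℝ, 1 ≤ p → 0 < cc p ∧ ∀ w : ℂ,
  ∫ θ in (0 : ℝ)..(2 * Real.pi), |(Complex.exp (θ * Complex.I) * w).re| ^ p = cc p * ‖w‖ ^ p

/-- hint: Fubini and `TaskC1` -/
def TaskC2 : Prop := TaskC1 → ∀ p : ℝ, 1 ≤ p → ∀ f : unitInterval → ℂ, Measurable f →
  MemLp f (ENNReal.ofReal p) (volume : Measure unitInterval) →
  ∫ θ in (0 : ℝ)..(2 * Real.pi), (∫ t, |(Complex.exp (θ * Complex.I) * f t).re| ^ p) =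
    cc p * ∫ t, ‖f t‖ ^ p

/-- hint: `∫ |w|^q = (1/c) ∫_θ ∫_t |w|^(q-p) |Re e^{iθ} w|^p ≤ (1/c) ∫_θ ‖w‖_q^(q-p) ‖Re e^{iθ} w‖_q^p`
(Fubini and Hölder in `t` with the exponents `q/(q-p)`, `q/p`) -/
def TaskC3 : Prop := TaskC1 → ∀ p q : ℝ, 1 < p → p ≤ q → ∀ w : unitInterval → ℂ, Measurable w →
  MemLp w (ENNReal.ofReal q) (volume : Measure unitInterval) →
  cc p * (∫ t, ‖w t‖ ^ q) ^ (p / q) ≤
    ∫ θ in (0 : ℝ)..(2 * Real.pi), (∫ t, |(Complex.exp (θ * Complex.I) * w t).re| ^ q) ^ (p / q)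

/-- hint: `T f = T (re f) + i T (im f)` -/
def TaskC4 : Prop := ∀ (p q : ℝ) [Fact (1 ≤ ENNReal.ofReal p)] [Fact (1 ≤ ENNReal.ofReal q)],
  ∀ T : Lp ℝ (ENNReal.ofReal p) (volume : Measure unitInterval) →L[ℝ]
    Lp ℝ (ENNReal.ofReal q) (volume : Measure unitInterval),
  ∃ S : Lp ℂ (ENNReal.ofReal p) (volume : Measure unitInterval) →L[ℂ]
    Lp ℂ (ENNReal.ofReal q) (volume : Measure unitInterval),
    ∀ f, ∀ (u : Lp ℝ (ENNReal.ofReal p) (volume : Measure unitInterval)),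
      ((fun t => (f t).re) =ᵐ[volume] u → (fun t => (S f t).re) =ᵐ[volume] T u)

/-- hint: `ContinuousLinearMap.compLp` with `Complex.ofRealCLM` -/
def TaskC5 : Prop := ∀ (p : ℝ) [Fact (1 ≤ ENNReal.ofReal p)],
  ∀ u : Lp ℝ (ENNReal.ofReal p) (volume : Measure unitInterval),
  ∃ f : Lp ℂ (ENNReal.ofReal p) (volume : Measure unitInterval), ‖f‖ = ‖u‖ ∧
    f =ᵐ[volume] fun t => ((u t : ℝ) : ℂ)

/-- hint: `ψ f = φ (re f) + i φ (im f)` (or `LinearMap.extendTo𝕜`, `Complex.reCLM.compLp`) -/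
def TaskC6 : Prop := ∀ (p : ℝ) [Fact (1 ≤ ENNReal.ofReal p)],
  ∀ φ : Lp ℝ (ENNReal.ofReal p) (volume : Measure unitInterval) →L[ℝ] ℝ,
  ∃ ψ : Lp ℂ (ENNReal.ofReal p) (volume : Measure unitInterval) →L[ℂ] ℂ,
    ∀ (u : Lp ℝ (ENNReal.ofReal p) (volume : Measure unitInterval))
      (f : Lp ℂ (ENNReal.ofReal p) (volume : Measure unitInterval)),
      (f =ᵐ[volume] fun t => ((u t : ℝ) : ℂ)) → ψ f = (φ u : ℂ)

/-- hint: for `θ` let `u_θ = re (e^{iθ} f)`; `re (e^{iθ} S f) = T u_θ`, so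
`cc ‖S f‖^p ≤ ∫_θ ‖T u_θ‖^p < ‖T‖^p ∫_θ ‖u_θ‖^p = ‖T‖^p cc ‖f‖^p` by `TaskC3`, `TaskC2`
(`θ ↦ u_θ` is continuous into `Lp`: `u_θ = cos θ u_0 + sin θ u_{π/2}`) -/
def TaskC7 : Prop := TaskC1 → TaskC2 → TaskC3 → ∀ (p q : ℝ) [Fact (1 ≤ ENNReal.ofReal p)]
    [Fact (1 ≤ ENNReal.ofReal q)], 1 < p → p ≤ q →
  ∀ T : Lp ℝ (ENNReal.ofReal p) (volume : Measure unitInterval) →L[ℝ]
    Lp ℝ (ENNReal.ofReal q) (volume : Measure unitInterval),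
  ∀ S : Lp ℂ (ENNReal.ofReal p) (volume : Measure unitInterval) →L[ℂ]
    Lp ℂ (ENNReal.ofReal q) (volume : Measure unitInterval),
    (∀ f, ∀ (u : Lp ℝ (ENNReal.ofReal p) (volume : Measure unitInterval)),
      ((fun t => (f t).re) =ᵐ[volume] u → (fun t => (S f t).re) =ᵐ[volume] T u)) →
    (∀ u, u ≠ 0 → ‖T u‖ < ‖T‖ * ‖u‖) → ∀ f, f ≠ 0 → ‖S f‖ < ‖T‖ * ‖f‖

/-! ### pieces of the data -/

/-- hint: `e = 1`, `G n = g n` (`MemLp.toLp`) -/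
def TaskD1 : Prop := TaskLaw → TaskInt → TaskSumNorm → TaskNormLp →
  ∀ g : ℕ → unitInterval → ℝ, IsG g → ∀ r : ℝ, 1 < r → ∀ [Fact (1 ≤ ENNReal.ofReal r)],
  ∃ (e : Lp ℝ (ENNReal.ofReal r) (volume : Measure unitInterval))
    (G : ℕ → Lp ℝ (ENNReal.ofReal r) (volume : Measure unitInterval)),
    ∀ (a : ℝ) (F : Finset ℕ) (c : ℕ → ℝ),
      ‖a • e + ∑ n ∈ F, c n • G n‖ = nrm r a (√(∑ n ∈ F, c n ^ 2))

/-- hint: the functionals of `TaskFunc` for `1` and `g n` -/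
def TaskD2 : Prop := TaskLaw → TaskInt → TaskSumNorm → TaskFunc → TaskFuncBd →
  ∀ g : ℕ → unitInterval → ℝ, IsG g → ∀ p p' : ℝ, p.HolderConjugate p' →
  ∀ [Fact (1 ≤ ENNReal.ofReal p)],
  ∃ (α : Lp ℝ (ENNReal.ofReal p) (volume : Measure unitInterval) →L[ℝ] ℝ)
    (v : ℕ → Lp ℝ (ENNReal.ofReal p) (volume : Measure unitInterval) →L[ℝ] ℝ),
    (∀ f, α f = ∫ t, f t) ∧ (∀ n f, v n f = ∫ t, f t * g n t) ∧
    ∀ f (a : ℝ) (F : Finset ℕ) (c : ℕ → ℝ),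
      |a * α f + ∑ n ∈ F, c n * v n f| ≤ ‖f‖ * nrm p' a (√(∑ n ∈ F, c n ^ 2))

/-- hint: `f = h ∘ g n` -/
def TaskD3 : Prop := TaskComp → TaskNormLp → ∀ g : ℕ → unitInterval → ℝ, IsG g →
  ∀ p : ℝ, 1 < p → ∀ [Fact (1 ≤ ENNReal.ofReal p)], ∀ h ∈ Ball p, ∀ n : ℕ,
  ∃ f : Lp ℝ (ENNReal.ofReal p) (volume : Measure unitInterval), ‖f‖ ≤ 1 ∧
    ∫ t, f t = ∫ x, h x ∂gam ∧ ∫ t, f t * g n t = ∫ x, h x * x ∂gam ∧
    ∀ k, k ≠ n → ∫ t, f t * g k t = 0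

/-- hint: `nrm q 0 1 ^ 2 ≤ q - 1`, `nrm p' 0 1 ^ 2 ≤ p' - 1`, one of them strict,
`(p - 1)(p' - 1) = 1` -/
def TaskM : Prop := TaskMom → TaskMomStrict → TaskIBP → TaskInt → TaskVal → ∀ p p' q : ℝ,
  p.HolderConjugate p' → p ≤ 2 → 2 ≤ q → ¬ (p = 2 ∧ q = 2) →
  ∃ m : ℝ, 0 < m ∧ p - 1 < (q - 1) * m ^ 2 ∧ m * nrm q 0 1 * nrm p' 0 1 ≤ 1

end

end Pool.Agent.Q198.WM
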