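import Pool.Agent.Q198.WM.Stmts

set_option autoImplicit false

namespace Pool.Agent.Q198.WM.TaskA1

open Finset

theorem main : Pool.Agent.Q198.WM.TaskA1 := by
  intro X Y _ _ _ _ P Q H cP cQ hP hQ D x
  have key : ∀ F : Finset ℕ, ∑ n ∈ F, D.v n x ^ 2 ≤ (cP * ‖x‖) ^ 2 := by
    intro F
    have h1 := D.dual x 0 F (fun n => D.v n x)
    rw [zero_mul, zero_add, hP.zero] at h1
    set S := ∑ n ∈ F, D.v n x ^ 2 with hS
    have hS0 : 0 ≤ S := Finset.sum_nonneg fun n _ => sq_nonneg _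
    have h2 : ∑ n ∈ F, D.v n x * D.v n x = S := Finset.sum_congr rfl fun n _ => (sq _).symm
    rw [h2, abs_of_nonneg hS0, abs_of_nonneg (Real.sqrt_nonneg S)] at h1
    have h3 : √S * √S = S := Real.mul_self_sqrt hS0
    have h4 : √S ≤ cP * ‖x‖ := by
      rcases eq_or_lt_of_le (Real.sqrt_nonneg S) with h | h
      · rw [← h]
        exact mul_nonneg hP.cpos.le (norm_nonneg x)
      · by_contra hc
        push Not at hc
        nlinarith
    calc S = √S * √S := h3.symm
      _ ≤ (cP * ‖x‖) * (cP * ‖x‖) :=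
        mul_le_mul h4 h4 (Real.sqrt_nonneg S) (mul_nonneg hP.cpos.le (norm_nonneg x))
      _ = (cP * ‖x‖) ^ 2 := by ring
  have hsum : Summable (fun n => D.v n x ^ 2) := summable_of_sum_le (fun n => sq_nonneg _) key
  exact ⟨hsum, hsum.tsum_le_of_sum_le key⟩

end Pool.Agent.Q198.WM.TaskA1
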