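import Mathlib
import Pool.Agent.Q198.WM.Stmts

namespace Pool.Agent.Q198.WM.TaskA2

open Finset Filter Topology Pool.Agent.Q198.WM

theorem main : Pool.Agent.Q198.WM.TaskA2 := by
  intro hA1 X Y _ _ _ _ P Q H cP cQ hP hQ D x hx a b
  have hPabs : P a |b| = P a b := by
    rcases abs_cases b with ⟨h, _⟩ | ⟨h, _⟩
    · rw [h]
    · rw [h, hP.even]
  have hP0 : P a 0 ≤ P a b := by
    rw [← hPabs]
    rcases (abs_nonneg b).eq_or_lt with h | h
    · rw [← h]
    · exact (hP.mono a 0 |b| le_rfl h).le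
  have hP1 : 0 ≤ P a 0 := by rw [hP.one]; exact abs_nonneg a
  have hPb : 0 ≤ P a b := hP1.trans hP0
  have hsum := (hA1 X Y P Q H cP cQ hP hQ D x).1
  have key : ∀ F : Finset ℕ, a * D.α x + b * √(∑ n ∈ F, D.v n x ^ 2) ≤ P a b := by
    intro F
    set S := ∑ n ∈ F, D.v n x ^ 2 with hS
    have hS0 : 0 ≤ S := sum_nonneg fun n _ => sq_nonneg _
    rcases hS0.eq_or_lt with h | h
    · have := D.dual x a F (fun _ => 0)
      simp only [zero_mul, sum_const_zero, add_zero, ne_eq, OfNat.ofNat_ne_zero, not_false_eq_true,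
        zero_pow, Real.sqrt_zero] at this
      rw [← h, Real.sqrt_zero, mul_zero, add_zero]
      have h2 : ‖x‖ * P a 0 ≤ 1 * P a 0 := mul_le_mul_of_nonneg_right hx hP1
      linarith [le_abs_self (a * D.α x)]
    · have hsq : 0 < √S := Real.sqrt_pos.2 h
      have h1 := D.dual x a F (fun n => b * D.v n x / √S)
      have e1 : ∑ n ∈ F, b * D.v n x / √S * D.v n x = b * √S := by
        have : ∀ n ∈ F, b * D.v n x / √S * D.v n x = b / √S * D.v n x ^ 2 := by
          intro n _
          ring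
        rw [sum_congr rfl this, ← mul_sum, ← hS]
        have h3 : S = √S * √S := (Real.mul_self_sqrt hS0).symm
        field_simp
        rw [sq, ← h3]
      have e2 : ∑ n ∈ F, (b * D.v n x / √S) ^ 2 = b ^ 2 := by
        have : ∀ n ∈ F, (b * D.v n x / √S) ^ 2 = b ^ 2 / S * D.v n x ^ 2 := by
          intro n _
          rw [div_pow, Real.sq_sqrt hS0]
          ring
        rw [sum_congr rfl this, ← mul_sum, ← hS]
        field_simp
      rw [e1, e2, Real.sqrt_sq_eq_abs, hPabs] at h1
      have h2 : ‖x‖ * P a b ≤ 1 * P a b := mul_le_mul_of_nonneg_right hx hPb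
      linarith [le_abs_self (a * D.α x + b * √S)]
  have lim : Tendsto (fun F : Finset ℕ => a * D.α x + b * √(∑ n ∈ F, D.v n x ^ 2)) atTop
      (𝓝 (a * D.α x + b * √(∑' n, D.v n x ^ 2))) :=
    ((((Real.continuous_sqrt.tendsto _).comp hsum.hasSum).const_mul b).const_add _)
  exact le_of_tendsto lim (Eventually.of_forall key)

end Pool.Agent.Q198.WM.TaskA2
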