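import Pool.Agent.Q198.WM.Stmts

namespace Pool.Agent.Q198.WM.TaskA3

open MeasureTheory ProbabilityTheory Finset Filter Topology Pool.Agent.Q198.WM

theorem main : Pool.Agent.Q198.WM.TaskA3 := by
  intro hA1 X Y _ _ _ _ _ P Q H cP cQ hP hQ D μ m hμ
  have hm : 0 < m := (hμ 0).1.trans (hμ 0).2
  have hcP := hP.cpos
  have hc := hQ.cpos
  have hs1 : ∀ x, Summable fun n => D.v n x ^ 2 := fun x => (hA1 X Y P Q H cP cQ hP hQ D x).1
  have hs2 : ∀ x, ∑' n, D.v n x ^ 2 ≤ (cP * ‖x‖) ^ 2 := fun x =>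
    (hA1 X Y P Q H cP cQ hP hQ D x).2
  have hle : ∀ x n, (μ n * D.v n x) ^ 2 ≤ m ^ 2 * D.v n x ^ 2 := by
    intro x n
    rw [mul_pow]
    exact mul_le_mul_of_nonneg_right (pow_le_pow_left₀ (hμ n).1.le (hμ n).2.le 2) (sq_nonneg _)
  have hs3 : ∀ x, Summable fun n => (μ n * D.v n x) ^ 2 := fun x =>
    Summable.of_nonneg_of_le (fun n => sq_nonneg _) (hle x) ((hs1 x).mul_left (m ^ 2))
  have hs4 : ∀ x, √(∑' n, (μ n * D.v n x) ^ 2) ≤ m * (cP * ‖x‖) := by
    intro x
    refine Real.sqrt_le_iff.mpr ⟨by positivity, ?_⟩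
    calc _ ≤ ∑' n, m ^ 2 * D.v n x ^ 2 :=
          Summable.tsum_le_tsum (hle x) (hs3 x) ((hs1 x).mul_left _)
      _ = m ^ 2 * ∑' n, D.v n x ^ 2 := tsum_mul_left
      _ ≤ m ^ 2 * (cP * ‖x‖) ^ 2 := mul_le_mul_of_nonneg_left (hs2 x) (sq_nonneg _)
      _ = (m * (cP * ‖x‖)) ^ 2 := by ring
  have hn : ∀ (x : X) (F : Finset ℕ), ‖∑ n ∈ F, (μ n * D.v n x) • D.G n‖ =
      √(∑ n ∈ F, (μ n * D.v n x) ^ 2) * cQ := by
    intro x F
    have h := D.normY 0 F (fun n => μ n * D.v n x)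
    rw [zero_smul, zero_add, hQ.zero, abs_of_nonneg (Real.sqrt_nonneg _)] at h
    exact h
  have hsum : ∀ x, Summable fun n => (μ n * D.v n x) • D.G n := by
    intro x
    rw [summable_iff_vanishing_norm]
    intro ε hε
    obtain ⟨s, hs⟩ := summable_iff_vanishing_norm.mp (hs3 x) ((ε / cQ) ^ 2) (by positivity)
    refine ⟨s, fun t ht => ?_⟩
    rw [hn]
    have h1 := hs t ht
    rw [Real.norm_of_nonneg (Finset.sum_nonneg fun _ _ => sq_nonneg _)] at h1
    have h2 : √(∑ n ∈ t, (μ n * D.v n x) ^ 2) < ε / cQ := (Real.sqrt_lt' (by positivity)).mpr h1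
    calc _ < ε / cQ * cQ := mul_lt_mul_of_pos_right h2 hc
      _ = ε := by field_simp
  let L : X →ₗ[ℝ] Y :=
    { toFun := fun x => D.α x • D.e + ∑' n, (μ n * D.v n x) • D.G n
      map_add' := by
        intro x y
        have h : (fun n => (μ n * D.v n (x + y)) • D.G n) =
            fun n => (μ n * D.v n x) • D.G n + (μ n * D.v n y) • D.G n := by
          funext n
          rw [map_add, mul_add, add_smul]
        rw [h, (hsum x).tsum_add (hsum y), map_add, add_smul]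
        abel
      map_smul' := by
        intro r x
        have h : (fun n => (μ n * D.v n (r • x)) • D.G n) =
            fun n => r • ((μ n * D.v n x) • D.G n) := by
          funext n
          rw [map_smul, smul_smul, smul_eq_mul]
          congr 1
          ring
        rw [h, (hsum x).tsum_const_smul r, map_smul, smul_eq_mul, mul_smul, RingHom.id_apply,
          smul_add] }
  have hcont : ∀ a, Continuous fun b => Q a b := by
    intro a
    have h : ∀ b b', Q a b - Q a b' ≤ cQ * |b - b'| := by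
      intro b b'
      have := hQ.lip a b a b'
      rw [sub_self, abs_zero] at this
      linarith
    refine (LipschitzWith.of_dist_le_mul (K := ⟨cQ, hc.le⟩) fun b b' => ?_).continuous
    rw [Real.dist_eq, Real.dist_eq]
    refine abs_sub_le_iff.mpr ⟨h b b', ?_⟩
    have := h b' b
    rw [abs_sub_comm] at this
    exact this
  have hT : ∀ x, ‖L x‖ = Q (D.α x) (√(∑' n, (μ n * D.v n x) ^ 2)) := by
    intro x
    have t1 : Tendsto (fun F : Finset ℕ => ‖D.α x • D.e + ∑ n ∈ F, (μ n * D.v n x) • D.G n‖) atTop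
        (𝓝 ‖L x‖) := (tendsto_const_nhds.add (hsum x).hasSum).norm
    have t2 : Tendsto (fun F : Finset ℕ => Q (D.α x) (√(∑ n ∈ F, (μ n * D.v n x) ^ 2))) atTop
        (𝓝 (Q (D.α x) (√(∑' n, (μ n * D.v n x) ^ 2)))) :=
      ((hcont (D.α x)).tendsto _).comp ((Real.continuous_sqrt.tendsto _).comp (hs3 x).hasSum)
    refine tendsto_nhds_unique t1 ?_
    convert t2 using 2 with F
    exact D.normY (D.α x) F (fun n => μ n * D.v n x)
  refine ⟨L.mkContinuous (‖D.α‖ + m * cP * cQ) fun x => ?_, fun x => hT x⟩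
  rw [hT]
  have h := hQ.lip (D.α x) (√(∑' n, (μ n * D.v n x) ^ 2)) (D.α x) 0
  rw [sub_self, abs_zero, sub_zero, hQ.one, abs_of_nonneg (Real.sqrt_nonneg _)] at h
  have h1 : |D.α x| ≤ ‖D.α‖ * ‖x‖ := by
    rw [← Real.norm_eq_abs]
    exact D.α.le_opNorm x
  have h2 : √(∑' n, (μ n * D.v n x) ^ 2) * cQ ≤ m * (cP * ‖x‖) * cQ :=
    mul_le_mul_of_nonneg_right (hs4 x) hc.le
  nlinarith

end Pool.Agent.Q198.WM.TaskA3
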