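import Pool.Agent.Q198.WM.Stmts

namespace Pool.Agent.Q198.WM.TaskA4

open Pool.Agent.Q198.WM Finset Filter Topology

theorem main : Pool.Agent.Q198.WM.TaskA4 := by
  intro h1 h2 X Y _ _ _ _ P Q H cP cQ hP hQ D μ m M hm hμ hpol hM h1M x hx
  obtain ⟨hs, _⟩ := h1 X Y P Q H cP cQ hP hQ D x
  have hp := h2 h1 X Y P Q H cP cQ hP hQ D x hx
  obtain ⟨z, hz, hzQ⟩ := hpol (D.α x) (√(∑' n, D.v n x ^ 2)) hp
  have hzM := hzQ.trans (hM z hz)
  by_cases h0 : ∀ n, D.v n x = 0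
  · have e1 : (∑' n, (μ n * D.v n x) ^ 2) = 0 := by
      have : ∀ n, (μ n * D.v n x) ^ 2 = 0 := fun n => by rw [h0 n]; ring
      rw [tsum_congr this, tsum_zero]
    rw [e1, Real.sqrt_zero, hQ.one]
    have a1 := hp 1 0
    have a2 := hp (-1) 0
    rw [hP.one] at a1 a2
    simp only [abs_neg, abs_one, zero_mul, add_zero] at a1 a2
    have : |D.α x| ≤ 1 := abs_le.mpr ⟨by linarith, by linarith⟩
    linarith
  · push Not at h0
    obtain ⟨n0, hn0⟩ := h0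
    have hle : ∀ n, (μ n * D.v n x) ^ 2 ≤ m ^ 2 * D.v n x ^ 2 := by
      intro n
      rw [mul_pow]
      refine mul_le_mul_of_nonneg_right ?_ (sq_nonneg _)
      exact pow_le_pow_left₀ (hμ n).1.le (hμ n).2.le 2
    have hlt : (μ n0 * D.v n0 x) ^ 2 < m ^ 2 * D.v n0 x ^ 2 := by
      rw [mul_pow]
      refine mul_lt_mul_of_pos_right ?_ (by positivity)
      exact pow_lt_pow_left₀ (hμ n0).2 (hμ n0).1.le (by norm_num)
    have hg : Summable fun n => m ^ 2 * D.v n x ^ 2 := hs.mul_left _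
    have hf : Summable fun n => (μ n * D.v n x) ^ 2 :=
      Summable.of_nonneg_of_le (fun n => sq_nonneg _) hle hg
    have hlt2 : (∑' n, (μ n * D.v n x) ^ 2) < m ^ 2 * ∑' n, D.v n x ^ 2 := by
      rw [← tsum_mul_left]
      exact hf.tsum_lt_tsum hle hlt hg
    have hsq : √(∑' n, (μ n * D.v n x) ^ 2) < m * √(∑' n, D.v n x ^ 2) := by
      have e2 : m * √(∑' n, D.v n x ^ 2) = √(m ^ 2 * ∑' n, D.v n x ^ 2) := by
        rw [Real.sqrt_mul (sq_nonneg m), Real.sqrt_sq hm.le]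
      rw [e2]
      exact Real.sqrt_lt_sqrt (tsum_nonneg fun n => sq_nonneg _) hlt2
    exact lt_of_lt_of_le (hQ.mono _ _ _ (Real.sqrt_nonneg _) hsq) hzM

end Pool.Agent.Q198.WM.TaskA4
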