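import Pool.Agent.Q198.WM.Stmts

/-! Proof of `TaskA5` (helper95). -/

namespace Pool.Agent.Q198.WM.TaskA5

open Pool.Agent.Q198.WM Finset Filter Topology

theorem main : Pool.Agent.Q198.WM.TaskA5 := by
  intro X Y _ _ _ _ P Q H cP cQ hP hQ D μ m M hm hμ hμt hmc h1M hlub
  obtain ⟨u, -, -, hut, hu⟩ := hlub.exists_seq_monotone_tendsto hlub.nonempty
  choose z hz huz using hu
  choose x hx1 hxa hxv hxk using fun j => D.real (z j) (hz j) j
  have hz2 : ∀ j, |(z j).2| ≤ cP := by
    intro j
    have h := D.dual (x j) 0 {j} (fun _ => 1)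
    simp only [zero_mul, zero_add, Finset.sum_singleton, one_mul, one_pow, Real.sqrt_one] at h
    rw [hxv, hP.zero, abs_one, one_mul] at h
    refine h.trans ?_
    calc ‖x j‖ * cP ≤ 1 * cP := mul_le_mul_of_nonneg_right (hx1 j) hP.cpos.le
      _ = cP := one_mul _
  have hev : ∀ a b, Q a |b| = Q a b := by
    intro a b
    rcases abs_choice b with h | h <;> rw [h]
    exact hQ.even a b
  have hval : ∀ j, Q (D.α (x j)) (√(∑' n, (μ n * D.v n (x j)) ^ 2)) =
      Q (z j).1 (μ j * (z j).2) := by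
    intro j
    rw [tsum_eq_single j (fun k hk => by rw [hxk j k hk]; ring), hxv, hxa, Real.sqrt_sq_eq_abs, hev]
  refine ⟨x, hx1, ?_, (M - 1) / 2, by linarith, ?_⟩
  · simp only [hval]
    have hdiff : ∀ j, |Q (z j).1 (μ j * (z j).2) - u j| ≤ |μ j - m| * (cP * cQ) := by
      intro j
      rw [huz j]
      have e1 := hQ.lip (z j).1 (μ j * (z j).2) (z j).1 (m * (z j).2)
      have e2 := hQ.lip (z j).1 (m * (z j).2) (z j).1 (μ j * (z j).2)
      rw [sub_self, abs_zero, add_zero] at e1 e2
      have e3 : |μ j * (z j).2 - m * (z j).2| = |μ j - m| * |(z j).2| := by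
        rw [← sub_mul, abs_mul]
      have e4 : |m * (z j).2 - μ j * (z j).2| = |μ j - m| * |(z j).2| := by
        rw [← sub_mul, abs_mul, abs_sub_comm m]
      rw [e3] at e1
      rw [e4] at e2
      have e5 : |μ j - m| * |(z j).2| * cQ ≤ |μ j - m| * (cP * cQ) := by
        rw [mul_assoc]
        exact mul_le_mul_of_nonneg_left (mul_le_mul_of_nonneg_right (hz2 j) hQ.cpos.le)
          (abs_nonneg _)
      rw [abs_le]
      constructor <;> linarith
    have h0 : Tendsto (fun j => |μ j - m| * (cP * cQ)) atTop (𝓝 0) := by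
      have h1 : Tendsto (fun j => μ j - m) atTop (𝓝 (m - m)) := hμt.sub tendsto_const_nhds
      rw [sub_self] at h1
      have h2 := h1.abs.mul_const (cP * cQ)
      rwa [abs_zero, zero_mul] at h2
    have h3 : Tendsto (fun j => Q (z j).1 (μ j * (z j).2) - u j) atTop (𝓝 0) := by
      rw [tendsto_zero_iff_abs_tendsto_zero]
      exact squeeze_zero (fun j => abs_nonneg _) hdiff h0
    have h4 := h3.add hut
    simpa using h4
  · have hev2 : ∀ᶠ j in atTop, (1 + M) / 2 < u j := hut.eventually (lt_mem_nhds (by linarith))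
    filter_upwards [hev2] with j hj
    rw [hxa]
    have e1 := hQ.lip (z j).1 (m * (z j).2) 0 (m * (z j).2)
    rw [sub_self, abs_zero, zero_mul, add_zero, sub_zero, hQ.zero, ← huz j, abs_mul,
      abs_of_pos hm] at e1
    have e2 : m * |(z j).2| * cQ ≤ m * cQ * cP := by
      have := mul_le_mul_of_nonneg_left (hz2 j) (mul_pos hm hQ.cpos).le
      nlinarith
    linarith

end Pool.Agent.Q198.WM.TaskA5
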