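import Pool.Agent.Q198.WM.Stmts

namespace Pool.Agent.Q198.WM.TaskA6

open MeasureTheory ProbabilityTheory Finset Filter Topology

theorem main : Pool.Agent.Q198.WM.TaskA6 := by
  intro X Y _ _ _ _ T M α hM hT x hx hlim hδ
  have hM0 : (0 : ℝ) < M := by linarith
  have hnorm : ∀ y : X, y ≠ 0 → ‖(‖y‖⁻¹ • y : X)‖ = 1 := by
    intro y hy
    rw [norm_smul, norm_inv, norm_norm, inv_mul_cancel₀ (norm_ne_zero_iff.2 hy)]
  have hTn : ‖T‖ = M := by
    refine le_antisymm (T.opNorm_le_bound hM0.le fun y => ?_) ?_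
    · by_cases hy : y = 0
      · simp [hy]
      · have h1 := hT (‖y‖⁻¹ • y) (hnorm y hy).le
        have h2 : 0 < ‖y‖ := norm_pos_iff.2 hy
        rw [map_smul, norm_smul, norm_inv, norm_norm, inv_mul_lt_iff₀ h2] at h1
        linarith
    · refine le_of_tendsto hlim (Eventually.of_forall fun j => ?_)
      calc ‖T (x j)‖ ≤ ‖T‖ * ‖x j‖ := T.le_opNorm _
        _ ≤ ‖T‖ * 1 := by gcongr; exact hx j
        _ = ‖T‖ := mul_one _
  refine ⟨fun y hy => ?_, ?_⟩
  · rw [hTn]
    exact (hT y hy.le).ne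
  · have hev : ∀ᶠ j in atTop, 0 < ‖T (x j)‖ := hlim.eventually (lt_mem_nhds hM0)
    obtain ⟨N, hN⟩ := eventually_atTop.1 hev
    have hx0 : ∀ j, x (j + N) ≠ 0 := by
      intro j h
      have := hN (j + N) (by omega)
      rw [h] at this
      simp at this
    have hinv : ∀ j, 1 ≤ ‖x (j + N)‖⁻¹ := by
      intro j
      exact (one_le_inv₀ (norm_pos_iff.2 (hx0 j))).2 (hx _)
    refine ⟨fun j => ‖x (j + N)‖⁻¹ • x (j + N), fun j => hnorm _ (hx0 j), ?_, ?_⟩
    · rw [hTn]
      have h1 : Tendsto (fun j => ‖T (x (j + N))‖) atTop (𝓝 M) :=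
        hlim.comp (tendsto_add_atTop_nat N)
      refine tendsto_of_tendsto_of_tendsto_of_le_of_le h1 tendsto_const_nhds
        (fun j => ?_) (fun j => ?_)
      · show ‖T (x (j + N))‖ ≤ ‖T (‖x (j + N)‖⁻¹ • x (j + N))‖
        rw [map_smul, norm_smul, norm_inv, norm_norm]
        exact le_mul_of_one_le_left (norm_nonneg _) (hinv j)
      · exact (hT _ (hnorm _ (hx0 j)).le).le
    · intro hw
      obtain ⟨δ, hδ0, hδ1⟩ := hδ
      have h1 := hw α
      have h2 : ∀ᶠ j in atTop, δ ≤ |α (x (j + N))| := (tendsto_add_atTop_nat N).eventually hδ1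
      have h3 : Tendsto (fun j => |α (‖x (j + N)‖⁻¹ • x (j + N))|) atTop (𝓝 0) := by
        have := h1.abs
        rwa [abs_zero] at this
      have h4 : δ ≤ 0 := by
        refine ge_of_tendsto h3 ?_
        filter_upwards [h2] with j hj
        rw [map_smul, smul_eq_mul, abs_mul]
        have h5 : 1 ≤ |‖x (j + N)‖⁻¹| := (hinv j).trans (le_abs_self _)
        calc δ ≤ |α (x (j + N))| := hj
          _ ≤ |‖x (j + N)‖⁻¹| * |α (x (j + N))| := le_mul_of_one_le_left (abs_nonneg _) h5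
      linarith

end Pool.Agent.Q198.WM.TaskA6
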