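import Pool.Agent.Q198.WM.Stmts

namespace Pool.Agent.Q198.WM.TaskBig

open MeasureTheory ProbabilityTheory Finset Filter Topology

noncomputable section

instance instProb : IsProbabilityMeasure gam := by
  unfold gam
  infer_instance

lemma int_id : Integrable (fun x : ℝ => x) gam := by
  have h := memLp_id_gaussianReal' (μ := 0) (v := 1) 1 (by simp)
  exact memLp_one_iff_integrable.1 h

lemma int_sq : Integrable (fun x : ℝ => x * x) gam := by
  have h := memLp_id_gaussianReal' (μ := 0) (v := 1) 2 (by simp)
  have h2 := h.integrable_sq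
  simpa [pow_two, gam] using h2

lemma mean : ∫ x, x ∂gam = 0 := by
  unfold gam
  exact integral_id_gaussianReal

lemma second : ∫ x, x * x ∂gam = 1 := by
  have h := variance_fun_id_gaussianReal (μ := 0) (v := 1)
  have hm : AEMeasurable (fun x : ℝ => x) (gaussianReal 0 1) := measurable_id.aemeasurable
  rw [variance_of_integral_eq_zero hm integral_id_gaussianReal] at h
  have h2 : ∫ x, x * x ∂gam = ∫ x, x ^ 2 ∂(gaussianReal 0 1) := by
    unfold gam
    refine integral_congr_ae (Filter.Eventually.of_forall fun x => ?_)
    simp [pow_two]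
  rw [h2]
  simpa using h

theorem main : Pool.Agent.Q198.WM.TaskBig := by
  intro hTest hEL hEU hCalc hInt hPL hPU p q m hp hp2 hq hm hpq
  obtain ⟨s, hs, hlt⟩ := hTest hEL hEU hCalc hInt hPL hPU p q m hp hp2 hq hm hpq
  have hp0 : 0 < p := by linarith
  have hq0 : 0 < q := by linarith
  have hint := hInt p 1 s hp0.le
  set I : ℝ := ∫ x, |1 + s * x| ^ p ∂gam with hI
  have hIpos : 0 < I := by
    rw [hI, integral_pos_iff_support_of_nonneg (fun x => by positivity) hint]
    have hsub : ({-1 / s} : Set ℝ)ᶜ ⊆ Function.support (fun x : ℝ => |1 + s * x| ^ p) := by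
      intro x hx
      rw [Function.mem_support]
      have h1 : 1 + s * x ≠ 0 := by
        intro h
        apply hx
        rw [Set.mem_singleton_iff]
        field_simp
        linarith
      exact (Real.rpow_pos_of_pos (abs_pos.2 h1) p).ne'
    have h0 : gam ({-1 / s} : Set ℝ) = 0 := by
      have := nullSingletonClass_gaussianReal (μ := 0) (v := 1) one_ne_zero
      unfold gam
      exact measure_singleton _
    have h1 : gam ({-1 / s} : Set ℝ)ᶜ = 1 :=
      (prob_compl_eq_one_iff (measurableSet_singleton _)).2 h0
    have h2 := measure_mono (μ := gam) hsub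
    rw [h1] at h2
    exact lt_of_lt_of_le one_pos h2
  set N : ℝ := nrm p 1 s with hN
  have hNI : N = I ^ (1 / p) := rfl
  have hNpos : 0 < N := by
    rw [hNI]
    exact Real.rpow_pos_of_pos hIpos _
  have hNp : N ^ p = I := by
    rw [hNI, ← Real.rpow_mul hIpos.le, one_div, inv_mul_cancel₀ hp0.ne', Real.rpow_one]
  have habs : ∀ (r : ℝ) (y : ℝ), |y / N| ^ r = |y| ^ r / N ^ r := by
    intro r y
    rw [abs_div, abs_of_pos hNpos, Real.div_rpow (abs_nonneg _) hNpos.le]
  have hint1 : Integrable (fun x : ℝ => 1 + s * x) gam :=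
    (integrable_const 1).add (int_id.const_mul s)
  refine ⟨fun x => (1 + s * x) / N, ⟨?_, ?_, ?_⟩, ?_⟩
  · fun_prop
  · simp_rw [habs]
    exact hint.div_const _
  · simp_rw [habs]
    rw [integral_div, hNp, ← hI, div_self hIpos.ne']
  · have h1 : ∫ x, (1 + s * x) / N ∂gam = 1 / N := by
      rw [integral_div, integral_add (integrable_const 1) (int_id.const_mul s),
        integral_const_mul, mean]
      simp
    have h2 : ∫ x, (1 + s * x) / N * x ∂gam = s / N := by
      have h3 : (fun x : ℝ => (1 + s * x) / N * x) = fun x => (x + s * (x * x)) / N := by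
        funext x
        ring
      rw [h3, integral_div, integral_add int_id (int_sq.const_mul s), integral_const_mul, mean,
        second]
      simp
    rw [h1, h2]
    have h4 : nrm q (1 / N) (m * (s / N)) = nrm q 1 (m * s) / N := by
      unfold nrm
      have h5 : (fun x : ℝ => |1 / N + m * (s / N) * x| ^ q) =
          fun x => |1 + m * s * x| ^ q / N ^ q := by
        funext x
        rw [← habs]
        congr 2
        ring
      rw [h5, integral_div, Real.div_rpow (integral_nonneg fun x => by positivity)
        (Real.rpow_nonneg hNpos.le _), ← Real.rpow_mul hNpos.le, mul_one_div_cancel hq0.ne',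
        Real.rpow_one]
    rw [h4, lt_div_iff₀ hNpos, one_mul]
    exact hlt

end

end Pool.Agent.Q198.WM.TaskBig
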