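import Pool.Agent.Q198.WM.Stmts

set_option autoImplicit false

open MeasureTheory

namespace Pool.Agent.Q198.WM.TaskC1

theorem cont_cos (p : ℝ) (hp : 1 ≤ p) : Continuous fun θ : ℝ => |Real.cos θ| ^ p :=
  (Real.continuous_cos.abs).rpow_const fun _ => Or.inr (by linarith)

theorem main : Pool.Agent.Q198.WM.TaskC1 := by
  intro p hp
  refine ⟨?_, fun w => ?_⟩
  · unfold cc
    refine intervalIntegral.integral_pos (by positivity) (cont_cos p hp).continuousOn
      (fun x _ => by positivity) ⟨0, ⟨le_rfl, by positivity⟩, ?_⟩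
    simp
  · have hper : Function.Periodic (fun θ : ℝ => |Real.cos θ| ^ p) (2 * Real.pi) := by
      intro θ
      simp only [Real.cos_add_two_pi]
    have h1 : ∀ θ : ℝ, |(Complex.exp (θ * Complex.I) * w).re| ^ p =
        |Real.cos (θ + w.arg)| ^ p * ‖w‖ ^ p := by
      intro θ
      have h2 : Complex.exp (θ * Complex.I) * w =
          ((‖w‖ : ℝ) : ℂ) * Complex.exp (((θ + w.arg : ℝ) : ℂ) * Complex.I) := by
        conv_lhs => rw [← Complex.norm_mul_exp_arg_mul_I w]
        push_cast
        rw [add_mul, Complex.exp_add]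
        ring
      rw [h2, Complex.re_ofReal_mul, Complex.exp_ofReal_mul_I_re, abs_mul, abs_of_nonneg (norm_nonneg w),
        Real.mul_rpow (norm_nonneg w) (abs_nonneg _)]
      ring
    simp only [h1]
    rw [intervalIntegral.integral_mul_const]
    congr 1
    rw [intervalIntegral.integral_comp_add_right (fun θ : ℝ => |Real.cos θ| ^ p) w.arg, zero_add,
      add_comm (2 * Real.pi) w.arg]
    have h3 := hper.intervalIntegral_add_eq w.arg 0
    rw [h3, zero_add]
    rfl

end Pool.Agent.Q198.WM.TaskC1
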