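import Pool.Agent.Q198.WM.Stmts

/-! MP_30e1ee_an, task C2 (helper204): Fubini. -/

set_option autoImplicit false

namespace Pool.Agent.Q198.WM.TaskC2

open MeasureTheory ProbabilityTheory Finset Filter Topology

theorem main : Pool.Agent.Q198.WM.TaskC2 := by
  intro h1 p hp f hf hfp
  have hp0 : 0 < p := lt_of_lt_of_le one_pos hp
  have hpi : (0 : ℝ) ≤ 2 * Real.pi := by positivity
  have hI : Integrable (fun t => ‖f t‖ ^ p) (volume : Measure unitInterval) := by
    have h := hfp.integrable_norm_rpow (by simpa using hp0) ENNReal.ofReal_ne_top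
    rwa [ENNReal.toReal_ofReal hp0.le] at h
  have hmeas : Measurable (fun z : ℝ × unitInterval =>
      |(Complex.exp (z.1 * Complex.I) * f z.2).re| ^ p) := by
    have e1 : Measurable (fun z : ℝ × unitInterval => Complex.exp (z.1 * Complex.I)) := by
      have : Continuous (fun x : ℝ => Complex.exp (x * Complex.I)) := by fun_prop
      exact this.measurable.comp measurable_fst
    have e2 : Measurable (fun z : ℝ × unitInterval => f z.2) := hf.comp measurable_snd
    have e3 : Measurable (fun z : ℝ × unitInterval => (Complex.exp (z.1 * Complex.I) * f z.2).re) :=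
      Complex.measurable_re.comp (e1.mul e2)
    have e4 : Measurable (fun z : ℝ × unitInterval =>
        |(Complex.exp (z.1 * Complex.I) * f z.2).re|) := by
      simpa only [Real.norm_eq_abs] using e3.norm
    exact e4.pow_const p
  have hint : Integrable (Function.uncurry fun (θ : ℝ) (t : unitInterval) =>
      |(Complex.exp (θ * Complex.I) * f t).re| ^ p)
      ((volume.restrict (Set.Ioc (0 : ℝ) (2 * Real.pi))).prod (volume : Measure unitInterval)) := by
    have hb : Integrable (fun z : ℝ × unitInterval => ‖f z.2‖ ^ p)
        ((volume.restrict (Set.Ioc (0 : ℝ) (2 * Real.pi))).prod (volume : Measure unitInterval)) :=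
      hI.comp_snd _
    refine hb.mono' hmeas.aestronglyMeasurable (Eventually.of_forall fun z => ?_)
    simp only [Function.uncurry]
    rw [Real.norm_eq_abs, abs_of_nonneg (by positivity)]
    refine Real.rpow_le_rpow (abs_nonneg _) ?_ hp0.le
    refine (Complex.abs_re_le_norm _).trans ?_
    rw [norm_mul, Complex.norm_exp_ofReal_mul_I, one_mul]
  rw [intervalIntegral.integral_of_le hpi, integral_integral_swap hint]
  rw [← integral_const_mul]
  refine integral_congr_ae (Eventually.of_forall fun t => ?_)
  have h2 := (h1 p hp).2 (f t)
  rw [intervalIntegral.integral_of_le hpi] at h2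
  exact h2

end Pool.Agent.Q198.WM.TaskC2
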