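import Pool.Agent.Q198.WM.Stmts

/-!
# Rotation averages: the lower bound in `L_q`
-/

namespace Pool.Agent.Q198.WM.TaskC3

open MeasureTheory ProbabilityTheory Finset Filter Topology Pool.Agent.Q198.WM

theorem holder {α : Type*} [MeasurableSpace α] {μ : Measure α} {f g : α → ℝ} (hf : Integrable f μ)
    (hg : Integrable g μ) (hf0 : ∀ x, 0 ≤ f x) (hg0 : ∀ x, 0 ≤ g x) {a b : ℝ} (ha : 0 ≤ a)
    (hb : 0 ≤ b) (hab : a + b = 1) :
    ∫ x, f x ^ a * g x ^ b ∂μ ≤ (∫ x, f x ∂μ) ^ a * (∫ x, g x ∂μ) ^ b := by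
  have hF : 0 ≤ ∫ x, f x ∂μ := integral_nonneg hf0
  have hG : 0 ≤ ∫ x, g x ∂μ := integral_nonneg hg0
  rw [integral_eq_lintegral_of_nonneg_ae
    (Eventually.of_forall fun x => mul_nonneg (Real.rpow_nonneg (hf0 x) _)
      (Real.rpow_nonneg (hg0 x) _))
    ((hf.aestronglyMeasurable.aemeasurable.pow_const a).mul
      (hg.aestronglyMeasurable.aemeasurable.pow_const b)).aestronglyMeasurable]
  refine ENNReal.toReal_le_of_le_ofReal
    (mul_nonneg (Real.rpow_nonneg hF _) (Real.rpow_nonneg hG _)) ?_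
  have e : ∀ x, ENNReal.ofReal (f x ^ a * g x ^ b) =
      ENNReal.ofReal (f x) ^ a * ENNReal.ofReal (g x) ^ b := by
    intro x
    rw [ENNReal.ofReal_mul (Real.rpow_nonneg (hf0 x) _), ENNReal.ofReal_rpow_of_nonneg (hf0 x) ha,
      ENNReal.ofReal_rpow_of_nonneg (hg0 x) hb]
  simp_rw [e]
  refine (ENNReal.lintegral_mul_norm_pow_le hf.aestronglyMeasurable.aemeasurable.ennreal_ofReal
    hg.aestronglyMeasurable.aemeasurable.ennreal_ofReal ha hb hab).trans ?_
  rw [← ofReal_integral_eq_lintegral_ofReal hf (Eventually.of_forall hf0),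
    ← ofReal_integral_eq_lintegral_ofReal hg (Eventually.of_forall hg0),
    ENNReal.ofReal_rpow_of_nonneg hF ha, ENNReal.ofReal_rpow_of_nonneg hG hb,
    ← ENNReal.ofReal_mul (Real.rpow_nonneg hF _)]

theorem main : TaskC3 := by
  intro hC1 p q hp hpq w hw hwq
  have hq : 1 < q := lt_of_lt_of_le hp hpq
  have hq0 : 0 < q := by linarith
  have hp0 : 0 < p := by linarith
  obtain ⟨hc, hC⟩ := hC1 p hp.le
  obtain ⟨b, hb⟩ : ∃ b, b = p / q := ⟨_, rfl⟩
  obtain ⟨a, ha⟩ : ∃ a, a = 1 - p / q := ⟨_, rfl⟩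
  rw [← hb]
  have hb0 : 0 < b := hb ▸ div_pos hp0 hq0
  have ha0 : 0 ≤ a := by rw [ha, sub_nonneg, div_le_one hq0]; exact hpq
  have hab : a + b = 1 := by rw [ha, hb]; ring
  have hqb : q * b = p := by rw [hb]; field_simp
  obtain ⟨R, hR⟩ : ∃ R : ℝ → unitInterval → ℝ,
      ∀ θ t, R θ t = |(Complex.exp (θ * Complex.I) * w t).re| := ⟨_, fun _ _ => rfl⟩
  have hR0 : ∀ θ t, 0 ≤ R θ t := fun θ t => by rw [hR]; exact abs_nonneg _
  have hRle : ∀ θ t, R θ t ≤ ‖w t‖ := by
    intro θ t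
    rw [hR]
    refine (Complex.abs_re_le_norm _).trans ?_
    rw [norm_mul, Complex.norm_exp_ofReal_mul_I, one_mul]
  have hRm : Measurable (Function.uncurry R) := by
    have h1 : Measurable (fun x : ℝ × unitInterval =>
        (Complex.exp (x.1 * Complex.I) * w x.2).re) := by
      refine Complex.measurable_re.comp (Measurable.mul ?_ (hw.comp measurable_snd))
      exact Complex.measurable_exp.comp
        ((Complex.measurable_ofReal.comp measurable_fst).mul_const _)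
    have h2 : Function.uncurry R = fun x : ℝ × unitInterval =>
        |(Complex.exp (x.1 * Complex.I) * w x.2).re| := by
      funext x
      exact hR x.1 x.2
    rw [h2]
    exact continuous_abs.measurable.comp h1
  have hRq : Measurable (fun x : ℝ × unitInterval => R x.1 x.2 ^ q) := hRm.pow_const q
  have hwi : Integrable (fun t => ‖w t‖ ^ q) (volume : Measure unitInterval) := by
    have := hwq.integrable_norm_rpow (by simpa using hq0) ENNReal.ofReal_ne_top
    rwa [ENNReal.toReal_ofReal hq0.le] at this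
  have hRle' : ∀ θ t, R θ t ^ q ≤ ‖w t‖ ^ q := fun θ t =>
    Real.rpow_le_rpow (hR0 θ t) (hRle θ t) hq0.le
  have hRi : ∀ θ, Integrable (fun t => R θ t ^ q) (volume : Measure unitInterval) := by
    intro θ
    refine hwi.mono' (hRq.comp measurable_prodMk_left).aestronglyMeasurable
      (Eventually.of_forall fun t => ?_)
    rw [Real.norm_of_nonneg (Real.rpow_nonneg (hR0 θ t) _)]
    exact hRle' θ t
  obtain ⟨A, hA⟩ : ∃ A, A = ∫ t, ‖w t‖ ^ q := ⟨_, rfl⟩
  obtain ⟨B, hB⟩ : ∃ B : ℝ → ℝ, ∀ θ, B θ = ∫ t, R θ t ^ q := ⟨_, fun _ => rfl⟩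
  have hA0 : 0 ≤ A := by rw [hA]; exact integral_nonneg fun t => Real.rpow_nonneg (norm_nonneg _) _
  have hB0 : ∀ θ, 0 ≤ B θ := fun θ => by
    rw [hB]; exact integral_nonneg fun t => Real.rpow_nonneg (hR0 θ t) _
  have hBA : ∀ θ, B θ ≤ A := fun θ => by
    rw [hB, hA]; exact integral_mono (hRi θ) hwi fun t => hRle' θ t
  have hBm : Measurable B := by
    have h1 : StronglyMeasurable (fun θ => ∫ t, R θ t ^ q) :=
      StronglyMeasurable.integral_prod_right (f := fun θ t => R θ t ^ q) hRq.stronglyMeasurable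
    have h2 : B = fun θ => ∫ t, R θ t ^ q := funext hB
    rw [h2]
    exact h1.measurable
  -- the measure in `θ`
  obtain ⟨ν, hν⟩ : ∃ ν : Measure ℝ, ν = volume.restrict (Set.Ioc 0 (2 * Real.pi)) := ⟨_, rfl⟩
  have : IsFiniteMeasure ν := by
    rw [hν]
    infer_instance
  have hcv : ∀ f : ℝ → ℝ, ∫ θ in (0 : ℝ)..(2 * Real.pi), f θ = ∫ θ, f θ ∂ν := by
    intro f
    rw [hν, intervalIntegral.integral_of_le Real.two_pi_pos.le]
  have hC' : ∀ t, ∫ θ, R θ t ^ p ∂ν = cc p * ‖w t‖ ^ p := by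
    intro t
    rw [← hC (w t), hcv]
    refine integral_congr_ae (Eventually.of_forall fun θ => ?_)
    simp only [hR]
  have hgoal : (∫ θ in (0 : ℝ)..(2 * Real.pi),
      (∫ t, |(Complex.exp (θ * Complex.I) * w t).re| ^ q) ^ b) = ∫ θ, B θ ^ b ∂ν := by
    rw [hcv]
    refine integral_congr_ae (Eventually.of_forall fun θ => ?_)
    simp only [hB, hR]
  rw [hgoal, ← hA]
  have hBbi : Integrable (fun θ => B θ ^ b) ν := by
    refine (integrable_const (A ^ b)).mono' (hBm.pow_const b).aestronglyMeasurable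
      (Eventually.of_forall fun θ => ?_)
    rw [Real.norm_of_nonneg (Real.rpow_nonneg (hB0 θ) _)]
    exact Real.rpow_le_rpow (hB0 θ) (hBA θ) hb0.le
  -- the product
  obtain ⟨G, hG⟩ : ∃ G : ℝ → unitInterval → ℝ, ∀ θ t, G θ t = (‖w t‖ ^ q) ^ a * (R θ t ^ q) ^ b :=
    ⟨_, fun _ _ => rfl⟩
  have hGm : Measurable (Function.uncurry G) := by
    have h1 : Measurable (fun x : ℝ × unitInterval => (‖w x.2‖ ^ q) ^ a * (R x.1 x.2 ^ q) ^ b) :=
      (((hw.comp measurable_snd).norm.pow_const q).pow_const a).mul (hRq.pow_const b)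
    have h2 : Function.uncurry G = fun x : ℝ × unitInterval =>
        (‖w x.2‖ ^ q) ^ a * (R x.1 x.2 ^ q) ^ b := by
      funext x
      exact hG x.1 x.2
    rw [h2]
    exact h1
  have hG0 : ∀ θ t, 0 ≤ G θ t := fun θ t => by
    rw [hG]
    exact mul_nonneg (Real.rpow_nonneg (Real.rpow_nonneg (norm_nonneg _) _) _)
      (Real.rpow_nonneg (Real.rpow_nonneg (hR0 θ t) _) _)
  have hpow : ∀ x : ℝ, 0 ≤ x → x ^ a * x ^ b = x := by
    intro x hx
    rw [← Real.rpow_add_of_nonneg hx ha0 hb0.le, hab, Real.rpow_one]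
  have hGle : ∀ θ t, G θ t ≤ ‖w t‖ ^ q := by
    intro θ t
    rw [hG]
    calc (‖w t‖ ^ q) ^ a * (R θ t ^ q) ^ b ≤ (‖w t‖ ^ q) ^ a * (‖w t‖ ^ q) ^ b :=
          mul_le_mul_of_nonneg_left (Real.rpow_le_rpow (Real.rpow_nonneg (hR0 θ t) _)
            (hRle' θ t) hb0.le) (Real.rpow_nonneg (Real.rpow_nonneg (norm_nonneg _) _) _)
      _ = ‖w t‖ ^ q := hpow _ (Real.rpow_nonneg (norm_nonneg _) _)
  have hGi : Integrable (Function.uncurry G) (ν.prod (volume : Measure unitInterval)) := by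
    refine (hwi.comp_snd ν).mono' hGm.aestronglyMeasurable (Eventually.of_forall fun x => ?_)
    show ‖G x.1 x.2‖ ≤ ‖w x.2‖ ^ q
    rw [Real.norm_of_nonneg (hG0 x.1 x.2)]
    exact hGle x.1 x.2
  have hswap : ∫ θ, ∫ t, G θ t ∂(volume : Measure unitInterval) ∂ν =
      ∫ t, ∫ θ, G θ t ∂ν ∂(volume : Measure unitInterval) := integral_integral_swap hGi
  have hinner : ∀ t, ∫ θ, G θ t ∂ν = cc p * ‖w t‖ ^ q := by
    intro t
    have h1 : ∀ θ, G θ t = (‖w t‖ ^ q) ^ a * R θ t ^ p := by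
      intro θ
      rw [hG, ← Real.rpow_mul (hR0 θ t), hqb]
    simp_rw [h1]
    rw [integral_const_mul, hC']
    have h2 : ‖w t‖ ^ p = (‖w t‖ ^ q) ^ b := by
      rw [← Real.rpow_mul (norm_nonneg _), hqb]
    rw [h2]
    have h3 := hpow (‖w t‖ ^ q) (Real.rpow_nonneg (norm_nonneg _) _)
    calc (‖w t‖ ^ q) ^ a * (cc p * (‖w t‖ ^ q) ^ b)
        = cc p * ((‖w t‖ ^ q) ^ a * (‖w t‖ ^ q) ^ b) := by ring
      _ = cc p * ‖w t‖ ^ q := by rw [h3]
  have hkey : cc p * A ≤ A ^ a * ∫ θ, B θ ^ b ∂ν := by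
    calc cc p * A = ∫ t, ∫ θ, G θ t ∂ν := by
          simp_rw [hinner]
          rw [integral_const_mul, hA]
      _ = ∫ θ, ∫ t, G θ t ∂(volume : Measure unitInterval) ∂ν := hswap.symm
      _ ≤ ∫ θ, A ^ a * B θ ^ b ∂ν := by
          refine integral_mono hGi.integral_prod_left (hBbi.const_mul _) fun θ => ?_
          have h1 := holder hwi (hRi θ) (fun t => Real.rpow_nonneg (norm_nonneg _) _)
            (fun t => Real.rpow_nonneg (hR0 θ t) _) ha0 hb0.le hab
          rw [← hA, ← hB θ] at h1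
          refine le_trans (le_of_eq ?_) h1
          refine integral_congr_ae (Eventually.of_forall fun t => ?_)
          exact hG θ t
      _ = A ^ a * ∫ θ, B θ ^ b ∂ν := integral_const_mul _ _
  rcases hA0.eq_or_lt with h0 | h0
  · rw [← h0, Real.zero_rpow hb0.ne', mul_zero]
    exact integral_nonneg fun θ => Real.rpow_nonneg (hB0 θ) _
  · have h1 : 0 < A ^ a := Real.rpow_pos_of_pos h0 _
    have h2 : A ^ a * (cc p * A ^ b) = cc p * A := by
      calc A ^ a * (cc p * A ^ b) = cc p * (A ^ a * A ^ b) := by ring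
        _ = cc p * A := by rw [hpow A hA0]
    rw [← h2] at hkey
    exact le_of_mul_le_mul_left hkey h1

end Pool.Agent.Q198.WM.TaskC3
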