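import Pool.Agent.Q198.WM.Stmts

/-! Task `WM.TaskC4` (helper179): the complexification of a real operator. -/

namespace Pool.Agent.Q198.WM.TaskC4

open MeasureTheory ProbabilityTheory Finset Filter Topology

noncomputable section

abbrev vv : Measure unitInterval := volume

theorem main : Pool.Agent.Q198.WM.TaskC4 := by
  intro p q _ _ T
  let R : Lp ℂ (ENNReal.ofReal p) vv →L[ℝ] Lp ℝ (ENNReal.ofReal p) vv :=
    ContinuousLinearMap.compLpL (ENNReal.ofReal p) vv Complex.reCLM
  let I : Lp ℂ (ENNReal.ofReal p) vv →L[ℝ] Lp ℝ (ENNReal.ofReal p) vv :=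
    ContinuousLinearMap.compLpL (ENNReal.ofReal p) vv Complex.imCLM
  let J : Lp ℝ (ENNReal.ofReal q) vv →L[ℝ] Lp ℂ (ENNReal.ofReal q) vv :=
    ContinuousLinearMap.compLpL (ENNReal.ofReal q) vv Complex.ofRealCLM
  have hRc : ∀ f, (R f : unitInterval → ℝ) =ᵐ[vv] fun t => (f t).re := fun f => by
    have := ContinuousLinearMap.coeFn_compLpL (p := ENNReal.ofReal p) (μ := vv) Complex.reCLM f
    filter_upwards [this] with t ht
    exact ht
  have hIc : ∀ f, (I f : unitInterval → ℝ) =ᵐ[vv] fun t => (f t).im := fun f => by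
    have := ContinuousLinearMap.coeFn_compLpL (p := ENNReal.ofReal p) (μ := vv) Complex.imCLM f
    filter_upwards [this] with t ht
    exact ht
  have hJc : ∀ f, (J f : unitInterval → ℂ) =ᵐ[vv] fun t => ((f t : ℝ) : ℂ) := fun f => by
    have := ContinuousLinearMap.coeFn_compLpL (p := ENNReal.ofReal q) (μ := vv) Complex.ofRealCLM f
    filter_upwards [this] with t ht
    exact ht
  have hR : ∀ (c : ℂ) (f : Lp ℂ (ENNReal.ofReal p) vv), R (c • f) = c.re • R f - c.im • I f := by
    intro c f
    apply Lp.ext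
    filter_upwards [hRc (c • f), hRc f, hIc f, Lp.coeFn_smul c f, Lp.coeFn_sub (c.re • R f) (c.im • I f),
      Lp.coeFn_smul c.re (R f), Lp.coeFn_smul c.im (I f)] with t h1 h2 h3 h4 h5 h6 h7
    rw [h1, h5, Pi.sub_apply, h6, h7, h4, Pi.smul_apply, Pi.smul_apply, Pi.smul_apply, h2, h3]
    simp [Complex.mul_re]
  have hI : ∀ (c : ℂ) (f : Lp ℂ (ENNReal.ofReal p) vv), I (c • f) = c.re • I f + c.im • R f := by
    intro c f
    apply Lp.ext
    filter_upwards [hIc (c • f), hRc f, hIc f, Lp.coeFn_smul c f, Lp.coeFn_add (c.re • I f) (c.im • R f),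
      Lp.coeFn_smul c.re (I f), Lp.coeFn_smul c.im (R f)] with t h1 h2 h3 h4 h5 h6 h7
    rw [h1, h5, Pi.add_apply, h6, h7, h4, Pi.smul_apply, Pi.smul_apply, Pi.smul_apply, h2, h3]
    simp [Complex.mul_im]
  have hcs : ∀ (a : ℝ) (X : Lp ℂ (ENNReal.ofReal q) vv), a • X = (a : ℂ) • X := by
    intro a X
    apply Lp.ext
    filter_upwards [Lp.coeFn_smul a X, Lp.coeFn_smul (a : ℂ) X] with t h1 h2
    rw [h1, h2, Pi.smul_apply, Pi.smul_apply]
    simp
  let S : Lp ℂ (ENNReal.ofReal p) vv →L[ℂ] Lp ℂ (ENNReal.ofReal q) vv :=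
    { toFun := fun f => J (T (R f)) + Complex.I • J (T (I f))
      map_add' := by
        intro f g
        simp only [map_add, smul_add]
        abel
      map_smul' := by
        intro c f
        simp only [RingHom.id_apply]
        rw [hR, hI]
        simp only [map_add, map_sub, map_smul, hcs]
        generalize J (T (R f)) = X
        generalize J (T (I f)) = Y
        have hc : c = (c.re : ℂ) + (c.im : ℂ) * Complex.I := (Complex.re_add_im c).symm
        have hII : Complex.I * Complex.I = -1 := Complex.I_mul_I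
        have e1 : (c.re : ℂ) • X - (c.im : ℂ) • Y + Complex.I • ((c.re : ℂ) • Y + (c.im : ℂ) • X) =
            ((c.re : ℂ) + (c.im : ℂ) * Complex.I) • X +
              ((c.re : ℂ) * Complex.I + (c.im : ℂ) * (Complex.I * Complex.I)) • Y := by
          rw [hII]
          module
        have e2 : c • (X + Complex.I • Y) = ((c.re : ℂ) + (c.im : ℂ) * Complex.I) • X +
              ((c.re : ℂ) * Complex.I + (c.im : ℂ) * (Complex.I * Complex.I)) • Y := by
          conv_lhs => rw [hc]
          module
        rw [e1, e2]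
      cont := by
        have h1 : Continuous fun f => J (T (R f)) := J.continuous.comp (T.continuous.comp R.continuous)
        have h2 : Continuous fun f => J (T (I f)) := J.continuous.comp (T.continuous.comp I.continuous)
        exact h1.add (h2.const_smul Complex.I) }
  refine ⟨S, fun f u hu => ?_⟩
  have hRu : R f = u := by
    apply Lp.ext
    filter_upwards [hRc f, hu] with t h1 h2
    rw [h1]
    exact h2
  have hS : S f = J (T (R f)) + Complex.I • J (T (I f)) := rfl
  rw [hS, hRu]
  filter_upwards [Lp.coeFn_add (J (T u)) (Complex.I • J (T (I f))), Lp.coeFn_smul Complex.I (J (T (I f))),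
    hJc (T u), hJc (T (I f))] with t h1 h2 h3 h4
  rw [h1, Pi.add_apply, h2, Pi.smul_apply, h3, h4]
  simp

end

end Pool.Agent.Q198.WM.TaskC4
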