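import Pool.Agent.Q198.WM.Stmts

namespace Pool.Agent.Q198.WM.TaskC5

open MeasureTheory

theorem main : Pool.Agent.Q198.WM.TaskC5 := by
  intro p _ u
  have h := ContinuousLinearMap.coeFn_compLp Complex.ofRealCLM u
  refine ⟨Complex.ofRealCLM.compLp u, ?_, ?_⟩
  · rw [Lp.norm_def, Lp.norm_def]
    congr 1
    refine eLpNorm_congr_norm_ae ?_
    filter_upwards [h] with t ht
    rw [ht]
    simp
  · filter_upwards [h] with t ht
    rw [ht]
    simp

end Pool.Agent.Q198.WM.TaskC5
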