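import Pool.Agent.Q198.WM.Stmts

set_option autoImplicit false

/-! # Complexification of functionals on `L_p` -/

namespace Pool.Agent.Q198.WM.TaskC6

open MeasureTheory ProbabilityTheory Finset Filter Topology

theorem main : Pool.Agent.Q198.WM.TaskC6 := by
  intro p _ φ
  let R : Lp ℂ (ENNReal.ofReal p) (volume : Measure unitInterval) →L[ℝ]
      Lp ℝ (ENNReal.ofReal p) (volume : Measure unitInterval) :=
    ContinuousLinearMap.compLpL (ENNReal.ofReal p) (volume : Measure unitInterval) Complex.reCLM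
  let ρ : StrongDual ℝ (Lp ℂ (ENNReal.ofReal p) (volume : Measure unitInterval)) := φ.comp R
  refine ⟨StrongDual.extendRCLike ρ, fun u f hf => ?_⟩
  have h1 : R f = u := by
    apply Lp.ext
    have h2 := ContinuousLinearMap.coeFn_compLpL (p := ENNReal.ofReal p)
      (μ := (volume : Measure unitInterval)) Complex.reCLM f
    filter_upwards [h2, hf] with t h3 h4
    show (R f : unitInterval → ℝ) t = _
    rw [h3, h4]
    simp
  have h5 : R ((RCLike.I : ℂ) • f) = 0 := by
    apply Lp.ext
    have h2 := ContinuousLinearMap.coeFn_compLpL (p := ENNReal.ofReal p)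
      (μ := (volume : Measure unitInterval)) Complex.reCLM ((RCLike.I : ℂ) • f)
    filter_upwards [h2, hf, Lp.coeFn_smul (RCLike.I : ℂ) f,
      Lp.coeFn_zero ℝ (ENNReal.ofReal p) (volume : Measure unitInterval)] with t h3 h4 h6 h7
    show (R ((RCLike.I : ℂ) • f) : unitInterval → ℝ) t = _
    rw [h3, h6, h7, Pi.smul_apply, h4]
    simp
  rw [StrongDual.extendRCLike_apply]
  show ((φ (R f) : ℝ) : ℂ) - (RCLike.I : ℂ) * ((φ (R ((RCLike.I : ℂ) • f)) : ℝ) : ℂ) = _
  rw [h1, h5, map_zero]
  simp

end Pool.Agent.Q198.WM.TaskC6
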