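import Pool.Agent.Q198.WM.Stmts

set_option autoImplicit false

namespace Pool.Agent.Q198.WM.TaskC7

open MeasureTheory Pool.Agent.Q198.WM

theorem normLp {E : Type*} [NormedAddCommGroup E] (r : ℝ) (hr : 1 ≤ r)
    (g : Lp E (ENNReal.ofReal r) (volume : Measure unitInterval)) :
    ‖g‖ ^ r = ∫ t, ‖g t‖ ^ r := by
  have hr0 : 0 < r := by linarith
  have h1 : ENNReal.ofReal r ≠ 0 := by simpa using hr0
  have h2 : ENNReal.ofReal r ≠ ⊤ := ENNReal.ofReal_ne_top
  have h3 : (ENNReal.ofReal r).toReal = r := ENNReal.toReal_ofReal hr0.le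
  have h0 : 0 ≤ ∫ t, ‖g t‖ ^ r := integral_nonneg (fun t => by positivity)
  rw [Lp.norm_def, (Lp.memLp g).eLpNorm_eq_integral_rpow_norm h1 h2, h3,
    ENNReal.toReal_ofReal (by positivity), ← Real.rpow_mul h0, inv_mul_cancel₀ hr0.ne',
    Real.rpow_one]

theorem main : Pool.Agent.Q198.WM.TaskC7 := by
  intro c1 c2 c3 p q _ _ hp hpq T S hS hT f hf
  have hp0 : 0 < p := by linarith
  have hq0 : 0 < q := by linarith
  have hcc : 0 < cc p := (c1 p hp.le).1
  set u₀ : Lp ℝ (ENNReal.ofReal p) (volume : Measure unitInterval) :=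
    Complex.reCLM.compLp f with hu₀
  set u₁ : Lp ℝ (ENNReal.ofReal p) (volume : Measure unitInterval) :=
    Complex.reCLM.compLp (Complex.I • f) with hu₁
  set u : ℝ → Lp ℝ (ENNReal.ofReal p) (volume : Measure unitInterval) :=
    fun θ => Real.cos θ • u₀ + Real.sin θ • u₁ with hu
  have huc : Continuous u :=
    (Real.continuous_cos.smul continuous_const).add (Real.continuous_sin.smul continuous_const)
  have hue : ∀ θ : ℝ, (fun t => (Complex.exp (θ * Complex.I) * f t).re) =ᵐ[volume] u θ := by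
    intro θ
    filter_upwards [Lp.coeFn_add (Real.cos θ • u₀) (Real.sin θ • u₁),
      Lp.coeFn_smul (Real.cos θ) u₀, Lp.coeFn_smul (Real.sin θ) u₁,
      Complex.reCLM.coeFn_compLp f, Complex.reCLM.coeFn_compLp (Complex.I • f),
      Lp.coeFn_smul Complex.I f] with t h1 h2 h3 h4 h5 h6
    have e1 : (u θ : unitInterval → ℝ) t =
        Real.cos θ * (f t).re + Real.sin θ * (Complex.I * f t).re := by
      show ((Real.cos θ • u₀ + Real.sin θ • u₁ : Lp ℝ (ENNReal.ofReal p)
        (volume : Measure unitInterval)) : unitInterval → ℝ) t = _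
      rw [h1, Pi.add_apply, h2, h3, Pi.smul_apply, Pi.smul_apply, smul_eq_mul, smul_eq_mul]
      rw [hu₀, hu₁, h4, h5, h6]
      rfl
    rw [e1, Complex.mul_re, Complex.exp_ofReal_mul_I_re, Complex.exp_ofReal_mul_I_im,
      Complex.mul_re, Complex.I_re, Complex.I_im]
    ring
  have hST : ∀ θ : ℝ, (fun t => (Complex.exp (θ * Complex.I) * S f t).re) =ᵐ[volume] T (u θ) := by
    intro θ
    have h1 : (fun t => (((Complex.exp (θ * Complex.I)) • f : Lp ℂ (ENNReal.ofReal p)
        (volume : Measure unitInterval)) t).re) =ᵐ[volume] u θ := by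
      filter_upwards [hue θ, Lp.coeFn_smul (Complex.exp (θ * Complex.I)) f] with t h2 h3
      rw [h3, ← h2]
      rfl
    have h4 := hS _ _ h1
    rw [map_smul] at h4
    filter_upwards [h4, Lp.coeFn_smul (Complex.exp (θ * Complex.I)) (S f)] with t h5 h6
    rw [← h5, h6]
    rfl
  have hA : ∀ θ : ℝ, ‖u θ‖ ^ p = ∫ t, |(Complex.exp (θ * Complex.I) * f t).re| ^ p := by
    intro θ
    rw [normLp p hp.le]
    refine integral_congr_ae ?_
    filter_upwards [hue θ] with t ht
    rw [← ht, Real.norm_eq_abs]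
  have hB : ∀ θ : ℝ, ‖T (u θ)‖ ^ p =
      (∫ t, |(Complex.exp (θ * Complex.I) * S f t).re| ^ q) ^ (p / q) := by
    intro θ
    have h1 : ‖T (u θ)‖ ^ q = ∫ t, |(Complex.exp (θ * Complex.I) * S f t).re| ^ q := by
      rw [normLp q (by linarith)]
      refine integral_congr_ae ?_
      filter_upwards [hST θ] with t ht
      rw [← ht, Real.norm_eq_abs]
    rw [← h1, ← Real.rpow_mul (norm_nonneg _)]
    congr 1
    field_simp
  have hC := c2 c1 p hp.le f (Lp.stronglyMeasurable f).measurable (Lp.memLp f)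
  have hD := c3 c1 p q hp hpq (S f) (Lp.stronglyMeasurable (S f)).measurable (Lp.memLp (S f))
  rw [← normLp p hp.le f] at hC
  rw [← normLp q (by linarith) (S f), ← Real.rpow_mul (norm_nonneg _),
    mul_div_cancel₀ p hq0.ne'] at hD
  simp_rw [← hA] at hC
  simp_rw [← hB] at hD
  -- a point where `u` is not zero
  have hne : ∃ θ ∈ Set.Icc (0 : ℝ) (2 * Real.pi), u θ ≠ 0 := by
    by_contra hcon
    push Not at hcon
    have hpi := Real.pi_pos
    have h0 := hcon 0 ⟨le_rfl, by positivity⟩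
    have h1 := hcon (Real.pi / 2) ⟨by positivity, by linarith⟩
    simp only [hu, Real.cos_zero, Real.sin_zero, one_smul, zero_smul, add_zero] at h0
    simp only [hu, Real.cos_pi_div_two, Real.sin_pi_div_two, one_smul, zero_smul, zero_add] at h1
    apply hf
    refine Lp.ext ?_
    filter_upwards [Complex.reCLM.coeFn_compLp f, Complex.reCLM.coeFn_compLp (Complex.I • f),
      Lp.coeFn_smul Complex.I f, Lp.coeFn_zero ℝ (ENNReal.ofReal p)
        (volume : Measure unitInterval), Lp.coeFn_zero ℂ (ENNReal.ofReal p)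
        (volume : Measure unitInterval)] with t h4 h5 h6 h7 h8
    rw [← hu₀, h0, h7] at h4
    rw [← hu₁, h1, h7, h6] at h5
    rw [h8]
    have e1 : (f t).re = 0 := h4.symm
    have e2 : (Complex.I * f t).re = 0 := h5.symm
    rw [Complex.mul_re, Complex.I_re, Complex.I_im] at e2
    apply Complex.ext
    · simpa using e1
    · have : (f t).im = 0 := by linarith
      simpa using this
  have hlt : ∫ θ in (0 : ℝ)..(2 * Real.pi), ‖T (u θ)‖ ^ p <
      ∫ θ in (0 : ℝ)..(2 * Real.pi), ‖T‖ ^ p * ‖u θ‖ ^ p := by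
    have hTc : Continuous fun θ => ‖T (u θ)‖ ^ p :=
      ((T.continuous.comp huc).norm).rpow_const (fun _ => Or.inr hp0.le)
    have huc' : Continuous fun θ => ‖T‖ ^ p * ‖u θ‖ ^ p :=
      continuous_const.mul (huc.norm.rpow_const (fun _ => Or.inr hp0.le))
    refine intervalIntegral.integral_lt_integral_of_continuousOn_of_le_of_exists_lt
      (by positivity) hTc.continuousOn huc'.continuousOn ?_ ?_
    · intro θ _
      rw [← Real.mul_rpow (norm_nonneg _) (norm_nonneg _)]
      exact Real.rpow_le_rpow (norm_nonneg _) (T.le_opNorm _) hp0.le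
    · obtain ⟨θ, h1, h2⟩ := hne
      refine ⟨θ, h1, ?_⟩
      rw [← Real.mul_rpow (norm_nonneg _) (norm_nonneg _)]
      exact Real.rpow_lt_rpow (norm_nonneg _) (hT _ h2) hp0
  rw [intervalIntegral.integral_const_mul, hC] at hlt
  have h1 : cc p * ‖S f‖ ^ p < cc p * (‖T‖ * ‖f‖) ^ p := by
    rw [Real.mul_rpow (norm_nonneg _) (norm_nonneg _)]
    calc cc p * ‖S f‖ ^ p ≤ _ := hD
      _ < _ := hlt
      _ = _ := by ring
  have h2 := lt_of_mul_lt_mul_left h1 hcc.le
  exact (Real.rpow_lt_rpow_iff (norm_nonneg _) (by positivity) hp0).1 h2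

end Pool.Agent.Q198.WM.TaskC7
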