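import Pool.Agent.Q198.WM.Stmts

namespace Pool.Agent.Q198.WM.TaskCalc

open Filter Topology

theorem main : Pool.Agent.Q198.WM.TaskCalc := by
  intro p q A B C D hp hq hB hAB hC hD
  have hp0 : 0 < p := by linarith
  have hq0 : 0 < q := by linarith
  have hLc : Continuous (fun s : ℝ => 1 + A * s ^ 2 - C * s ^ 4) := by fun_prop
  have hL : ∀ᶠ s : ℝ in 𝓝 0, 0 < 1 + A * s ^ 2 - C * s ^ 4 := by
    have := hLc.tendsto 0
    simp only [ne_eq, OfNat.ofNat_ne_zero, not_false_eq_true, zero_pow, mul_zero, add_zero,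
      sub_zero] at this
    exact this.eventually (lt_mem_nhds one_pos)
  have hf : ContinuousAt (fun s : ℝ => (A - C * s ^ 2) / (1 + A * s ^ 2 - C * s ^ 4) / q
      - (B + D * s ^ 2) / p) 0 := by
    apply ContinuousAt.sub
    · apply ContinuousAt.div_const
      apply ContinuousAt.div
      · fun_prop
      · fun_prop
      · norm_num
    · fun_prop
  have hF : ∀ᶠ s : ℝ in 𝓝 0, 0 < (A - C * s ^ 2) / (1 + A * s ^ 2 - C * s ^ 4) / q
      - (B + D * s ^ 2) / p := by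
    have h0 : (0 : ℝ) < (A - C * (0 : ℝ) ^ 2) / (1 + A * (0 : ℝ) ^ 2 - C * (0 : ℝ) ^ 4) / q
      - (B + D * (0 : ℝ) ^ 2) / p := by
      norm_num
      exact hAB
    exact hf.eventually (lt_mem_nhds h0)
  have hW : ∀ᶠ s : ℝ in 𝓝[>] 0, (0 < 1 + A * s ^ 2 - C * s ^ 4 ∧
      0 < (A - C * s ^ 2) / (1 + A * s ^ 2 - C * s ^ 4) / q - (B + D * s ^ 2) / p) ∧ 0 < s :=
    ((hL.and hF).filter_mono nhdsWithin_le_nhds).and self_mem_nhdsWithin
  obtain ⟨s, ⟨hs1, hs2⟩, hs0⟩ := hW.exists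
  refine ⟨s, hs0, hs1, ?_⟩
  have hU : 0 < 1 + B * s ^ 2 + D * s ^ 4 := by positivity
  rw [Real.rpow_def_of_pos hU, Real.rpow_def_of_pos hs1]
  apply Real.exp_lt_exp.mpr
  have h1 : Real.log (1 + B * s ^ 2 + D * s ^ 4) ≤ B * s ^ 2 + D * s ^ 4 := by
    have := Real.log_le_sub_one_of_pos hU
    linarith
  have h2 : 1 - (1 + A * s ^ 2 - C * s ^ 4)⁻¹ ≤ Real.log (1 + A * s ^ 2 - C * s ^ 4) :=
    Real.one_sub_inv_le_log_of_pos hs1
  have h3 : 1 - (1 + A * s ^ 2 - C * s ^ 4)⁻¹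
      = s ^ 2 * ((A - C * s ^ 2) / (1 + A * s ^ 2 - C * s ^ 4)) := by
    have hne : 1 + A * s ^ 2 - C * s ^ 4 ≠ 0 := ne_of_gt hs1
    have e : s ^ 2 * (A - C * s ^ 2) = (1 + A * s ^ 2 - C * s ^ 4) - 1 := by ring
    rw [← mul_div_assoc, e, sub_div, div_self hne, one_div]
  have hs2' : 0 < s ^ 2 := by positivity
  calc Real.log (1 + B * s ^ 2 + D * s ^ 4) * (1 / p)
      ≤ (B * s ^ 2 + D * s ^ 4) * (1 / p) := by
        apply mul_le_mul_of_nonneg_right h1 (by positivity)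
    _ = s ^ 2 * ((B + D * s ^ 2) / p) := by ring
    _ < s ^ 2 * ((A - C * s ^ 2) / (1 + A * s ^ 2 - C * s ^ 4) / q) := by
        apply mul_lt_mul_of_pos_left _ hs2'
        linarith
    _ = (1 - (1 + A * s ^ 2 - C * s ^ 4)⁻¹) * (1 / q) := by
        rw [h3]; ring
    _ ≤ Real.log (1 + A * s ^ 2 - C * s ^ 4) * (1 / q) := by
        apply mul_le_mul_of_nonneg_right h2 (by positivity)

end Pool.Agent.Q198.WM.TaskCalc
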