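import Pool.Agent.Q198.WM.Stmts

set_option autoImplicit false

namespace Pool.Agent.Q198.WM.TaskComp

open MeasureTheory ProbabilityTheory Finset Filter Topology

theorem main : Pool.Agent.Q198.WM.TaskComp := by
  rintro g hg p hp h ⟨hm, hi, hle⟩ n
  have hgn : Measurable (g n) := hg.meas n
  have hp0 : ENNReal.ofReal p ≠ 0 := by
    simp; linarith
  have hpt : ENNReal.ofReal p ≠ ⊤ := ENNReal.ofReal_ne_top
  have hL : MemLp h (ENNReal.ofReal p) gam := by
    rw [← integrable_norm_rpow_iff hm.aestronglyMeasurable hp0 hpt,
      ENNReal.toReal_ofReal (by linarith)]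
    simpa [Real.norm_eq_abs] using hi
  have hmap : ∀ f : ℝ → ℝ, Measurable f → ∫ t : unitInterval, f (g n t) = ∫ x, f x ∂gam := by
    intro f hf
    rw [← hg.law n, integral_map hgn.aemeasurable hf.aestronglyMeasurable]
  refine ⟨?_, ?_, hmap h hm, hmap (fun x => h x * x) (hm.mul measurable_id), ?_⟩
  · have h1 : MemLp h (ENNReal.ofReal p) ((volume : Measure unitInterval).map (g n)) := by
      rw [hg.law n]; exact hL
    exact (memLp_map_measure_iff hm.aestronglyMeasurable hgn.aemeasurable).1 h1
  · rw [hmap (fun x => |h x| ^ p) (by fun_prop)]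
    exact hle
  · intro k hk
    have hind : IndepFun (g n) (g k) (volume : Measure unitInterval) :=
      hg.indep.indepFun (Ne.symm hk)
    have hind2 : IndepFun (fun t => h (g n t)) (g k) (volume : Measure unitInterval) :=
      hind.comp (φ := h) (ψ := fun x => x) hm measurable_id
    have h0 : ∫ t : unitInterval, g k t = 0 := by
      have : ∫ t : unitInterval, g k t = ∫ x, x ∂gam := by
        rw [← hg.law k, integral_map (hg.meas k).aemeasurable
          (f := fun x : ℝ => x) measurable_id.aestronglyMeasurable]
      rw [this]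
      unfold gam
      exact integral_id_gaussianReal
    have h1 := hind2.integral_fun_mul_eq_mul_integral
      (hm.comp hgn).aestronglyMeasurable (hg.meas k).aestronglyMeasurable
    rw [h1, h0, mul_zero]

end Pool.Agent.Q198.WM.TaskComp
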