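import Pool.Agent.Q198.WM.Stmts

/-! # The span of the Gaussians in `L_r` -/

namespace Pool.Agent.Q198.WM.TaskD1

open Pool.Agent.Q198.WM
open MeasureTheory ProbabilityTheory Finset Filter Topology

theorem main : Pool.Agent.Q198.WM.TaskD1 := by
  intro hLaw hInt hSN hNL g hg r hr _
  classical
  have hm : ∀ (a : ℝ) (F : Finset ℕ) (c : ℕ → ℝ),
      MemLp (fun t => a + ∑ n ∈ F, c n * g n t) (ENNReal.ofReal r)
        (volume : Measure unitInterval) := fun a F c => (hSN hLaw hInt g hg r hr.le a F c).1
  have h1 : MemLp (fun _ : unitInterval => (1 : ℝ)) (ENNReal.ofReal r)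
      (volume : Measure unitInterval) := memLp_const 1
  have hG : ∀ n, MemLp (g n) (ENNReal.ofReal r) (volume : Measure unitInterval) := by
    intro n
    have h := hm 0 {n} (fun _ => 1)
    simpa using h
  have key : ∀ (a : ℝ) (c : ℕ → ℝ) (F : Finset ℕ),
      a • h1.toLp (fun _ : unitInterval => (1 : ℝ)) + ∑ n ∈ F, c n • (hG n).toLp (g n) =
        (hm a F c).toLp (fun t => a + ∑ n ∈ F, c n * g n t) := by
    intro a c F
    induction F using Finset.induction_on with
    | empty =>
      rw [Finset.sum_empty, add_zero, ← MemLp.toLp_const_smul]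
      refine MemLp.toLp_congr _ _ (Eventually.of_forall fun t => ?_)
      simp
    | insert n F hn ih =>
      rw [Finset.sum_insert hn, ← add_assoc, add_comm (a • _) _, add_assoc, ih,
        ← MemLp.toLp_const_smul, ← MemLp.toLp_add]
      refine MemLp.toLp_congr _ _ (Eventually.of_forall fun t => ?_)
      simp only [Pi.add_apply, Pi.smul_apply, smul_eq_mul, Finset.sum_insert hn]
      ring
  refine ⟨h1.toLp (fun _ => (1 : ℝ)), fun n => (hG n).toLp (g n), fun a F c => ?_⟩
  rw [key a c F, hNL r hr.le _ (hm a F c), (hSN hLaw hInt g hg r hr.le a F c).2]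

end Pool.Agent.Q198.WM.TaskD1
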