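import Pool.Agent.Q198.WM.Stmts

set_option autoImplicit false

namespace Pool.Agent.Q198.WM.TaskD2

open MeasureTheory ProbabilityTheory Finset Filter Topology

theorem main : Pool.Agent.Q198.WM.TaskD2 := by
  intro hLaw hInt hSum hF hFB g hg p p' hpp _
  have hp' : 1 ≤ p' := hpp.symm.lt.le
  have hone : MemLp (fun _ : unitInterval => (1 : ℝ)) (ENNReal.ofReal p')
      (volume : Measure unitInterval) := memLp_const 1
  have hgm : ∀ n, MemLp (g n) (ENNReal.ofReal p') (volume : Measure unitInterval) := by
    intro n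
    have := (hSum hLaw hInt g hg p' hp' 0 {n} (fun _ => 1)).1
    simpa using this
  obtain ⟨α, hα⟩ := hF p p' hpp _ hone
  choose v hv using fun n => hF p p' hpp _ (hgm n)
  refine ⟨α, v, fun f => by rw [hα]; simp, hv, ?_⟩
  intro f a F c
  have h1 : Integrable (fun t => f t * (1 : ℝ)) (volume : Measure unitInterval) :=
    (hFB p p' hpp _ hone f).1
  have h2 : ∀ n, Integrable (fun t => f t * g n t) (volume : Measure unitInterval) :=
    fun n => (hFB p p' hpp _ (hgm n) f).1
  have hk := hSum hLaw hInt g hg p' hp' a F c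
  have h3 := (hFB p p' hpp _ hk.1 f).2
  rw [hk.2] at h3
  have e : ∫ t, f t * (a + ∑ n ∈ F, c n * g n t) = a * α f + ∑ n ∈ F, c n * v n f := by
    have e1 : ∀ t, f t * (a + ∑ n ∈ F, c n * g n t) =
        a * (f t * (1 : ℝ)) + ∑ n ∈ F, c n * (f t * g n t) := by
      intro t
      rw [mul_add, Finset.mul_sum]
      congr 1
      · ring
      · exact Finset.sum_congr rfl fun n _ => by ring
    simp_rw [e1]
    rw [integral_add (h1.const_mul a) (integrable_finsetSum _ fun n _ => (h2 n).const_mul (c n)),
      integral_const_mul, integral_finsetSum _ (fun n _ => (h2 n).const_mul (c n)), hα]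
    congr 1
    refine Finset.sum_congr rfl fun n _ => ?_
    rw [integral_const_mul, hv]
  rw [← e]
  exact h3

end Pool.Agent.Q198.WM.TaskD2
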