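import Pool.Agent.Q198.WM.Stmts

set_option autoImplicit false

namespace Pool.Agent.Q198.WM.TaskD3

open MeasureTheory ProbabilityTheory Finset Filter Topology

theorem main : Pool.Agent.Q198.WM.TaskD3 := by
  intro hComp hNorm g hg p hp _ h hh n
  obtain ⟨hm, h1, h2, h3, h4⟩ := hComp g hg p hp h hh n
  have hae : (hm.toLp (fun t => h (g n t)) : unitInterval → ℝ) =ᵐ[volume] fun t => h (g n t) :=
    hm.coeFn_toLp
  refine ⟨hm.toLp _, ?_, ?_, ?_, ?_⟩
  · rw [hNorm p hp.le _ hm]
    apply Real.rpow_le_one
    · exact integral_nonneg fun t => Real.rpow_nonneg (abs_nonneg _) _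
    · exact h1
    · positivity
  · rw [← h2]
    exact integral_congr_ae hae
  · rw [← h3]
    apply integral_congr_ae
    filter_upwards [hae] with t ht
    rw [ht]
  · intro k hk
    rw [← h4 k hk]
    apply integral_congr_ae
    filter_upwards [hae] with t ht
    rw [ht]

end Pool.Agent.Q198.WM.TaskD3
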