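import Pool.Agent.Q198.WM.Stmts

set_option autoImplicit false

namespace Pool.Agent.Q198.WM.TaskExist

open MeasureTheory ProbabilityTheory Pool.Agent.Q198.WM

theorem main : Pool.Agent.Q198.WM.TaskExist := by
  obtain ⟨f, hf, hmap⟩ :=
    MeasureTheory.Measure.exists_measurable_map_eq (Measure.infinitePi (fun _ : ℕ => gaussianReal 0 1))
  have hlaw : ∀ n, (volume : Measure unitInterval).map (fun t => f t n) = gaussianReal 0 1 := by
    intro n
    have h1 : (fun t => f t n) = (fun w : ℕ → ℝ => w n) ∘ f := rfl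
    rw [h1, ← Measure.map_map (measurable_pi_apply n) hf, hmap]
    exact Measure.infinitePi_map_eval (fun _ : ℕ => gaussianReal 0 1) n
  have hm : ∀ n, Measurable (fun t => f t n) := fun n => (measurable_pi_apply n).comp hf
  refine ⟨fun n t => f t n, ⟨hm, ?_, hlaw⟩⟩
  refine (iIndepFun_iff_map_fun_eq_infinitePi_map (X := fun n t => f t n) hm).2 ?_
  have h2 : (fun (ω : unitInterval) (i : ℕ) => f ω i) = f := rfl
  rw [h2, hmap]
  congr 1
  funext n
  exact (hlaw n).symm

end Pool.Agent.Q198.WM.TaskExist
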