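import Pool.Agent.Q198.WM.Stmts

set_option autoImplicit false

namespace Pool.Agent.Q198.WM.TaskExpLow

open MeasureTheory ProbabilityTheory Finset Filter Topology

theorem main : Pool.Agent.Q198.WM.TaskExpLow := by
  intro hPt hInt q η hq hη
  obtain ⟨C, hC, hpt⟩ := hPt q η hq hη
  have hprob : IsProbabilityMeasure gam := by unfold gam; infer_instance
  have i1 : Integrable (fun x : ℝ => x) gam := by
    have h := (memLp_id_gaussianReal' (μ := 0) (v := 1) 1 (by simp)).integrable le_rfl
    exact h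
  have i2 : Integrable (fun x : ℝ => x ^ 2) gam := by
    have h := hInt 2 0 1 (by norm_num)
    refine h.congr (Eventually.of_forall fun x => ?_)
    change |0 + 1 * x| ^ (2 : ℝ) = x ^ 2
    rw [zero_add, one_mul, Real.rpow_two, sq_abs]
  have i4 : Integrable (fun x : ℝ => x ^ 4) gam := by
    have h := hInt 4 0 1 (by norm_num)
    refine h.congr (Eventually.of_forall fun x => ?_)
    change |0 + 1 * x| ^ (4 : ℝ) = x ^ 4
    rw [zero_add, one_mul, show (4 : ℝ) = ((4 : ℕ) : ℝ) by norm_num, Real.rpow_natCast,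
      show |x| ^ 4 = (|x| ^ 2) ^ 2 by ring, sq_abs]
    ring
  have e1 : ∫ x, x ∂gam = 0 := integral_id_gaussianReal
  have e2 : ∫ x, x ^ 2 ∂gam = 1 := by
    have h : Var[fun x : ℝ => x; gam] = ((1 : NNReal) : ℝ) := variance_fun_id_gaussianReal
    have h2 : Var[fun x : ℝ => x; gam] = ∫ x, x ^ 2 ∂gam :=
      variance_of_integral_eq_zero measurable_id.aemeasurable e1
    rw [← h2, h]
    simp
  refine ⟨C * ∫ x, x ^ 4 ∂gam, mul_nonneg hC (integral_nonneg fun x => by positivity), fun s => ?_⟩
  have hmono : ∫ x, (1 + q * s * x + (q * (q - 1) / 2 - η) * s ^ 2 * x ^ 2 - C * s ^ 4 * x ^ 4) ∂gam ≤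
      ∫ x, |1 + s * x| ^ q ∂gam := by
    refine integral_mono ?_ (hInt q 1 s (by linarith)) fun x => ?_
    · exact (((integrable_const _).add (i1.const_mul _)).add (i2.const_mul _)).sub (i4.const_mul _)
    · have h := hpt (s * x)
      have e : 1 + q * (s * x) + (q * (q - 1) / 2 - η) * (s * x) ^ 2 - C * (s * x) ^ 4 =
        1 + q * s * x + (q * (q - 1) / 2 - η) * s ^ 2 * x ^ 2 - C * s ^ 4 * x ^ 4 := by ring
      rw [e] at h
      exact h
  have j0 : Integrable (fun _ : ℝ => (1 : ℝ)) gam := integrable_const _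
  have j1 : Integrable (fun x : ℝ => q * s * x) gam := i1.const_mul _
  have j2 : Integrable (fun x : ℝ => (q * (q - 1) / 2 - η) * s ^ 2 * x ^ 2) gam := i2.const_mul _
  have j4 : Integrable (fun x : ℝ => C * s ^ 4 * x ^ 4) gam := i4.const_mul _
  have k1 : Integrable (fun x : ℝ => 1 + q * s * x) gam := j0.add j1
  have k2 : Integrable (fun x : ℝ => 1 + q * s * x + (q * (q - 1) / 2 - η) * s ^ 2 * x ^ 2) gam :=
    k1.add j2
  rw [integral_sub k2 j4, integral_add k1 j2, integral_add j0 j1,
    integral_const_mul, integral_const_mul, integral_const_mul, e1, e2, integral_const] at hmono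
  simp only [probReal_univ, smul_eq_mul] at hmono
  linarith

end Pool.Agent.Q198.WM.TaskExpLow
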