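import Pool.Agent.Q198.WM.Stmts

/-! # Proof of `TaskExpUp` -/

set_option autoImplicit false

namespace Pool.Agent.Q198.WM.TaskExpUp

open MeasureTheory ProbabilityTheory Filter Topology

private instance prob_gam : IsProbabilityMeasure gam := by unfold gam; infer_instance

private lemma int1 : Integrable (fun x : ℝ => x) gam := by
  have h := memLp_id_gaussianReal (μ := 0) (v := 1) 1
  have h2 := memLp_one_iff_integrable.1 (by simpa using h)
  exact h2

private lemma mean : ∫ x : ℝ, x ∂gam = 0 := by
  unfold gam
  exact integral_id_gaussianReal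

private lemma second : ∫ x : ℝ, x ^ 2 ∂gam = 1 := by
  have h1 : Var[(fun x : ℝ => x); gam] = 1 := by
    unfold gam
    have := variance_fun_id_gaussianReal (μ := 0) (v := 1)
    simpa using this
  rw [variance_of_integral_eq_zero (by fun_prop) mean] at h1
  exact h1

theorem main : Pool.Agent.Q198.WM.TaskExpUp := by
  intro hPt hInt p η hp1 hp2 hη
  obtain ⟨C, hC0, hC⟩ := hPt p η hp1 hp2 hη
  have i2 : Integrable (fun x : ℝ => x ^ 2) gam := by
    have h := hInt 2 0 1 (by norm_num)
    refine h.congr ?_
    filter_upwards with x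
    rw [zero_add, one_mul]
    have : (2 : ℝ) = ((2 : ℕ) : ℝ) := by norm_num
    rw [this, Real.rpow_natCast, sq_abs]
  have i4 : Integrable (fun x : ℝ => x ^ 4) gam := by
    have h := hInt 4 0 1 (by norm_num)
    refine h.congr ?_
    filter_upwards with x
    rw [zero_add, one_mul]
    have : (4 : ℝ) = ((4 : ℕ) : ℝ) := by norm_num
    rw [this, Real.rpow_natCast]
    exact Even.pow_abs ⟨2, rfl⟩ x
  have m4 : 0 ≤ ∫ x : ℝ, x ^ 4 ∂gam := by
    apply integral_nonneg
    intro x
    positivity
  refine ⟨C * ∫ x : ℝ, x ^ 4 ∂gam, by positivity, fun s => ?_⟩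
  have hle : ∫ x, |1 + s * x| ^ p ∂gam ≤
      ∫ x, (1 + p * s * x + (p * (p - 1) / 2 + η) * s ^ 2 * x ^ 2 + C * s ^ 4 * x ^ 4) ∂gam := by
    apply integral_mono (hInt p 1 s (by linarith))
    · exact (((integrable_const 1).add (int1.const_mul _)).add (i2.const_mul _)).add (i4.const_mul _)
    · intro x
      have := hC (s * x)
      simp only
      calc |1 + s * x| ^ p ≤ _ := this
        _ = _ := by ring
  refine hle.trans (le_of_eq ?_)
  have j1 : Integrable (fun x : ℝ => (1 : ℝ) + p * s * x) gam :=
    (integrable_const 1).add (int1.const_mul _)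
  have j2 : Integrable (fun x : ℝ => (1 : ℝ) + p * s * x + (p * (p - 1) / 2 + η) * s ^ 2 * x ^ 2) gam :=
    j1.add (i2.const_mul _)
  rw [integral_add j2 (i4.const_mul _), integral_add j1 (i2.const_mul _),
    integral_add (integrable_const 1) (int1.const_mul _), integral_const_mul, integral_const_mul,
    integral_const_mul, mean, second]
  simp
  ring

end Pool.Agent.Q198.WM.TaskExpUp
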