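import Pool.Agent.Q198.WM.Stmts

/-! MP_30e1ee_an: task `TaskExt` of the blueprint in `Pool/Agent/Q198/WM/Stmts.lean`. -/

namespace Pool.Agent.Q198.WM.TaskExt

open MeasureTheory ProbabilityTheory

private theorem aux1 (w p' : ℝ) (hp' : 0 < p') :
    w * |w| ^ (p' - 2) * w = |w| ^ p' := by
  by_cases hw : w = 0
  · subst hw
    simp [Real.zero_rpow hp'.ne']
  · have hw' : 0 < |w| := abs_pos.2 hw
    have : |w| ^ p' = |w| ^ (p' - 2) * |w| ^ (2 : ℝ) := by
      rw [← Real.rpow_add hw']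
      congr 1
      ring
    rw [this, Real.rpow_two, sq_abs]
    ring

private theorem aux2 (w p p' : ℝ) (hp : 0 < p) (hp' : 0 < p') (h : (p' - 1) * p = p') :
    |w * |w| ^ (p' - 2)| ^ p = |w| ^ p' := by
  by_cases hw : w = 0
  · subst hw
    simp [Real.zero_rpow hp'.ne', Real.zero_rpow hp.ne']
  · have hw' : 0 < |w| := abs_pos.2 hw
    have e : |w * |w| ^ (p' - 2)| = |w| ^ (p' - 1) := by
      rw [abs_mul, abs_of_nonneg (Real.rpow_nonneg (abs_nonneg w) _)]
      nth_rewrite 1 [← Real.rpow_one |w|]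
      rw [← Real.rpow_add hw']
      congr 1
      ring
    rw [e, ← Real.rpow_mul hw'.le, h]

theorem main : Pool.Agent.Q198.WM.TaskExt := by
  intro hInt p p' hpq a b
  have hp : 0 < p := hpq.pos
  have hp' : 0 < p' := hpq.symm.pos
  have hmul : (p' - 1) * p = p' := hpq.symm.sub_one_mul_conj
  have hinv : p⁻¹ + p'⁻¹ = 1 := hpq.inv_add_inv_eq_one
  have hI0 : 0 ≤ ∫ x, |a + b * x| ^ p' ∂gam :=
    integral_nonneg (fun x => Real.rpow_nonneg (abs_nonneg _) _)
  rcases hI0.eq_or_lt with h0 | hpos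
  · refine ⟨fun _ => 0, ⟨measurable_const, ?_, ?_⟩, ?_⟩
    · simp [Real.zero_rpow hp.ne']
    · simp [Real.zero_rpow hp.ne']
    · unfold nrm
      rw [← h0]
      rw [Real.zero_rpow (by positivity)]
      simp
  · have hc : 0 < (∫ x, |a + b * x| ^ p' ∂gam) ^ (-p⁻¹) := Real.rpow_pos_of_pos hpos _
    have hcp : ((∫ x, |a + b * x| ^ p' ∂gam) ^ (-p⁻¹)) ^ p =
        (∫ x, |a + b * x| ^ p' ∂gam)⁻¹ := by
      rw [← Real.rpow_mul hpos.le, neg_mul, inv_mul_cancel₀ hp.ne', Real.rpow_neg_one]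
    have h1 : (fun x => |(∫ x, |a + b * x| ^ p' ∂gam) ^ (-p⁻¹) *
        ((a + b * x) * |a + b * x| ^ (p' - 2))| ^ p) =
        fun x => (∫ x, |a + b * x| ^ p' ∂gam)⁻¹ * |a + b * x| ^ p' := by
      funext x
      rw [abs_mul, abs_of_pos hc, Real.mul_rpow hc.le (abs_nonneg _), hcp, aux2 _ p p' hp hp' hmul]
    have h2 : (fun x => (∫ x, |a + b * x| ^ p' ∂gam) ^ (-p⁻¹) *
        ((a + b * x) * |a + b * x| ^ (p' - 2)) * (a + b * x)) =
        fun x => (∫ x, |a + b * x| ^ p' ∂gam) ^ (-p⁻¹) * |a + b * x| ^ p' := by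
      funext x
      rw [mul_assoc, aux1 _ p' hp']
    refine ⟨fun x => (∫ x, |a + b * x| ^ p' ∂gam) ^ (-p⁻¹) *
        ((a + b * x) * |a + b * x| ^ (p' - 2)), ⟨?_, ?_, ?_⟩, ?_⟩
    · have hm : Measurable (fun x : ℝ => a + b * x) := by fun_prop
      exact (hm.mul ((continuous_abs.measurable.comp hm).pow_const _)).const_mul _
    · rw [h1]
      exact (hInt p' a b hp'.le).const_mul _
    · rw [h1, integral_const_mul, inv_mul_cancel₀ hpos.ne']
    · rw [h2, integral_const_mul]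
      unfold nrm
      nth_rewrite 2 [← Real.rpow_one (∫ x, |a + b * x| ^ p' ∂gam)]
      rw [← Real.rpow_add hpos]
      congr 1
      rw [one_div]
      linarith

end Pool.Agent.Q198.WM.TaskExt
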