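import Pool.Agent.Q198.WM.Stmts

set_option autoImplicit false

namespace Pool.Agent.Q198.WM.TaskFunc

open MeasureTheory ProbabilityTheory Finset Filter Topology

theorem main : Pool.Agent.Q198.WM.TaskFunc := by
  intro p p' hpp k hk _
  have hc : (ENNReal.ofReal p).HolderConjugate (ENNReal.ofReal p') := by
    exact Real.HolderConjugate.ennrealOfReal hpp
  haveI : Fact (1 ≤ ENNReal.ofReal p') := ⟨by
    rw [← ENNReal.ofReal_one]
    exact ENNReal.ofReal_le_ofReal hpp.symm.lt.le⟩
  refine ⟨((ContinuousLinearMap.mul ℝ ℝ).lpPairing (volume : Measure unitInterval)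
    (ENNReal.ofReal p) (ENNReal.ofReal p')).flip (hk.toLp k), ?_⟩
  intro f
  rw [ContinuousLinearMap.flip_apply, ContinuousLinearMap.lpPairing_eq_integral]
  refine integral_congr_ae ?_
  filter_upwards [hk.coeFn_toLp] with t ht
  simp only [ContinuousLinearMap.mul_apply', ht]

end Pool.Agent.Q198.WM.TaskFunc
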