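import Mathlib
import Pool.Agent.Q198.WM.Stmts

open MeasureTheory

namespace Pool.Agent.Q198.WM.TaskFuncBd

theorem main : Pool.Agent.Q198.WM.TaskFuncBd := by
  intro p p' hp k hk _ f
  have hf := Lp.memLp f
  have : ENNReal.HolderConjugate (ENNReal.ofReal p) (ENNReal.ofReal p') := hp.ennrealOfReal
  have hint : Integrable (fun t => f t * k t) (volume : Measure unitInterval) :=
    MemLp.integrable_mul hf hk
  refine ⟨hint, ?_⟩
  have h1 := integral_mul_norm_le_Lp_mul_Lq hp hf hk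
  have hp0 : ENNReal.ofReal p ≠ 0 := by
    simpa using hp.pos
  have hnorm : ‖f‖ = (∫ t, ‖f t‖ ^ p) ^ (1 / p) := by
    rw [Lp.norm_def, hf.eLpNorm_eq_integral_rpow_norm hp0 ENNReal.ofReal_ne_top,
      ENNReal.toReal_ofReal hp.nonneg, ENNReal.toReal_ofReal (by positivity), one_div]
  calc |∫ t, f t * k t| ≤ ∫ t, |f t * k t| := abs_integral_le_integral_abs
    _ = ∫ t, ‖f t‖ * ‖k t‖ := by simp only [abs_mul, Real.norm_eq_abs]
    _ ≤ (∫ t, ‖f t‖ ^ p) ^ (1 / p) * (∫ t, ‖k t‖ ^ p') ^ (1 / p') := h1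
    _ = ‖f‖ * (∫ t, |k t| ^ p') ^ (1 / p') := by rw [hnorm]; simp only [Real.norm_eq_abs]

end Pool.Agent.Q198.WM.TaskFuncBd
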