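import Pool.Agent.Q198.WM.Stmts

open MeasureTheory ProbabilityTheory Finset Filter Topology

namespace Pool.Agent.Q198.WM.TaskHold

theorem memLp_aux (f : ℝ → ℝ) (hf : Measurable f) (r : ℝ) (hr : 0 < r)
    (hi : Integrable (fun x => |f x| ^ r) gam) : MemLp f (ENNReal.ofReal r) gam := by
  have h1 : ENNReal.ofReal r ≠ 0 := by
    intro h
    exact absurd (ENNReal.ofReal_eq_zero.mp h) (not_le.mpr hr)
  rw [← integrable_norm_rpow_iff hf.aestronglyMeasurable h1 ENNReal.ofReal_ne_top]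
  simpa only [Real.norm_eq_abs, ENNReal.toReal_ofReal hr.le] using hi

theorem main : Pool.Agent.Q198.WM.TaskHold := by
  intro hInt p p' hpp h hh
  obtain ⟨hm, hi, hle⟩ := hh
  have hprob : IsProbabilityMeasure gam := by
    unfold gam
    infer_instance
  have hp0 : 0 < p := hpp.pos
  have hp1 : 1 < p := hpp.lt
  have hp'0 : 0 < p' := hpp.symm.pos
  have hL : MemLp h (ENNReal.ofReal p) gam := memLp_aux h hm p hp0 hi
  have hw : ∀ a b : ℝ, MemLp (fun x => a + b * x) (ENNReal.ofReal p') gam := fun a b =>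
    memLp_aux _ (by fun_prop) p' hp'0 (hInt p' a b hp'0.le)
  have hT : (ENNReal.ofReal p).HolderConjugate (ENNReal.ofReal p') := hpp.ennrealOfReal
  have hx : MemLp (fun x : ℝ => x) (ENNReal.ofReal p') gam := by simpa using hw 0 1
  refine ⟨hL.integrable ?_, hL.integrable_mul hx, ?_⟩
  · rw [ENNReal.one_le_ofReal]
    exact hp1.le
  · intro a b
    have h1 := integral_mul_norm_le_Lp_mul_Lq hpp hL (hw a b)
    have h2 : |∫ x, h x * (a + b * x) ∂gam| ≤ ∫ x, ‖h x‖ * ‖a + b * x‖ ∂gam := by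
      have h5 := norm_integral_le_integral_norm (μ := gam) (fun x => h x * (a + b * x))
      rw [Real.norm_eq_abs] at h5
      refine h5.trans (le_of_eq ?_)
      refine integral_congr_ae (Eventually.of_forall fun x => ?_)
      simp only [norm_mul]
    have h3 : (∫ x, ‖h x‖ ^ p ∂gam) ^ (1 / p) ≤ 1 := by
      refine Real.rpow_le_one ?_ ?_ (by positivity)
      · exact integral_nonneg fun x => by positivity
      · simpa only [Real.norm_eq_abs] using hle
    have h4 : 0 ≤ (∫ x, ‖a + b * x‖ ^ p' ∂gam) ^ (1 / p') := by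
      refine Real.rpow_nonneg ?_ _
      exact integral_nonneg fun x => by positivity
    calc |∫ x, h x * (a + b * x) ∂gam| ≤ ∫ x, ‖h x‖ * ‖a + b * x‖ ∂gam := h2
      _ ≤ (∫ x, ‖h x‖ ^ p ∂gam) ^ (1 / p) * (∫ x, ‖a + b * x‖ ^ p' ∂gam) ^ (1 / p') := h1
      _ ≤ 1 * (∫ x, ‖a + b * x‖ ^ p' ∂gam) ^ (1 / p') := mul_le_mul_of_nonneg_right h3 h4
      _ = nrm p' a b := by rw [one_mul]; rfl

end Pool.Agent.Q198.WM.TaskHold
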