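import Pool.Agent.Q198.WM.Stmts

/-! moments of the Gaussian measure (helper331) -/

namespace Pool.Agent.Q198.WM.TaskIBP

open MeasureTheory ProbabilityTheory Set Real

private theorem mom (s : ℝ) (hs : 0 ≤ s) : ∫ x, |x| ^ s ∂gam =
    (√(2 * π * (1 : NNReal)))⁻¹ *
      (2 * ((1 / 2 : ℝ) ^ (-(s + 1) / 2) * (1 / 2) * Real.Gamma ((s + 1) / 2))) := by
  unfold gam
  rw [integral_gaussianReal_eq_integral_smul (by norm_num)]
  have h1 : (fun x : ℝ => gaussianPDFReal 0 1 x • |x| ^ s) =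
      fun x : ℝ => (fun y : ℝ => (√(2 * π * (1 : NNReal)))⁻¹ *
        (y ^ s * rexp (-(1 / 2) * y ^ (2 : ℝ)))) |x| := by
    funext x
    simp only [gaussianPDFReal, smul_eq_mul]
    have h2 : -(x - 0) ^ 2 / (2 * ((1 : NNReal) : ℝ)) = -(1 / 2) * |x| ^ (2 : ℝ) := by
      rw [Real.rpow_two, sq_abs]
      push_cast
      ring
    rw [h2]
    ring
  rw [h1, integral_comp_abs (f := fun y : ℝ => (√(2 * π * (1 : NNReal)))⁻¹ *
        (y ^ s * rexp (-(1 / 2) * y ^ (2 : ℝ)))), integral_const_mul,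
    integral_rpow_mul_exp_neg_mul_rpow (by norm_num) (by linarith) (by norm_num)]
  ring

theorem main : Pool.Agent.Q198.WM.TaskIBP := by
  intro r hr
  rw [mom r (by linarith), mom (r - 2) (by linarith)]
  have h1 : (r + 1) / 2 = (r - 2 + 1) / 2 + 1 := by ring
  have h2 : -(r + 1) / 2 = -(r - 2 + 1) / 2 + (-1) := by ring
  rw [h1, Real.Gamma_add_one (by
    have : 0 < (r - 2 + 1) / 2 := by linarith
    exact this.ne'), h2, Real.rpow_add (by norm_num : (0 : ℝ) < 1 / 2), Real.rpow_neg_one]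
  ring

end Pool.Agent.Q198.WM.TaskIBP
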