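import Pool.Agent.Q198.WM.Stmts

set_option autoImplicit false

namespace Pool.Agent.Q198.WM.TaskInt

open MeasureTheory ProbabilityTheory

theorem main : Pool.Agent.Q198.WM.TaskInt := by
  intro r a b hr
  have : IsProbabilityMeasure gam := by unfold gam; infer_instance
  rcases eq_or_lt_of_le hr with h0 | h0
  · subst h0
    simp only [Real.rpow_zero]
    exact integrable_const 1
  · have h1 : MemLp (fun x : ℝ => x) (ENNReal.ofReal r) gam :=
      memLp_id_gaussianReal (Real.toNNReal r)
    have h2 : MemLp (fun x : ℝ => a + b * x) (ENNReal.ofReal r) gam :=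
      (memLp_const a).add (h1.const_mul b)
    have h3 := h2.integrable_norm_rpow (by simpa using h0) ENNReal.ofReal_ne_top
    simpa only [Real.norm_eq_abs, ENNReal.toReal_ofReal hr] using h3

end Pool.Agent.Q198.WM.TaskInt
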