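import Pool.Agent.Q198.WM.Stmts

set_option autoImplicit false

namespace Pool.Agent.Q198.WM.TaskLaw

open MeasureTheory ProbabilityTheory Finset Filter Topology
open Pool.Agent.Q198.WM

theorem map_scale (c : ℝ) :
    gam.map (fun x => c * x) = gaussianReal 0 (NNReal.mk (c ^ 2) (sq_nonneg c)) := by
  unfold gam
  have h := gaussianReal_map_const_mul (μ := 0) (v := 1) c
  rw [mul_zero, mul_one] at h
  exact h

theorem main : Pool.Agent.Q198.WM.TaskLaw := by
  intro g hg F c
  have hX : ∀ n, Measurable (fun t => c n * g n t) := fun n => (hg.meas n).const_mul (c n)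
  have hind : iIndepFun (fun n => fun t => c n * g n t) (volume : Measure unitInterval) :=
    hg.indep.comp (fun n x => c n * x) (fun n => measurable_const_mul (c n))
  have hlaw : ∀ n, (volume : Measure unitInterval).map (fun t => c n * g n t) =
      gaussianReal 0 (NNReal.mk (c n ^ 2) (sq_nonneg _)) := by
    intro n
    rw [← map_scale, ← hg.law n, Measure.map_map (measurable_const_mul (c n)) (hg.meas n)]
    rfl
  have key : ∀ F : Finset ℕ, (volume : Measure unitInterval).map
      (∑ n ∈ F, fun t => c n * g n t) =
      gaussianReal 0 (NNReal.mk (∑ n ∈ F, c n ^ 2) (Finset.sum_nonneg fun n _ => sq_nonneg _)) := by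
    intro F
    induction F using Finset.induction_on with
    | empty =>
      have e : NNReal.mk (∑ n ∈ (∅ : Finset ℕ), c n ^ 2)
          (Finset.sum_nonneg fun n _ => sq_nonneg _) = 0 := by
        apply NNReal.eq
        rw [NNReal.coe_mk, Finset.sum_empty, NNReal.coe_zero]
      rw [e, gaussianReal_zero_var, Finset.sum_empty]
      have : ((0 : unitInterval → ℝ)) = fun _ => (0 : ℝ) := rfl
      rw [this, Measure.map_const]
      simp
    | insert i F hi ih =>
      rw [Finset.sum_insert hi]
      have hI := hind.indepFun_finsetSum_of_notMem hX hi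
      have := gaussianReal_add_gaussianReal_of_indepFun hI.symm (hlaw i) ih
      rw [this, add_zero]
      congr 1
      apply NNReal.eq
      rw [NNReal.coe_add, NNReal.coe_mk, NNReal.coe_mk, NNReal.coe_mk, Finset.sum_insert hi]
  have e1 : (fun t => ∑ n ∈ F, c n * g n t) = ∑ n ∈ F, fun t => c n * g n t := by
    funext t
    rw [Finset.sum_apply]
  rw [e1, key F, map_scale]
  congr 1
  apply NNReal.eq
  rw [NNReal.coe_mk, NNReal.coe_mk]
  exact (Real.sq_sqrt (Finset.sum_nonneg fun n _ => sq_nonneg _)).symm

end Pool.Agent.Q198.WM.TaskLaw
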