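import Pool.Agent.Q198.WM.Stmts

namespace Pool.Agent.Q198.WM.TaskLip

open MeasureTheory ProbabilityTheory Finset Filter Topology Pool.Agent.Q198.WM

instance : IsProbabilityMeasure gam := by unfold gam; infer_instance

theorem mem (r a b : ℝ) : MemLp (fun x : ℝ => a + b * x) (ENNReal.ofReal r) gam := by
  have hid : MemLp (fun x : ℝ => x) (ENNReal.ofReal r) gam :=
    memLp_id_gaussianReal (Real.toNNReal r)
  exact (memLp_const a).add (hid.const_mul b)

theorem nrm_nonneg (r a b : ℝ) : 0 ≤ nrm r a b :=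
  Real.rpow_nonneg (integral_nonneg fun x => Real.rpow_nonneg (abs_nonneg _) _) _

theorem nrm_eq {r : ℝ} (hr : 1 < r) (a b : ℝ) :
    eLpNorm (fun x : ℝ => a + b * x) (ENNReal.ofReal r) gam = ENNReal.ofReal (nrm r a b) := by
  have h0 : ENNReal.ofReal r ≠ 0 := by
    rw [Ne, ENNReal.ofReal_eq_zero, not_le]
    linarith
  rw [(mem r a b).eLpNorm_eq_integral_rpow_norm h0 ENNReal.ofReal_ne_top,
    ENNReal.toReal_ofReal (by linarith), nrm, one_div]
  simp only [Real.norm_eq_abs]

theorem tri {r : ℝ} (hr : 1 < r) (a b c d : ℝ) :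
    nrm r (a + c) (b + d) ≤ nrm r a b + nrm r c d := by
  have h1 : (1 : ENNReal) ≤ ENNReal.ofReal r := by
    rw [ENNReal.one_le_ofReal]
    exact hr.le
  have h := eLpNorm_add_le (mem r a b).aestronglyMeasurable (mem r c d).aestronglyMeasurable h1
  have e : ((fun x : ℝ => a + b * x) + fun x => c + d * x) = fun x => (a + c) + (b + d) * x := by
    funext x
    simp only [Pi.add_apply]
    ring
  rw [e, nrm_eq hr, nrm_eq hr, nrm_eq hr, ← ENNReal.ofReal_add (nrm_nonneg _ _ _) (nrm_nonneg _ _ _)]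
    at h
  exact (ENNReal.ofReal_le_ofReal_iff (add_nonneg (nrm_nonneg _ _ _) (nrm_nonneg _ _ _))).1 h

theorem const {r : ℝ} (hr : 1 < r) (c : ℝ) : nrm r c 0 = |c| := by
  unfold nrm
  simp only [zero_mul, add_zero, integral_const, probReal_univ, smul_eq_mul, one_mul]
  rw [← Real.rpow_mul (abs_nonneg _), mul_one_div_cancel (by linarith), Real.rpow_one]

theorem homog {r : ℝ} (hr : 1 < r) (d : ℝ) : nrm r 0 d = |d| * nrm r 0 1 := by
  unfold nrm
  simp only [zero_add, one_mul, abs_mul]
  have h1 : ∀ x : ℝ, (|d| * |x|) ^ r = |d| ^ r * |x| ^ r := fun x =>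
    Real.mul_rpow (abs_nonneg _) (abs_nonneg _)
  simp only [h1]
  rw [integral_const_mul, Real.mul_rpow (Real.rpow_nonneg (abs_nonneg _) _)
    (integral_nonneg fun x => Real.rpow_nonneg (abs_nonneg _) _), ← Real.rpow_mul (abs_nonneg _),
    mul_one_div_cancel (by linarith), Real.rpow_one]

theorem main : Pool.Agent.Q198.WM.TaskLip := by
  intro _ r hr a b a' b'
  have h1 := tri hr a' b' (a - a') (b - b')
  have h2 := tri hr (a - a') 0 0 (b - b')
  rw [add_sub_cancel, add_sub_cancel] at h1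
  rw [add_zero, zero_add, const hr, homog hr] at h2
  linarith

end Pool.Agent.Q198.WM.TaskLip
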