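import Pool.Agent.Q198.WM.Stmts

set_option autoImplicit false

namespace Pool.Agent.Q198.WM.TaskM

open MeasureTheory ProbabilityTheory Finset Filter Topology

theorem main : Pool.Agent.Q198.WM.TaskM := by
  intro hMom hStr hIBP hInt hVal p p' q hpp hp2 hq2 hne
  have hp1 : 1 < p := hpp.lt
  have hp'1 : 1 < p' := hpp.symm.lt
  have hprod : (p - 1) * (p' - 1) = 1 := by
    have := hpp.mul_eq_add
    nlinarith
  have hp'2 : 2 ≤ p' := by nlinarith
  have hx : 0 < nrm q 0 1 := (hVal hInt q (by linarith)).2.2.1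
  have hy : 0 < nrm p' 0 1 := (hVal hInt p' hp'1).2.2.1
  have hx2 : nrm q 0 1 ^ 2 ≤ q - 1 := hMom hIBP hInt q hq2
  have hy2 : nrm p' 0 1 ^ 2 ≤ p' - 1 := hMom hIBP hInt p' hp'2
  have hcase : nrm q 0 1 ^ 2 < q - 1 ∨ nrm p' 0 1 ^ 2 < p' - 1 := by
    rcases eq_or_lt_of_le hq2 with h | h
    · right
      have hp : p < 2 := lt_of_le_of_ne hp2 (fun h' => hne ⟨h', h.symm⟩)
      exact hStr hIBP hInt p' (by nlinarith)
    · left
      exact hStr hIBP hInt q h
  have hlt : (nrm q 0 1 * nrm p' 0 1) ^ 2 * (p - 1) < q - 1 := by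
    have h1 : (nrm q 0 1 * nrm p' 0 1) ^ 2 < (q - 1) * (p' - 1) := by
      rw [mul_pow]
      rcases hcase with h | h
      · exact mul_lt_mul h hy2 (by positivity) (by linarith)
      · exact mul_lt_mul' hx2 h (by positivity) (by linarith)
    calc (nrm q 0 1 * nrm p' 0 1) ^ 2 * (p - 1) < (q - 1) * (p' - 1) * (p - 1) :=
          mul_lt_mul_of_pos_right h1 (by linarith)
      _ = (q - 1) * ((p - 1) * (p' - 1)) := by ring
      _ = q - 1 := by rw [hprod, mul_one]
  refine ⟨(nrm q 0 1 * nrm p' 0 1)⁻¹, by positivity, ?_, ?_⟩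
  · rw [inv_pow, ← div_eq_mul_inv, lt_div_iff₀ (by positivity)]
    linarith
  · have : (nrm q 0 1 * nrm p' 0 1)⁻¹ * nrm q 0 1 * nrm p' 0 1 = 1 := by
      field_simp
    exact this.le

end Pool.Agent.Q198.WM.TaskM
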