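import Pool.Agent.Q198.WM.Stmts

set_option autoImplicit false

namespace Pool.Agent.Q198.WM.TaskMom

open MeasureTheory ProbabilityTheory Finset Filter Topology

theorem main : Pool.Agent.Q198.WM.TaskMom := by
  intro hIBP hInt r hr
  have hr0 : 0 < r := by linarith
  have hprob : IsProbabilityMeasure gam := by
    unfold gam; infer_instance
  set M : ℝ := ∫ x, |x| ^ r ∂gam with hM
  have hM0 : 0 ≤ M := integral_nonneg fun x => Real.rpow_nonneg (abs_nonneg x) r
  have hnrm : nrm r 0 1 = M ^ (1 / r) := by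
    unfold nrm
    simp only [zero_add, one_mul, hM]
  have hsq : nrm r 0 1 ^ 2 = M ^ (2 / r) := by
    rw [hnrm, ← Real.rpow_natCast, ← Real.rpow_mul hM0]
    congr 1
    push_cast
    ring
  rw [hsq]
  rcases hM0.eq_or_lt with h0 | hpos
  · rw [← h0, Real.zero_rpow (by positivity)]
    linarith
  · have hθ0 : 0 ≤ (r - 2) / r := div_nonneg (by linarith) hr0.le
    have hθ1 : (r - 2) / r ≤ 1 := by
      rw [div_le_one hr0]; linarith
    have hpow : ∀ x : ℝ, (|x| ^ r) ^ ((r - 2) / r) = |x| ^ (r - 2) := by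
      intro x
      rw [← Real.rpow_mul (abs_nonneg x)]
      congr 1
      field_simp
    have hi1 : Integrable (fun x : ℝ => |x| ^ r) gam := by
      have := hInt r 0 1 hr0.le
      simpa using this
    have hi2 : Integrable (fun x : ℝ => |x| ^ (r - 2)) gam := by
      have := hInt (r - 2) 0 1 (by linarith)
      simpa using this
    have hJ : ∫ x, (|x| ^ r) ^ ((r - 2) / r) ∂gam ≤ (∫ x, |x| ^ r ∂gam) ^ ((r - 2) / r) := by
      apply ConcaveOn.le_map_integral (μ := gam) (s := Set.Ici (0:ℝ))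
        (g := fun t => t ^ ((r - 2) / r)) (f := fun x => |x| ^ r)
        (Real.concaveOn_rpow hθ0 hθ1) (Real.continuous_rpow_const hθ0).continuousOn isClosed_Ici
        (Eventually.of_forall fun x => Real.rpow_nonneg (abs_nonneg x) r) hi1
      have : ((fun t : ℝ => t ^ ((r - 2) / r)) ∘ fun x : ℝ => |x| ^ r) =
          fun x => |x| ^ (r - 2) := by
        funext x
        exact hpow x
      rw [this]
      exact hi2
    simp only [hpow] at hJ
    have h1 : M = (r - 1) * ∫ x, |x| ^ (r - 2) ∂gam := hIBP r hr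
    have h2 : M ≤ (r - 1) * M ^ ((r - 2) / r) := by
      calc M = (r - 1) * ∫ x, |x| ^ (r - 2) ∂gam := h1
        _ ≤ (r - 1) * M ^ ((r - 2) / r) := mul_le_mul_of_nonneg_left hJ (by linarith)
    have h3 : M ^ (2 / r) * M ^ ((r - 2) / r) = M := by
      rw [← Real.rpow_add hpos]
      have : 2 / r + (r - 2) / r = 1 := by field_simp; ring
      rw [this, Real.rpow_one]
    have h4 : 0 < M ^ ((r - 2) / r) := Real.rpow_pos_of_pos hpos _
    rw [← h3] at h2
    have h5 : M ^ (2 / r) * M ^ ((r - 2) / r) ≤ (r - 1) * M ^ ((r - 2) / r) := by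
      calc M ^ (2 / r) * M ^ ((r - 2) / r) ≤
          (r - 1) * (M ^ (2 / r) * M ^ ((r - 2) / r)) ^ ((r - 2) / r) := h2
        _ = (r - 1) * M ^ ((r - 2) / r) := by rw [h3]
    exact le_of_mul_le_mul_right h5 h4

end Pool.Agent.Q198.WM.TaskMom
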