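import Pool.Agent.Q198.WM.Stmts

open MeasureTheory ProbabilityTheory Finset Filter Topology

noncomputable section

namespace Pool.Agent.Q198.WM.TaskMomStrict

lemma null_finite {s : Set ℝ} (hs : s.Finite) : gam s = 0 := by
  have h : NullSingletonClass (gaussianReal 0 1) := nullSingletonClass_gaussianReal one_ne_zero
  show gaussianReal 0 1 s = 0
  exact hs.measure_zero _

instance : IsProbabilityMeasure gam := by unfold gam; infer_instance

lemma not_ae {P : ℝ → Prop} (h : ∀ᵐ x ∂gam, P x) (hs : {x | P x}.Finite) : False := by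
  have h1 : gam {x | P x} = 0 := null_finite hs
  have h2 : gam {x | P x}ᶜ = 0 := h
  have h3 : gam Set.univ ≤ gam {x | P x} + gam {x | P x}ᶜ := by
    rw [← Set.union_compl_self {x | P x}]
    exact measure_union_le _ _
  rw [h1, h2, measure_univ] at h3
  simp at h3

lemma fin_level (r c : ℝ) (hr : 0 < r) (hc : 0 ≤ c) : {x : ℝ | |x| ^ r = c}.Finite := by
  refine Set.Finite.subset ((Set.finite_singleton (c ^ (1 / r))).union
    (Set.finite_singleton (-(c ^ (1 / r))))) ?_
  intro x hx
  have hx' : |x| ^ r = c := hx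
  have h1 : |x| = c ^ (1 / r) := by
    rw [← hx', ← Real.rpow_mul (abs_nonneg x), mul_one_div_cancel hr.ne', Real.rpow_one]
  rcases abs_cases x with ⟨h2, _⟩ | ⟨h2, _⟩
  · left
    show x = _
    rw [← h1, h2]
  · right
    show x = _
    rw [← h1, h2]
    ring

theorem main : Pool.Agent.Q198.WM.TaskMomStrict := by
  intro hI hInt r hr
  have hr0 : 0 < r := by linarith
  have hint : ∀ s : ℝ, 0 ≤ s → Integrable (fun x : ℝ => |x| ^ s) gam := by
    intro s hs
    have := hInt s 0 1 hs
    simpa using this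
  set m : ℝ := ∫ x, |x| ^ r ∂gam with hm
  set m' : ℝ := ∫ x, |x| ^ (r - 2) ∂gam with hm'
  have hIB : m = (r - 1) * m' := hI r hr.le
  have hm0 : 0 < m := by
    have h0 : 0 ≤ m := integral_nonneg fun x => by positivity
    rcases h0.eq_or_lt with h | h
    · exfalso
      have h1 : (fun x : ℝ => |x| ^ r) =ᵐ[gam] 0 :=
        (integral_eq_zero_iff_of_nonneg (fun x => by positivity) (hint r hr0.le)).1 h.symm
      exact not_ae (P := fun x => |x| ^ r = 0) h1 (fin_level r 0 hr0 le_rfl)
    · exact h
  set θ : ℝ := (r - 2) / r with hθ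
  have hθ0 : 0 < θ := div_pos (by linarith) hr0
  have hθ1 : θ < 1 := by rw [hθ, div_lt_one hr0]; linarith
  -- the tangent line
  have key : m' < m ^ θ := by
    have hpt : ∀ x : ℝ, |x| ^ (r - 2) / m ^ θ ≤ 1 + θ * (|x| ^ r / m - 1) := by
      intro x
      have h1 : |x| ^ (r - 2) / m ^ θ = (1 + (|x| ^ r / m - 1)) ^ θ := by
        rw [add_sub_cancel, Real.div_rpow (by positivity) hm0.le, ← Real.rpow_mul (abs_nonneg x)]
        congr 2
        rw [hθ]
        field_simp
      rw [h1]
      have h2 : (-1 : ℝ) ≤ |x| ^ r / m - 1 := by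
        have : 0 ≤ |x| ^ r / m := by positivity
        linarith
      exact rpow_one_add_le_one_add_mul_self h2 hθ0.le hθ1.le
    have hpt2 : ∀ x : ℝ, |x| ^ (r - 2) / m ^ θ = 1 + θ * (|x| ^ r / m - 1) → |x| ^ r = m := by
      intro x hx
      by_contra hne
      have h1 : |x| ^ (r - 2) / m ^ θ = (1 + (|x| ^ r / m - 1)) ^ θ := by
        rw [add_sub_cancel, Real.div_rpow (by positivity) hm0.le, ← Real.rpow_mul (abs_nonneg x)]
        congr 2
        rw [hθ]
        field_simp
      have h2 : (-1 : ℝ) ≤ |x| ^ r / m - 1 := by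
        have : 0 ≤ |x| ^ r / m := by positivity
        linarith
      have h3 : |x| ^ r / m - 1 ≠ 0 := by
        intro h
        apply hne
        have : |x| ^ r / m = 1 := by linarith
        rwa [div_eq_one_iff_eq hm0.ne'] at this
      have h4 := rpow_one_add_lt_one_add_mul_self h2 h3 hθ0 hθ1
      rw [← h1, hx] at h4
      exact lt_irrefl _ h4
    have hi1 : Integrable (fun x : ℝ => |x| ^ (r - 2) / m ^ θ) gam :=
      (hint (r - 2) (by linarith)).div_const _
    have hi3 : Integrable (fun x : ℝ => |x| ^ r / m) gam := (hint r hr0.le).div_const _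
    have hi4 : Integrable (fun x : ℝ => |x| ^ r / m - 1) gam := hi3.sub (integrable_const _)
    have hi5 : Integrable (fun x : ℝ => θ * (|x| ^ r / m - 1)) gam := hi4.const_mul _
    have hi2 : Integrable (fun x : ℝ => 1 + θ * (|x| ^ r / m - 1)) gam :=
      (integrable_const _).add hi5
    have hI2 : ∫ x, (1 + θ * (|x| ^ r / m - 1)) ∂gam = 1 := by
      rw [integral_add (integrable_const _) hi5,
        integral_const_mul, integral_sub hi3 (integrable_const _),
        integral_div, ← hm, div_self hm0.ne']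
      simp
    have hI1 : ∫ x, |x| ^ (r - 2) / m ^ θ ∂gam = m' / m ^ θ := by rw [integral_div]
    have hle : m' / m ^ θ ≤ 1 := by
      rw [← hI1, ← hI2]
      exact integral_mono hi1 hi2 hpt
    have hlt : m' / m ^ θ < 1 := by
      rcases hle.eq_or_lt with h | h
      · exfalso
        have h1 : ∫ x, ((1 + θ * (|x| ^ r / m - 1)) - |x| ^ (r - 2) / m ^ θ) ∂gam = 0 := by
          rw [integral_sub hi2 hi1, hI2, hI1, h, sub_self]
        have h2 := (integral_eq_zero_iff_of_nonneg (fun x => sub_nonneg.2 (hpt x))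
          (hi2.sub hi1)).1 h1
        refine not_ae (P := fun x => |x| ^ r = m) ?_ (fin_level r m hr0 hm0.le)
        filter_upwards [h2] with x hx
        exact hpt2 x (sub_eq_zero.1 hx).symm
      · exact h
    rwa [div_lt_one (Real.rpow_pos_of_pos hm0 _)] at hlt
  have hn : nrm r 0 1 ^ 2 = m ^ (2 / r) := by
    have h1 : nrm r 0 1 = m ^ (1 / r) := by
      unfold nrm
      simp [hm]
    rw [h1, ← Real.rpow_natCast, ← Real.rpow_mul hm0.le]
    congr 1
    push_cast
    ring
  rw [hn]
  have h5 : m ^ (2 / r) * m ^ θ = m := by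
    rw [← Real.rpow_add hm0]
    have : 2 / r + θ = 1 := by rw [hθ]; field_simp; ring
    rw [this, Real.rpow_one]
  have h6 : m ^ (2 / r) * m ^ θ < (r - 1) * m ^ θ := by
    rw [h5]
    calc m = (r - 1) * m' := hIB
      _ < (r - 1) * m ^ θ := mul_lt_mul_of_pos_left key (by linarith)
  exact lt_of_mul_lt_mul_right h6 (Real.rpow_nonneg hm0.le _)

end Pool.Agent.Q198.WM.TaskMomStrict
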