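import Pool.Agent.Q198.WM.Stmts

namespace Pool.Agent.Q198.WM.TaskMono

open MeasureTheory ProbabilityTheory Finset Filter Topology Pool.Agent.Q198.WM

private theorem sc (u v l r : ℝ) (hr : 1 < r) (h0 : 0 < l) (h1 : l < 1) (huv : u ≠ v) :
    |l * u + (1 - l) * v| ^ r < l * |u| ^ r + (1 - l) * |v| ^ r := by
  have hr0 : 0 < r := by linarith
  have h1' : 0 < 1 - l := by linarith
  have htri : |l * u + (1 - l) * v| ≤ l * |u| + (1 - l) * |v| := by
    calc |l * u + (1 - l) * v| ≤ |l * u| + |(1 - l) * v| := abs_add_le _ _
      _ = l * |u| + (1 - l) * |v| := by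
        rw [abs_mul, abs_mul, abs_of_pos h0, abs_of_pos h1']
  by_cases h : |u| = |v|
  · have huv' : u = -v := by
      rcases abs_eq_abs.1 h with h | h
      · exact absurd h huv
      · exact h
    have hv : v ≠ 0 := by
      rintro rfl
      apply huv
      rw [huv']
      simp
    have hv' : 0 < |v| := abs_pos.2 hv
    rw [h]
    have e : l * |v| ^ r + (1 - l) * |v| ^ r = |v| ^ r := by ring
    rw [e]
    apply Real.rpow_lt_rpow (abs_nonneg _) _ hr0
    rw [huv', show l * -v + (1 - l) * v = (1 - 2 * l) * v by ring, abs_mul]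
    have : |1 - 2 * l| < 1 := by
      rw [abs_lt]
      constructor <;> linarith
    nlinarith
  · have hsc := (strictConvexOn_rpow hr).2 (x := |u|) (Set.mem_Ici.2 (abs_nonneg u))
      (y := |v|) (Set.mem_Ici.2 (abs_nonneg v)) h h0 h1' (by ring)
    simp only [smul_eq_mul] at hsc
    exact lt_of_le_of_lt (Real.rpow_le_rpow (abs_nonneg _) htri hr0.le) hsc

private theorem cont (a b r : ℝ) (hr : 0 < r) : Continuous (fun x : ℝ => |a + b * x| ^ r) :=
  (by fun_prop : Continuous fun x : ℝ => |a + b * x|).rpow_const (fun x => Or.inr hr.le)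

private theorem sym (a b r : ℝ) (hr : 0 < r) :
    ∫ x, |a + (-b) * x| ^ r ∂gam = ∫ x, |a + b * x| ^ r ∂gam := by
  have hmap : gam.map (fun x => -x) = gam := by
    unfold gam
    rw [gaussianReal_map_neg]
    simp
  conv_rhs => rw [← hmap]
  rw [integral_map (by fun_prop) (cont a b r hr).aestronglyMeasurable]
  refine integral_congr_ae (ae_of_all _ fun x => ?_)
  simp

theorem main : TaskMono := by
  intro hInt r hr a b b' hb hbb
  have hr0 : 0 < r := by linarith
  have hb' : 0 < b' := lt_of_le_of_lt hb hbb
  obtain ⟨l, hl0, hl1, hl⟩ : ∃ l : ℝ, 0 < l ∧ l < 1 ∧ l * b' + (1 - l) * (-b') = b := by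
    refine ⟨(1 + b / b') / 2, by positivity, ?_, ?_⟩
    · have : b / b' < 1 := (div_lt_one hb').2 hbb
      linarith
    · field_simp
      ring
  have key : ∀ x : ℝ, x ≠ 0 → |a + b * x| ^ r <
      l * |a + b' * x| ^ r + (1 - l) * |a + (-b') * x| ^ r := by
    intro x hx
    have h := sc (a + b' * x) (a + (-b') * x) l r hr hl0 hl1 (by
      intro e
      have : b' * x = 0 := by linarith
      rcases mul_eq_zero.1 this with h | h
      · exact hb'.ne' h
      · exact hx h)
    have e : l * (a + b' * x) + (1 - l) * (a + (-b') * x) = a + b * x := by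
      rw [← hl]; ring
    rwa [e] at h
  have i1 := hInt r a b hr0.le
  have i2 := hInt r a b' hr0.le
  have i3 := hInt r a (-b') hr0.le
  have hpos : 0 < ∫ x, (l * |a + b' * x| ^ r + (1 - l) * |a + (-b') * x| ^ r -
      |a + b * x| ^ r) ∂gam := by
    rw [integral_pos_iff_support_of_nonneg_ae]
    · have hsub : ({0}ᶜ : Set ℝ) ⊆ Function.support (fun x : ℝ =>
          l * |a + b' * x| ^ r + (1 - l) * |a + (-b') * x| ^ r - |a + b * x| ^ r) := by
        intro x hx
        have := key x hx
        simp only [Function.mem_support]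
        linarith
      refine lt_of_lt_of_le ?_ (measure_mono hsub)
      have : NullSingletonClass gam := nullSingletonClass_gaussianReal (by norm_num)
      have hp : IsProbabilityMeasure gam := by unfold gam; infer_instance
      rw [prob_compl_eq_one_sub (measurableSet_singleton 0), measure_singleton]
      simp
    · refine ae_of_all _ fun x => ?_
      by_cases hx : x = 0
      · subst hx
        simp
        have : l * |a| ^ r + (1 - l) * |a| ^ r = |a| ^ r := by ring
        linarith
      · have := key x hx
        simp only [Pi.zero_apply]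
        linarith
    · exact ((i2.const_mul l).add (i3.const_mul (1 - l))).sub i1
  have i4 : Integrable (fun x => l * |a + b' * x| ^ r + (1 - l) * |a + -b' * x| ^ r) gam :=
    (i2.const_mul l).add (i3.const_mul (1 - l))
  rw [integral_sub i4 i1,
    integral_add (i2.const_mul l) (i3.const_mul (1 - l)), integral_const_mul, integral_const_mul,
    sym a b' r hr0] at hpos
  unfold nrm
  apply Real.rpow_lt_rpow
  · exact integral_nonneg fun x => Real.rpow_nonneg (abs_nonneg _) _
  · linarith
  · positivity

end Pool.Agent.Q198.WM.TaskMono
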