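import Pool.Agent.Q198.WM.Stmts

/-! `TaskNormLp`: norms in `Lp` are given by integrals. -/

namespace Pool.Agent.Q198.WM.TaskNormLp

open MeasureTheory ProbabilityTheory Finset Filter Topology

theorem main : Pool.Agent.Q198.WM.TaskNormLp := by
  intro r hr _ k hk
  have hr0 : 0 < r := by linarith
  rw [Lp.norm_toLp, hk.eLpNorm_eq_integral_rpow_norm
    (by simpa using hr0) ENNReal.ofReal_ne_top, ENNReal.toReal_ofReal hr0.le, one_div,
    ENNReal.toReal_ofReal]
  · simp only [Real.norm_eq_abs]
  · refine Real.rpow_nonneg (integral_nonneg fun t => ?_) _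
    exact Real.rpow_nonneg (norm_nonneg _) _

end Pool.Agent.Q198.WM.TaskNormLp
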