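import Pool.Agent.Q198.WM.Stmts

set_option autoImplicit false

namespace Pool.Agent.Q198.WM.TaskPolar

open MeasureTheory ProbabilityTheory Finset Filter Topology

theorem lin {k : ℝ → ℝ} (h1 : Integrable k gam) (h2 : Integrable (fun x => k x * x) gam)
    (a b : ℝ) : ∫ x, k x * (a + b * x) ∂gam = a * ∫ x, k x ∂gam + b * ∫ x, k x * x ∂gam := by
  have h : (fun x => k x * (a + b * x)) = fun x => a * k x + b * (k x * x) := by
    funext x
    ring
  rw [h, integral_add (h1.const_mul a) (h2.const_mul b), integral_const_mul, integral_const_mul]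

theorem aux (hE : TaskExt) (hH : TaskHold) (hI : TaskInt) : ∀ p p' q q' : ℝ,
    p.HolderConjugate p' → q.HolderConjugate q' → ∀ m α β : ℝ,
    (∀ a b : ℝ, a * α + b * β ≤ nrm p' a b) →
    ∃ h ∈ Ball p, nrm q α (m * β) ≤ nrm q (∫ x, h x ∂gam) (m * ∫ x, h x * x ∂gam) := by
  intro p p' q q' hp hq m α β hpol
  obtain ⟨k, hk, hk2⟩ := hE hI q' q hq.symm α (m * β)
  obtain ⟨k1, k2, k3⟩ := hH hI q' q hq.symm k hk
  obtain ⟨h, hh, hh2⟩ := hE hI p p' hp (∫ x, k x ∂gam) (m * ∫ x, k x * x ∂gam)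
  obtain ⟨h1, h2, -⟩ := hH hI p p' hp h hh
  refine ⟨h, hh, ?_⟩
  have e1 := hpol (∫ x, k x ∂gam) (m * ∫ x, k x * x ∂gam)
  rw [← hh2, lin h1 h2] at e1
  rw [lin k1 k2] at hk2
  have e2 := (le_abs_self _).trans (k3 (∫ x, h x ∂gam) (m * ∫ x, h x * x ∂gam))
  rw [lin k1 k2] at e2
  rw [← hk2]
  refine le_trans (le_of_eq ?_) (e1.trans (le_trans (le_of_eq ?_) e2))
  · ring
  · ring

theorem main : Pool.Agent.Q198.WM.TaskPolar := fun hE hH hI => aux hE hH hI

end Pool.Agent.Q198.WM.TaskPolar
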