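import Pool.Agent.Q198.WM.Stmts

set_option autoImplicit false

namespace Pool.Agent.Q198.WM.TaskPtLow

open Set Filter Topology

theorem hder (q A x : ℝ) (hx : -1 < x) :
    HasDerivAt (fun x : ℝ => (1 + x) ^ q - 1 - q * x - A * x ^ 2)
      (q * (1 + x) ^ (q - 1) - q - 2 * A * x) x := by
  have h1 : HasDerivAt (fun x : ℝ => (1 + x) ^ q) (1 * q * (1 + x) ^ (q - 1)) x :=
    ((hasDerivAt_id x).const_add 1).rpow_const (Or.inl (by simp only [id]; linarith))
  have h2 : HasDerivAt (fun x : ℝ => q * x) (q * 1) x := (hasDerivAt_id x).const_mul q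
  have h3 : HasDerivAt (fun x : ℝ => A * x ^ 2) (A * (2 * x)) x := by
    have := (hasDerivAt_pow 2 x).const_mul A
    simpa using this
  have h4 := ((h1.sub_const 1).sub h2).sub h3
  exact h4.congr_deriv (by ring)

theorem pos (q x : ℝ) (hq : 2 ≤ q) (hx : 0 ≤ x) :
    1 + q * x + q * (q - 1) / 2 * x ^ 2 ≤ (1 + x) ^ q := by
  have hmono : MonotoneOn (fun x : ℝ => (1 + x) ^ q - 1 - q * x - q * (q - 1) / 2 * x ^ 2)
      (Ici 0) := by
    refine monotoneOn_of_deriv_nonneg (convex_Ici 0) ?_ ?_ ?_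
    · intro y hy
      exact (hder q _ y (by have := mem_Ici.1 hy; linarith)).continuousAt.continuousWithinAt
    · intro y hy
      rw [interior_Ici] at hy
      exact (hder q _ y (by have := mem_Ioi.1 hy; linarith)).differentiableAt.differentiableWithinAt
    · intro y hy
      rw [interior_Ici] at hy
      have hy0 : 0 < y := mem_Ioi.1 hy
      rw [(hder q _ y (by linarith)).deriv]
      have h1 := one_add_mul_self_le_rpow_one_add (s := y) (by linarith) (p := q - 1) (by linarith)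
      nlinarith
  have h := hmono (mem_Ici.2 le_rfl) (mem_Ici.2 hx) hx
  simp only [add_zero, Real.one_rpow, mul_zero, sub_self, zero_pow, ne_eq, OfNat.ofNat_ne_zero,
    not_false_eq_true] at h
  linarith

theorem neg (q η : ℝ) (hq : 2 ≤ q) (hη : 0 < η) : ∃ δ : ℝ, 0 < δ ∧ δ < 1 ∧ ∀ x : ℝ, -δ ≤ x → x ≤ 0 →
    1 + q * x + (q * (q - 1) / 2 - η) * x ^ 2 ≤ (1 + x) ^ q := by
  have hd : HasDerivAt (fun x : ℝ => (1 + x) ^ (q - 1)) (q - 1) 0 := by
    have h1 : HasDerivAt (fun x : ℝ => (1 + x) ^ (q - 1)) (1 * (q - 1) * (1 + 0) ^ (q - 1 - 1)) 0 :=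
      ((hasDerivAt_id (0 : ℝ)).const_add 1).rpow_const (Or.inl (by simp))
    simpa using h1
  have hε : 0 < 2 * η / q := by positivity
  have hev : ∀ᶠ x in 𝓝 (0 : ℝ), ‖(1 + x) ^ (q - 1) - 1 - x * (q - 1)‖ ≤ 2 * η / q * ‖x‖ := by
    have h2 := (hasDerivAt_iff_isLittleO_nhds_zero.1 hd).def hε
    filter_upwards [h2] with x hx
    simpa using hx
  obtain ⟨δ0, hδ0, hball⟩ := Metric.eventually_nhds_iff.1 hev
  refine ⟨min (δ0 / 2) (1 / 2), by positivity, by
    have := min_le_right (δ0 / 2) (1 / 2 : ℝ); linarith, ?_⟩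
  intro x hx hx0
  set δ := min (δ0 / 2) (1 / 2) with hδdef
  have hδ1 : δ ≤ 1 / 2 := min_le_right _ _
  have hδ2 : δ ≤ δ0 / 2 := min_le_left _ _
  have hanti : AntitoneOn (fun x : ℝ => (1 + x) ^ q - 1 - q * x - (q * (q - 1) / 2 - η) * x ^ 2)
      (Icc (-δ) 0) := by
    refine antitoneOn_of_deriv_nonpos (convex_Icc _ _) ?_ ?_ ?_
    · intro y hy
      exact (hder q _ y (by linarith [hy.1])).continuousAt.continuousWithinAt
    · intro y hy
      rw [interior_Icc] at hy
      exact (hder q _ y (by linarith [hy.1])).differentiableAt.differentiableWithinAt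
    · intro y hy
      rw [interior_Icc] at hy
      rw [(hder q _ y (by linarith [hy.1])).deriv]
      have h3 := hball (y := y) (by
        rw [Real.dist_eq, sub_zero, abs_of_neg hy.2]
        linarith [hy.1])
      rw [Real.norm_eq_abs, Real.norm_eq_abs, abs_of_neg hy.2] at h3
      have h4 := (abs_le.1 h3).2
      have h5 : q * ((1 + y) ^ (q - 1) - 1 - y * (q - 1)) ≤ q * (2 * η / q * -y) :=
        mul_le_mul_of_nonneg_left h4 (by linarith)
      have h6 : q * (2 * η / q * -y) = -(2 * η * y) := by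
        field_simp
      rw [h6] at h5
      nlinarith
  have h := hanti ⟨hx, hx0⟩ ⟨by linarith, le_rfl⟩ hx0
  simp only [add_zero, Real.one_rpow, mul_zero, sub_self, zero_pow, ne_eq, OfNat.ofNat_ne_zero,
    not_false_eq_true] at h
  linarith

theorem main : Pool.Agent.Q198.WM.TaskPtLow := by
  intro q η hq hη
  obtain ⟨δ, hδ, hδ1, hneg⟩ := neg q η hq hη
  have hA : 0 ≤ q * (q - 1) / 2 := by nlinarith
  refine ⟨1 / δ ^ 4 + q * (q - 1) / 2 / δ ^ 2, by positivity, fun x => ?_⟩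
  have hC : 0 ≤ (1 / δ ^ 4 + q * (q - 1) / 2 / δ ^ 2) * x ^ 4 := by positivity
  rcases le_total 0 x with hx | hx
  · have h := pos q x hq hx
    rw [abs_of_nonneg (by linarith : (0 : ℝ) ≤ 1 + x)]
    nlinarith [mul_nonneg hη.le (sq_nonneg x)]
  · rcases le_total (-δ) x with hx1 | hx1
    · have h := hneg x hx1 hx
      rw [abs_of_nonneg (by linarith : (0 : ℝ) ≤ 1 + x)]
      linarith
    · have h0 : 0 ≤ |1 + x| ^ q := Real.rpow_nonneg (abs_nonneg _) _
      have hx2 : δ ^ 2 ≤ x ^ 2 := by nlinarith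
      have hx4 : δ ^ 4 ≤ x ^ 4 := by nlinarith [sq_nonneg (x ^ 2 - δ ^ 2), sq_nonneg δ]
      have h1 : 1 ≤ 1 / δ ^ 4 * x ^ 4 := by
        rw [one_div, inv_mul_eq_div, le_div_iff₀ (by positivity)]
        linarith
      have h2 : q * (q - 1) / 2 * x ^ 2 ≤ q * (q - 1) / 2 / δ ^ 2 * x ^ 4 := by
        rw [div_mul_eq_mul_div _ (δ ^ 2), le_div_iff₀ (by positivity)]
        have : q * (q - 1) / 2 * x ^ 2 * δ ^ 2 ≤ q * (q - 1) / 2 * x ^ 2 * x ^ 2 :=
          mul_le_mul_of_nonneg_left hx2 (by positivity)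
        calc q * (q - 1) / 2 * x ^ 2 * δ ^ 2 ≤ q * (q - 1) / 2 * x ^ 2 * x ^ 2 := this
          _ = q * (q - 1) / 2 * x ^ 4 := by ring
      have h3 : q * x ≤ 0 := mul_nonpos_of_nonneg_of_nonpos (by linarith) hx
      have h4 : 0 ≤ η * x ^ 2 := by positivity
      nlinarith

end Pool.Agent.Q198.WM.TaskPtLow
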