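import Pool.Agent.Q198.WM.Stmts

set_option autoImplicit false

open MeasureTheory ProbabilityTheory Finset Filter Topology

namespace Pool.Agent.Q198.WM.TaskPtUp

lemma hd1 (p η x : ℝ) (hx : -1 < x) :
    HasDerivAt (fun x : ℝ => 1 + p * x + (p * (p - 1) / 2 + η) * x ^ 2 - (1 + x) ^ p)
      (p + (p * (p - 1) + 2 * η) * x - p * (1 + x) ^ (p - 1)) x := by
  have h1 : HasDerivAt (fun x : ℝ => 1 + x) 1 x := by
    simpa using (hasDerivAt_id x).const_add (1 : ℝ)
  have h2 : HasDerivAt (fun x : ℝ => (1 + x) ^ p) (1 * p * (1 + x) ^ (p - 1)) x :=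
    h1.rpow_const (Or.inl (by linarith))
  have h3 : HasDerivAt (fun x : ℝ => 1 + p * x) p x := by
    simpa using ((hasDerivAt_id x).const_mul p).const_add (1 : ℝ)
  have h4 : HasDerivAt (fun x : ℝ => (p * (p - 1) / 2 + η) * x ^ 2)
      ((p * (p - 1) / 2 + η) * (2 * x)) x := by
    simpa using (hasDerivAt_pow 2 x).const_mul (p * (p - 1) / 2 + η)
  have h5 := (h3.add h4).sub h2
  exact h5.congr_deriv (by ring)

lemma hd2 (p η : ℝ) :
    HasDerivAt (fun x : ℝ => p + (p * (p - 1) + 2 * η) * x - p * (1 + x) ^ (p - 1)) (2 * η) 0 := by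
  have h1 : HasDerivAt (fun x : ℝ => 1 + x) 1 0 := by
    simpa using (hasDerivAt_id (0 : ℝ)).const_add (1 : ℝ)
  have h2 : HasDerivAt (fun x : ℝ => (1 + x) ^ (p - 1)) (1 * (p - 1) * (1 + 0) ^ (p - 1 - 1)) 0 :=
    h1.rpow_const (Or.inl (by norm_num))
  have h3 : HasDerivAt (fun x : ℝ => p + (p * (p - 1) + 2 * η) * x) (p * (p - 1) + 2 * η) 0 := by
    simpa using ((hasDerivAt_id (0 : ℝ)).const_mul (p * (p - 1) + 2 * η)).const_add p
  have h4 := h3.sub (h2.const_mul p)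
  refine h4.congr_deriv ?_
  rw [add_zero, Real.one_rpow]
  ring

theorem main : Pool.Agent.Q198.WM.TaskPtUp := by
  intro p η hp hp2 hη
  set g : ℝ → ℝ := fun x => 1 + p * x + (p * (p - 1) / 2 + η) * x ^ 2 - (1 + x) ^ p with hg
  have hev : deriv g =ᶠ[𝓝 0] fun x : ℝ => p + (p * (p - 1) + 2 * η) * x - p * (1 + x) ^ (p - 1) := by
    filter_upwards [lt_mem_nhds (show (-1 : ℝ) < 0 by norm_num)] with x hx
    exact (hd1 p η x hx).deriv
  have hloc : IsLocalMin g 0 := by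
    apply isLocalMin_of_deriv_deriv_pos
    · rw [hev.deriv_eq, (hd2 p η).deriv]
      linarith
    · rw [(hd1 p η 0 (by norm_num)).deriv, add_zero, Real.one_rpow]
      ring
    · exact (hd1 p η 0 (by norm_num)).continuousAt
  have hg0 : g 0 = 0 := by
    rw [hg]
    simp
  obtain ⟨d, hd, hdg⟩ := Metric.eventually_nhds_iff.1 hloc
  set δ := min d (1 / 2) with hδ
  have hδ0 : 0 < δ := lt_min hd (by norm_num)
  refine ⟨4 * (1 / δ) ^ 3 + (1 / δ) ^ 2, by positivity, fun x => ?_⟩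
  rcases lt_or_ge |x| δ with h | h
  · have h1 : |x| < d := h.trans_le (min_le_left _ _)
    have h2 : |x| < 1 / 2 := h.trans_le (min_le_right _ _)
    have h3 : 0 ≤ g x := by
      have := hdg (y := x) (by rw [Real.dist_eq, sub_zero]; exact h1)
      rw [hg0] at this
      exact this
    have h4 : 0 < 1 + x := by linarith [(abs_lt.1 h2).1]
    rw [abs_of_pos h4]
    have h5 : 0 ≤ (4 * (1 / δ) ^ 3 + (1 / δ) ^ 2) * x ^ 4 := by positivity
    rw [hg] at h3
    simp only at h3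
    linarith
  · set y := |x| with hy
    have hy0 : 0 ≤ y := abs_nonneg x
    have hx2 : x ^ 2 = y ^ 2 := (sq_abs x).symm
    have hx4 : x ^ 4 = y ^ 4 := by
      have : x ^ 4 = (x ^ 2) ^ 2 := by ring
      rw [this, hx2]
      ring
    have h1 : |1 + x| ^ p ≤ (1 + y) ^ 2 := by
      have h2 : |1 + x| ≤ 1 + y := by
        have := abs_add_le 1 x
        rwa [abs_one] at this
      calc |1 + x| ^ p ≤ (1 + y) ^ p := Real.rpow_le_rpow (abs_nonneg _) h2 (by linarith)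
        _ ≤ (1 + y) ^ (2 : ℝ) := Real.rpow_le_rpow_of_exponent_le (by linarith) hp2
        _ = (1 + y) ^ 2 := Real.rpow_two _
    have hk : 1 ≤ 1 / δ * y := by
      rw [one_div, ← div_eq_inv_mul, one_le_div hδ0]
      exact h
    have h3 : 1 ≤ (1 / δ * y) ^ 3 := one_le_pow₀ hk
    have h4 : 1 ≤ (1 / δ * y) ^ 2 := one_le_pow₀ hk
    have h5 : 4 * y + y ^ 2 ≤ (4 * (1 / δ) ^ 3 + (1 / δ) ^ 2) * y ^ 4 := by
      have e : (4 * (1 / δ) ^ 3 + (1 / δ) ^ 2) * y ^ 4 =
          4 * y * (1 / δ * y) ^ 3 + y ^ 2 * (1 / δ * y) ^ 2 := by ring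
      rw [e]
      have h6 : 4 * y * 1 ≤ 4 * y * (1 / δ * y) ^ 3 :=
        mul_le_mul_of_nonneg_left h3 (by linarith)
      have h7 : y ^ 2 * 1 ≤ y ^ 2 * (1 / δ * y) ^ 2 :=
        mul_le_mul_of_nonneg_left h4 (by positivity)
      linarith
    have h8 : -(2 * y) ≤ p * x := by
      have h9 : -y ≤ x := neg_abs_le x
      have h10 : p * (-y) ≤ p * x := mul_le_mul_of_nonneg_left h9 (by linarith)
      have h11 : p * y ≤ 2 * y := mul_le_mul_of_nonneg_right hp2 hy0
      linarith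
    have h12 : 0 ≤ (p * (p - 1) / 2 + η) * y ^ 2 := by
      have : 0 ≤ p * (p - 1) := mul_nonneg (by linarith) (by linarith)
      positivity
    rw [hx2, hx4]
    have e2 : (1 + y) ^ 2 = 1 + 2 * y + y ^ 2 := by ring
    linarith

end Pool.Agent.Q198.WM.TaskPtUp
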