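import Pool.Agent.Q198.WM.Stmts

namespace Pool.Agent.Q198.WM.TaskSumNorm

open MeasureTheory ProbabilityTheory Finset Filter Topology

theorem main : Pool.Agent.Q198.WM.TaskSumNorm := by
  intro hL hI g hg r hr a F c
  have hlaw := hL g hg F c
  have hXm : Measurable (fun t : unitInterval => ∑ n ∈ F, c n * g n t) :=
    Finset.measurable_sum F (fun n _ => (hg.meas n).const_mul (c n))
  generalize hX : (fun t : unitInterval => ∑ n ∈ F, c n * g n t) = X at hlaw hXm
  generalize hs : √(∑ n ∈ F, c n ^ 2) = s at hlaw
  have hX' : ∀ t, ∑ n ∈ F, c n * g n t = X t := fun t => congrFun hX t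
  have hsm : Measurable (fun x : ℝ => s * x) := measurable_const_mul s
  have hφ : Measurable (fun y : ℝ => |a + y| ^ r) := by fun_prop
  have hint : Integrable (fun t => |a + X t| ^ r) (volume : Measure unitInterval) := by
    have h1 : Integrable ((fun y : ℝ => |a + y| ^ r) ∘ X) (volume : Measure unitInterval) := by
      rw [← integrable_map_measure hφ.aestronglyMeasurable hXm.aemeasurable, hlaw,
        integrable_map_measure hφ.aestronglyMeasurable hsm.aemeasurable]
      exact hI r a s (by linarith)
    exact h1
  have hval : ∫ t : unitInterval, |a + X t| ^ r = ∫ x, |a + s * x| ^ r ∂gam := by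
    have e1 := integral_map (μ := (volume : Measure unitInterval)) hXm.aemeasurable
      (f := fun y : ℝ => |a + y| ^ r) hφ.aestronglyMeasurable
    have e2 := integral_map (μ := gam) hsm.aemeasurable
      (f := fun y : ℝ => |a + y| ^ r) hφ.aestronglyMeasurable
    rw [← e1, hlaw, e2]
  simp only [hX']
  refine ⟨?_, ?_⟩
  · have hm : AEStronglyMeasurable (fun t => a + X t) (volume : Measure unitInterval) :=
      (hXm.const_add a).aestronglyMeasurable
    rw [← integrable_norm_rpow_iff hm (by simpa using (by linarith : 0 < r)) ENNReal.ofReal_ne_top,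
      ENNReal.toReal_ofReal (by linarith)]
    simpa [Real.norm_eq_abs] using hint
  · rw [hval]
    rfl

end Pool.Agent.Q198.WM.TaskSumNorm
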