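import Pool.Agent.Q198.WM.Stmts

/-! Blueprint lemma `TaskTest` of `MP_30e1ee_an`. -/

namespace Pool.Agent.Q198.WM.TaskTest

open MeasureTheory ProbabilityTheory Finset Filter Topology

theorem main : Pool.Agent.Q198.WM.TaskTest := by
  intro hLow hUp hCalc hInt hPL hPU p q m hp hp2 hq hm hlt
  have hg : 0 < (q - 1) * m ^ 2 - (p - 1) := by linarith
  have hm2 : 0 < m ^ 2 := by positivity
  set g : ℝ := (q - 1) * m ^ 2 - (p - 1) with hgdef
  set η : ℝ := g / (4 * (1 + m ^ 2)) with hη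
  have hη0 : 0 < η := by positivity
  obtain ⟨C1, hC1, h1⟩ := hLow hPL hInt q η hq hη0
  obtain ⟨C2, hC2, h2⟩ := hUp hPU hInt p η hp hp2 hη0
  have hp0 : 0 < p := by linarith
  have hq0 : 0 < q := by linarith
  have hpp : 0 < p * (p - 1) := mul_pos hp0 (by linarith)
  have hB : 0 < p * (p - 1) / 2 + η := by linarith
  have hηe : η * (1 + m ^ 2) = g / 4 := by
    rw [hη]; field_simp
  have e1 : (p * (p - 1) / 2 + η) / p = (p - 1) / 2 + η / p := by
    field_simp
  have e2 : ((q * (q - 1) / 2 - η) * m ^ 2) / q = (q - 1) / 2 * m ^ 2 - η * m ^ 2 / q := by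
    field_simp
  have i1 : η / p ≤ η := div_le_self hη0.le hp.le
  have i2 : η * m ^ 2 / q ≤ η * m ^ 2 := div_le_self (by positivity) (by linarith)
  have hAB : (p * (p - 1) / 2 + η) / p < ((q * (q - 1) / 2 - η) * m ^ 2) / q := by
    rw [e1, e2]
    nlinarith [hηe, hgdef]
  obtain ⟨s, hs, hpos, hcalc⟩ := hCalc p q ((q * (q - 1) / 2 - η) * m ^ 2) (p * (p - 1) / 2 + η)
    (C1 * m ^ 4) C2 hp (by linarith) hB hAB (by positivity) hC2
  refine ⟨s, hs, ?_⟩
  unfold nrm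
  have a1 : (∫ x, |1 + s * x| ^ p ∂gam) ^ (1 / p) ≤
      (1 + (p * (p - 1) / 2 + η) * s ^ 2 + C2 * s ^ 4) ^ (1 / p) := by
    apply Real.rpow_le_rpow
    · exact integral_nonneg fun x => by positivity
    · exact h2 s
    · positivity
  have a2 : (1 + (q * (q - 1) / 2 - η) * m ^ 2 * s ^ 2 - C1 * m ^ 4 * s ^ 4) ^ (1 / q) ≤
      (∫ x, |1 + m * s * x| ^ q ∂gam) ^ (1 / q) := by
    apply Real.rpow_le_rpow
    · exact hpos.le
    · have := h1 (m * s)
      calc _ = 1 + (q * (q - 1) / 2 - η) * (m * s) ^ 2 - C1 * (m * s) ^ 4 := by ring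
        _ ≤ _ := this
    · positivity
  exact (a1.trans_lt hcalc).trans_le a2

end Pool.Agent.Q198.WM.TaskTest
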