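import Pool.Agent.Q198.WM.Stmts

set_option autoImplicit false

namespace Pool.Agent.Q198.WM.TaskVal

open MeasureTheory ProbabilityTheory Finset Filter Topology

private theorem prob : IsProbabilityMeasure gam := by
  unfold gam
  infer_instance

theorem main : Pool.Agent.Q198.WM.TaskVal := by
  intro hInt r hr
  have hp := prob
  have hr0 : r ≠ 0 := by linarith
  refine ⟨fun a => ?_, fun b => ?_, ?_, fun a b => ?_⟩
  · have h1 : (fun x : ℝ => |a + 0 * x| ^ r) = fun _ => |a| ^ r := by
      funext x
      rw [zero_mul, add_zero]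
    rw [nrm, h1, integral_const, probReal_univ, one_smul, ← Real.rpow_mul (abs_nonneg a),
      mul_one_div_cancel hr0, Real.rpow_one]
  · have h1 : (fun x : ℝ => |0 + b * x| ^ r) = fun x => |b| ^ r * |0 + 1 * x| ^ r := by
      funext x
      rw [zero_add, zero_add, one_mul, abs_mul, Real.mul_rpow (abs_nonneg b) (abs_nonneg x)]
    have h2 : 0 ≤ ∫ x, |0 + 1 * x| ^ r ∂gam :=
      integral_nonneg fun x => Real.rpow_nonneg (abs_nonneg _) _
    rw [nrm, nrm, h1, integral_const_mul, Real.mul_rpow (Real.rpow_nonneg (abs_nonneg b) _) h2,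
      ← Real.rpow_mul (abs_nonneg b), mul_one_div_cancel hr0, Real.rpow_one]
  · rw [nrm]
    refine Real.rpow_pos_of_pos ?_ _
    rw [integral_pos_iff_support_of_nonneg (fun x => Real.rpow_nonneg (abs_nonneg _) _)
      (hInt r 0 1 (by linarith))]
    have h1 : (Function.support fun x : ℝ => |0 + 1 * x| ^ r) = {0}ᶜ := by
      ext x
      simp only [Function.mem_support, Set.mem_compl_iff, Set.mem_singleton_iff, zero_add, one_mul]
      rw [not_iff_not, Real.rpow_eq_zero (abs_nonneg x) hr0, abs_eq_zero]
    rw [h1]
    have h2 : gam {(0 : ℝ)} = 0 := by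
      unfold gam
      have := nullSingletonClass_gaussianReal (μ := 0) (v := 1) (by norm_num)
      exact measure_singleton _
    rw [measure_compl (measurableSet_singleton _) (by rw [h2]; simp), h2, measure_univ]
    simp
  · have h1 : gam.map (fun x : ℝ => -x) = gam := by
      unfold gam
      rw [gaussianReal_map_neg, neg_zero]
    have h2 : ∫ x, |a + b * x| ^ r ∂(gam.map (fun x : ℝ => -x)) = ∫ x, |a + b * (-x)| ^ r ∂gam := by
      refine integral_map measurable_neg.aemeasurable ?_
      refine Measurable.aestronglyMeasurable ?_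
      fun_prop
    rw [nrm, nrm]
    congr 1
    rw [h1] at h2
    rw [h2]
    refine integral_congr_ae (Eventually.of_forall fun x => ?_)
    show |a + -b * x| ^ r = |a + b * -x| ^ r
    rw [mul_neg, neg_mul]

end Pool.Agent.Q198.WM.TaskVal
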